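import Pool.Agent.Lib.MP_b197b4_ntKD.Cor1

/-!
# MP_b197b4_nt (K_1 of surfaces): valuation rings in extensions by constants
-/

set_option autoImplicit false

namespace Pool.Agent.Lib.MP_b197b4_ntKD

open Polynomial IsLocalRing

variable {k ℓ L : Type*} [Field k] [Field ℓ] [Field L] [Algebra k ℓ] [Algebra ℓ L] [Algebra k L]
  [IsScalarTower k ℓ L]

omit [Algebra ℓ L] [Algebra k L] [IsScalarTower k ℓ L] in
/-- An element which is integral over the constants is in every valuation ring above the constants. -/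
theorem mem_of_integral (W : ValuationSubring ℓ) (hk : ∀ c : k, algebraMap k ℓ c ∈ W) {x : ℓ}
    (hx : IsIntegral k x) : x ∈ W := by
  obtain ⟨p, hp, hpx⟩ := hx
  obtain ⟨φ, hφ⟩ : ∃ φ : k →+* W, ∀ c, (φ c : ℓ) = algebraMap k ℓ c :=
    ⟨(algebraMap k ℓ).codRestrict W.toSubring hk, fun c => rfl⟩
  have h1 : IsIntegral W x := by
    refine ⟨p.map φ, hp.map φ, ?_⟩
    rw [eval₂_map, ← hpx]
    congr 1
    exact RingHom.ext hφ
  obtain ⟨y, hy⟩ := IsIntegrallyClosed.isIntegral_iff.mp h1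
  rw [← hy]
  exact y.2

omit [Algebra k ℓ] [Algebra k L] [IsScalarTower k ℓ L] [Field k] in
theorem coe_alg (W : ValuationSubring ℓ) (x : W) : algebraMap W L x = algebraMap ℓ L (x : ℓ) := rfl

/-- Integral elements of `ℓ(θ)` are polynomials in `θ` over `W`. -/
theorem disc_lemma (W : ValuationSubring ℓ) (hk : ∀ c : k, algebraMap k ℓ c ∈ W) {θ : L}
    (hθ : IsIntegral k θ) (hs : IsSeparable ℓ θ) {z : L} (hz : z ∈ Algebra.adjoin ℓ {θ})
    (hi : IsIntegral W z) : ∃ P : W[X], aeval θ P = z := by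
  have hθℓ : IsIntegral ℓ θ := hθ.tower_top
  have hsep : Algebra.IsSeparable ℓ (IntermediateField.adjoin ℓ {θ}) :=
    (IntermediateField.isSeparable_adjoin_simple_iff_isSeparable ℓ L).mpr hs
  obtain ⟨pb, hpb⟩ : ∃ pb : PowerBasis ℓ (IntermediateField.adjoin ℓ {θ}),
      pb.gen = IntermediateField.AdjoinSimple.gen ℓ θ :=
    ⟨IntermediateField.adjoin.powerBasis hθℓ, IntermediateField.adjoin.powerBasis_gen hθℓ⟩
  have hgen : ((pb.gen : IntermediateField.adjoin ℓ {θ}) : L) = θ := by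
    rw [hpb]
    exact IntermediateField.AdjoinSimple.coe_gen ℓ θ
  have hfin : FiniteDimensional ℓ (IntermediateField.adjoin ℓ {θ}) := pb.finite
  have hzm : z ∈ IntermediateField.adjoin ℓ {θ} :=
    IntermediateField.algebra_adjoin_le_adjoin ℓ {θ} hz
  obtain ⟨z', hz'⟩ : ∃ z' : IntermediateField.adjoin ℓ {θ}, (z' : L) = z := ⟨⟨z, hzm⟩, rfl⟩
  have hinj : Function.Injective (algebraMap (IntermediateField.adjoin ℓ {θ}) L) :=
    (algebraMap (IntermediateField.adjoin ℓ {θ}) L).injective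
  have hz'i : IsIntegral W z' := by
    rw [← isIntegral_algebraMap_iff (R := W) hinj]
    change IsIntegral W (z' : L)
    rw [hz']
    exact hi
  have hgk : IsIntegral k pb.gen := by
    obtain ⟨p, hp, hpx⟩ := hθ
    refine ⟨p, hp, ?_⟩
    apply hinj
    rw [map_zero, hom_eval₂, ← hpx]
    have e1 : algebraMap (IntermediateField.adjoin ℓ {θ}) L pb.gen = θ := hgen
    rw [e1]
    congr 1
  have hgW : IsIntegral W pb.gen := by
    obtain ⟨p, hp, hpx⟩ := hgk
    obtain ⟨φ, hφ⟩ : ∃ φ : k →+* W, ∀ c, (φ c : ℓ) = algebraMap k ℓ c :=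
      ⟨(algebraMap k ℓ).codRestrict W.toSubring hk, fun c => rfl⟩
    refine ⟨p.map φ, hp.map φ, ?_⟩
    rw [eval₂_map, ← hpx]
    congr 1
    refine RingHom.ext fun c => ?_
    change algebraMap W (IntermediateField.adjoin ℓ {θ}) (φ c) = _
    rw [IsScalarTower.algebraMap_apply W ℓ (IntermediateField.adjoin ℓ {θ}),
      IsScalarTower.algebraMap_apply k ℓ (IntermediateField.adjoin ℓ {θ})]
    exact congrArg _ (hφ c)
  have h1 := Algebra.discr_mul_isIntegral_mem_adjoin (R := W) ℓ (B := pb) hgW hz'i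
  have hd0 : Algebra.discr ℓ pb.basis ≠ 0 := Algebra.discr_not_zero_of_basis ℓ pb.basis
  have hdk : IsIntegral k (Algebra.discr ℓ pb.basis) := by
    refine Algebra.discr_isIntegral ℓ fun i => ?_
    rw [PowerBasis.coe_basis]
    exact hgk.pow _
  have hdW : (Algebra.discr ℓ pb.basis)⁻¹ ∈ W := mem_of_integral W hk hdk.inv
  have h2 : z' ∈ Algebra.adjoin W ({pb.gen} : Set (IntermediateField.adjoin ℓ {θ})) := by
    have h3 : z' = (⟨_, hdW⟩ : W) • (Algebra.discr ℓ pb.basis • z') := by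
      rw [Algebra.smul_def, Algebra.smul_def, ← mul_assoc,
        IsScalarTower.algebraMap_apply W ℓ (IntermediateField.adjoin ℓ {θ}), ← map_mul]
      change z' = algebraMap ℓ _ ((Algebra.discr ℓ pb.basis)⁻¹ * Algebra.discr ℓ pb.basis) * z'
      rw [inv_mul_cancel₀ hd0, map_one, one_mul]
    rw [h3]
    exact Subalgebra.smul_mem _ h1 _
  rw [Algebra.adjoin_singleton_eq_range_aeval] at h2
  obtain ⟨P, hP⟩ := h2
  refine ⟨P, ?_⟩
  have h4 := congrArg (algebraMap (IntermediateField.adjoin ℓ {θ}) L) hP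
  rw [← hz']
  change _ = algebraMap (IntermediateField.adjoin ℓ {θ}) L z'
  rw [← h4]
  change aeval θ P = algebraMap (IntermediateField.adjoin ℓ {θ}) L (aeval pb.gen P)
  rw [← aeval_algebraMap_apply]
  congr 2
  exact hgen.symm

/-- Locally the maximal ideal of `W[θ]` below `W'` is generated by the maximal ideal of `W`. -/
theorem loc_lemma (W' : ValuationSubring L) (W : ValuationSubring ℓ)
    (hWW : ∀ x : ℓ, x ∈ W ↔ algebraMap ℓ L x ∈ W') (hk : ∀ c : k, algebraMap k ℓ c ∈ W)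
    {θ : L} {g : k[X]} (hg : g.Separable) (hgm : g.Monic) (hgθ : aeval θ g = 0)
    (Y : W[X]) (hY : W'.valuation (aeval θ Y) < 1) :
    ∃ H R : W[X], W'.valuation (aeval θ H) = 1 ∧
      (∀ i, W.valuation (R.coeff i : ℓ) < 1) ∧
      aeval θ H * aeval θ Y = aeval θ R := by
  classical
  have hθW : θ ∈ W' := by
    have h1 : IsIntegral k θ := ⟨g, hgm, by rw [← hgθ]; rfl⟩
    exact mem_of_integral (k := k) W' (fun c => by
      rw [IsScalarTower.algebraMap_apply k ℓ L]
      exact (hWW _).mp (hk c)) h1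
  -- the ring homomorphisms
  obtain ⟨j, hj⟩ : ∃ j : W →+* W', ∀ x, (j x : L) = algebraMap ℓ L (x : ℓ) :=
    ⟨((algebraMap ℓ L).comp W.subtype).codRestrict W'.toSubring fun x => (hWW _).mp x.2,
      fun x => rfl⟩
  have hjloc : IsLocalHom j := by
    refine ⟨fun x hx => ?_⟩
    have h1 : (x : ℓ) ≠ 0 := by
      intro h0
      apply hx.ne_zero
      apply Subtype.ext
      rw [hj, h0, map_zero]
      rfl
    obtain ⟨u, hu⟩ := isUnit_iff_exists_inv.mp hx
    have h2 : algebraMap ℓ L (x : ℓ)⁻¹ = (u : L) := by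
      have h3 : algebraMap ℓ L (x : ℓ) * (u : L) = 1 := by
        rw [← hj]
        exact congrArg Subtype.val hu
      rw [map_inv₀]
      exact inv_eq_of_mul_eq_one_right h3
    have h4 : (x : ℓ)⁻¹ ∈ W := by
      rw [hWW, h2]
      exact u.2
    refine isUnit_iff_exists_inv.mpr ⟨⟨_, h4⟩, Subtype.ext ?_⟩
    exact mul_inv_cancel₀ h1
  obtain ⟨φ, hφ⟩ : ∃ φ : ResidueField W →+* ResidueField W', ∀ x, φ (residue W x) = residue W' (j x) :=
    ⟨ResidueField.map j, fun x => rfl⟩
  obtain ⟨θ', hθ'⟩ : ∃ θ' : W', (θ' : L) = θ := ⟨⟨θ, hθW⟩, rfl⟩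
  have hev : ∀ P : W[X], ((eval₂ j θ' P : W') : L) = aeval θ P := by
    intro P
    have h1 : ((eval₂ j θ' P : W') : L) = W'.subtype (eval₂ j θ' P) := rfl
    rw [h1, hom_eval₂, aeval_def]
    have h2 : W'.subtype.comp j = algebraMap W L := RingHom.ext fun x => hj x
    have h3 : W'.subtype θ' = θ := hθ'
    rw [h2, h3]
  have hres : ∀ P : W[X], residue W' (eval₂ j θ' P) =
      eval₂ φ (residue W' θ') (P.map (residue W)) := by
    intro P
    rw [hom_eval₂, eval₂_map]
    have h2 : (residue W').comp j = φ.comp (residue W) := RingHom.ext fun x => (hφ x).symm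
    rw [h2]
  have hval : ∀ P : W[X], W'.valuation (aeval θ P) < 1 ↔
      eval₂ φ (residue W' θ') (P.map (residue W)) = 0 := by
    intro P
    rw [← hres, residue_eq_zero_iff, ValuationSubring.valuation_lt_one_iff, hev]
  have hval1 : ∀ P : W[X], W'.valuation (aeval θ P) ≤ 1 := by
    intro P
    rw [← hev]
    exact W'.valuation_le_one _
  -- the polynomial over `W`
  obtain ⟨ι, hι⟩ : ∃ ι : k →+* W, ∀ c, (ι c : ℓ) = algebraMap k ℓ c :=
    ⟨(algebraMap k ℓ).codRestrict W.toSubring hk, fun c => rfl⟩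
  obtain ⟨G, hG⟩ : ∃ G : W[X], G = g.map ι := ⟨_, rfl⟩
  have hGθ : aeval θ G = 0 := by
    rw [hG, aeval_def, eval₂_map, ← hgθ, aeval_def]
    congr 1
    refine RingHom.ext fun c => ?_
    change algebraMap ℓ L (ι c : ℓ) = _
    rw [hι, ← IsScalarTower.algebraMap_apply]
  have hGs : (G.map (residue W)).Separable := by
    rw [hG, Polynomial.map_map]
    exact hg.map
  have hG0 : eval₂ φ (residue W' θ') (G.map (residue W)) = 0 := by
    rw [← hval, hGθ, map_zero]
    exact zero_lt_one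
  have hGm : (G.map (residue W)).Monic := by
    rw [hG, Polynomial.map_map]
    exact hgm.map _
  -- the minimal polynomial of the residue class
  let : Algebra (ResidueField W) (ResidueField W') := φ.toAlgebra
  have hint : IsIntegral (ResidueField W) (residue W' θ') := ⟨_, hGm, hG0⟩
  obtain ⟨g1, hg1⟩ : ∃ g1, g1 = minpoly (ResidueField W) (residue W' θ') := ⟨_, rfl⟩
  have hdvd : ∀ P : (ResidueField W)[X], eval₂ φ (residue W' θ') P = 0 → g1 ∣ P := by
    intro P hP
    rw [hg1]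
    exact minpoly.dvd _ _ hP
  have hg10 : eval₂ φ (residue W' θ') g1 = 0 := by
    rw [hg1]
    exact minpoly.aeval _ _
  obtain ⟨h, hh⟩ := hdvd _ hG0
  have hcop : IsCoprime g1 h := by
    rw [hh] at hGs
    exact hGs.isCoprime
  have hh0 : eval₂ φ (residue W' θ') h ≠ 0 := by
    intro h0
    obtain ⟨u, v, huv⟩ := hcop
    have h2 := congrArg (eval₂ φ (residue W' θ')) huv
    rw [eval₂_add, eval₂_mul, eval₂_mul, hg10, h0, eval₂_one] at h2
    simp at h2
  obtain ⟨H, hH⟩ := Polynomial.map_surjective (residue W) residue_surjective h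
  obtain ⟨q, hq⟩ := hdvd _ ((hval Y).mp hY)
  obtain ⟨Q, hQ⟩ := Polynomial.map_surjective (residue W) residue_surjective q
  refine ⟨H, H * Y - G * Q, ?_, ?_, ?_⟩
  · refine le_antisymm (hval1 H) ?_
    by_contra hcon
    exact hh0 (hH ▸ (hval H).mp (not_le.mp hcon))
  · intro i
    have h1 : (H * Y - G * Q).map (residue W) = 0 := by
      rw [Polynomial.map_sub, Polynomial.map_mul, Polynomial.map_mul, hH, hQ, hq, hh]
      ring
    have h2 : residue W ((H * Y - G * Q).coeff i) = 0 := by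
      rw [← coeff_map, h1, coeff_zero]
    rw [residue_eq_zero_iff] at h2
    exact (W.valuation_lt_one_iff _).mp h2
  · rw [map_sub, map_mul, map_mul, hGθ, zero_mul, sub_zero]

end Pool.Agent.Lib.MP_b197b4_ntKD
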