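import Pool.Agent.Lib.MP_b197b4_ntKD.BC

/-!
# MP_b197b4_nt (K_1 of surfaces): the field with all constants
-/

set_option autoImplicit false

namespace Pool.Agent.Lib.MP_b197b4_ntKD

/-- There is a field with all algebraic constants, a Galois extension. -/
theorem exists_big (k k' F : Type) [Field k] [Field k'] [Field F] [Algebra k k'] [Algebra k F]
    [PerfectField k] [IsAlgClosed k'] [Algebra.IsAlgebraic k k'] :
    ∃ (K : Type) (_ : Field K) (_ : Algebra F K) (_ : Algebra k' K),
      BC k k' F K ∧ IsGalois F K := by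
  obtain ⟨φ⟩ : Nonempty (k' →ₐ[k] AlgebraicClosure F) := ⟨IsAlgClosed.lift⟩
  obtain ⟨K, hK⟩ : ∃ K : IntermediateField F (AlgebraicClosure F),
      K = IntermediateField.adjoin F (Set.range φ) := ⟨_, rfl⟩
  have hφ : ∀ c, φ c ∈ K := fun c => by
    rw [hK]
    exact IntermediateField.subset_adjoin F _ ⟨c, rfl⟩
  let _ : Algebra k' (AlgebraicClosure F) := (φ : k' →+* AlgebraicClosure F).toAlgebra
  let a' : Algebra k' K := ((φ : k' →+* AlgebraicClosure F).codRestrict K.toSubring hφ).toAlgebra
  have hcomm : ∀ c : k, φ (algebraMap k k' c) = algebraMap F (AlgebraicClosure F) (algebraMap k F c) := by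
    intro c
    rw [φ.commutes]
    rfl
  have hint : ∀ c : k', IsIntegral F (φ c) := fun c => Algebra.IsIntegral.isIntegral _
  have hsep : ∀ c : k', IsSeparable F (φ c) := by
    intro c
    have h1 : IsSeparable k c := Algebra.IsSeparable.isSeparable k c
    have h2 : IsSeparable k (φ c) := IsSeparable.map φ (φ : k' →+* AlgebraicClosure F).injective h1
    exact h2.tower_top F
  -- elements algebraic over the constants
  have hmem : ∀ y : AlgebraicClosure F, IsIntegral k y → y ∈ Set.range φ := by
    intro y hy
    have : IsScalarTower k k' (AlgebraicClosure F) :=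
      IsScalarTower.of_algebraMap_eq fun c => (φ.commutes c).symm
    have h1 : IsIntegral k' y := hy.tower_top
    have h2 := minpoly.mem_range_of_degree_eq_one k' y
      (IsAlgClosed.degree_eq_one_of_irreducible k' (minpoly.irreducible h1))
    obtain ⟨c, hc⟩ := h2
    exact ⟨c, hc⟩
  refine ⟨K, inferInstance, inferInstance, a', ⟨inferInstance, ?_, ?_⟩, ?_⟩
  · intro c
    apply Subtype.ext
    exact hcomm c
  · intro x
    have h1 : (x : AlgebraicClosure F) ∈ Algebra.adjoin F (Set.range φ) := by
      rw [← IntermediateField.adjoin_toSubalgebra_of_isAlgebraic (fun y hy => by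
        obtain ⟨c, rfl⟩ := hy
        exact (hint c).isAlgebraic), ← hK]
      exact x.2
    have h2 : ∀ y : AlgebraicClosure F, y ∈ Algebra.adjoin F (Set.range φ) →
        ∃ z : K, (z : AlgebraicClosure F) = y ∧
          z ∈ Algebra.adjoin F (Set.range (algebraMap k' K)) := by
      intro y hy
      induction hy using Algebra.adjoin_induction with
      | mem y hy =>
        obtain ⟨c, rfl⟩ := hy
        exact ⟨algebraMap k' K c, rfl, Algebra.subset_adjoin ⟨c, rfl⟩⟩
      | algebraMap r => exact ⟨algebraMap F K r, rfl, Subalgebra.algebraMap_mem _ _⟩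
      | add a b _ _ ha hb =>
        obtain ⟨a', ha', ha2⟩ := ha
        obtain ⟨b', hb', hb2⟩ := hb
        exact ⟨a' + b', by push_cast; rw [ha', hb'], Subalgebra.add_mem _ ha2 hb2⟩
      | mul a b _ _ ha hb =>
        obtain ⟨a', ha', ha2⟩ := ha
        obtain ⟨b', hb', hb2⟩ := hb
        exact ⟨a' * b', by push_cast; rw [ha', hb'], Subalgebra.mul_mem _ ha2 hb2⟩
    obtain ⟨z, hz, hz2⟩ := h2 _ h1
    rwa [← Subtype.ext hz]
  · have hs : Algebra.IsSeparable F K := by
      rw [hK, IntermediateField.isSeparable_adjoin_iff_isSeparable]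
      rintro _ ⟨c, rfl⟩
      exact hsep c
    have hn : Normal F K := by
      rw [IntermediateField.normal_iff_forall_map_le (L := AlgebraicClosure F)]
      intro σ
      rw [hK, IntermediateField.adjoin_map, IntermediateField.adjoin_le_iff]
      rintro _ ⟨_, ⟨c, rfl⟩, rfl⟩
      apply IntermediateField.subset_adjoin F
      apply hmem
      have h1 : IsIntegral k c := Algebra.IsIntegral.isIntegral c
      have h2 : IsIntegral k (φ c) := h1.map φ
      exact h2.map (σ.restrictScalars k)
    exact ⟨⟩

end Pool.Agent.Lib.MP_b197b4_ntKD
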