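import Pool.Agent.Lib.MP_b197b4_ntK.Defs2

/-!
# MP_b197b4_nt (K_1 of surfaces): extension of the field of constants, definitions
-/

set_option autoImplicit false

namespace Pool.Agent.Lib.MP_b197b4_ntKD

open Pool.Agent.Lib.MP_b197b4_ntK

/-- `K` is the compositum of `F` and the separable algebraic extension `k'` of the field of
constants `k`. -/
structure BC (k k' F K : Type) [Field k] [Field k'] [Field F] [Field K] [Algebra k k']
    [Algebra k F] [Algebra k' K] [Algebra F K] : Prop where
  sep : Algebra.IsSeparable k k'
  comm : ∀ c : k, algebraMap k' K (algebraMap k k' c) = algebraMap F K (algebraMap k F c)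
  gen : ∀ x : K, x ∈ Algebra.adjoin F (Set.range (algebraMap k' K))

/-- The chart over the larger field of constants. -/
def bc {k : Type} (k' : Type) {F : Type} (K : Type) [Field k] [Field k'] [Field F] [Field K]
    [Algebra k F] [Algebra k' K] [Algebra F K] (A : Subalgebra k F) : Subalgebra k' K :=
  Algebra.adjoin k' (algebraMap F K '' (A : Set F))

end Pool.Agent.Lib.MP_b197b4_ntKD
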