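import Pool.Agent.Lib.MP_b197b4_ntKD.Ord

/-!
# MP_b197b4_nt (K_1 of surfaces): residue fields, orders and tame symbols under homomorphisms
-/

set_option autoImplicit false

namespace Pool.Agent.Lib.MP_b197b4_ntKD

open IsLocalRing Pool.Agent.Lib.MP_b197b4_ntK

variable {F K L : Type} [Field F] [Field K] [Field L]

/-- The homomorphism of the valuation rings. -/
def vm (φ : F →+* K) (V : ValuationSubring K) : V.comap φ →+* V :=
  (φ.comp (V.comap φ).subtype).codRestrict V fun x => x.2

theorem vm_coe (φ : F →+* K) (V : ValuationSubring K) (x : V.comap φ) :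
    (vm φ V x : K) = φ (x : F) := rfl

theorem comap_lt_one (φ : F →+* K) (V : ValuationSubring K) (x : F) :
    (V.comap φ).valuation x < 1 ↔ V.valuation (φ x) < 1 := by
  by_cases hx : x = 0
  · rw [hx, map_zero, map_zero, map_zero]
    simp
  · have h1 : ∀ (E : Type) [Field E] (W : ValuationSubring E) (y : E), y ≠ 0 →
        (W.valuation y < 1 ↔ y⁻¹ ∉ W) := by
      intro E _ W y hy
      rw [← W.valuation_le_one_iff, map_inv₀, not_le]
      refine (one_lt_inv₀ ?_).symm
      rw [zero_lt_iff, ne_eq, map_eq_zero]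
      exact hy
    rw [h1 F _ x hx, h1 K _ (φ x) ((map_ne_zero φ).mpr hx), ValuationSubring.mem_comap, map_inv₀]

theorem comap_eq_one (φ : F →+* K) (V : ValuationSubring K) (x : F) :
    (V.comap φ).valuation x = 1 ↔ V.valuation (φ x) = 1 := by
  have h1 : x ∈ V.comap φ ↔ φ x ∈ V := ValuationSubring.mem_comap
  rw [← ValuationSubring.valuation_le_one_iff, ← ValuationSubring.valuation_le_one_iff] at h1
  have h2 := comap_lt_one φ V x
  constructor
  · intro h
    refine le_antisymm (h1.mp h.le) (not_lt.mp fun h3 => ?_)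
    exact absurd h (h2.mpr h3).ne
  · intro h
    refine le_antisymm (h1.mpr h.le) (not_lt.mp fun h3 => ?_)
    exact absurd h (h2.mp h3).ne

instance vm_local (φ : F →+* K) (V : ValuationSubring K) : IsLocalHom (vm φ V) := by
  constructor
  intro x hx
  rw [ValuationSubring.valuation_eq_one_iff] at hx ⊢
  exact (comap_eq_one φ V _).mpr hx

/-- The homomorphism of the residue fields. -/
noncomputable def rmap (φ : F →+* K) (V : ValuationSubring K) :
    ResidueField (V.comap φ) →+* ResidueField V := ResidueField.map (vm φ V)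

theorem rmap_res (φ : F →+* K) (V : ValuationSubring K) (x : F) :
    rmap φ V (res (V.comap φ) x) = res V (φ x) := by
  unfold res
  by_cases hx : φ x ∈ V
  · have hx' : x ∈ V.comap φ := hx
    rw [dif_pos hx, dif_pos hx']
    exact ResidueField.map_residue (vm φ V) _
  · have hx' : ¬ x ∈ V.comap φ := hx
    rw [dif_neg hx, dif_neg hx', map_zero]

theorem rmap_comp (φ : F →+* K) (ψ : K →+* L) (V : ValuationSubring L)
    (a : ∀ V : ValuationSubring F, ResidueField V) :
    rmap ψ V (rmap φ (V.comap ψ) (a ((V.comap ψ).comap φ))) =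
      rmap (ψ.comp φ) V (a (V.comap (ψ.comp φ))) := by
  obtain ⟨x, hx⟩ := residue_surjective (a (V.comap (ψ.comp φ)))
  have h1 : a (V.comap (ψ.comp φ)) = res _ (x : F) := by
    rw [← hx, res_of_mem x.2]
  have h2 : a ((V.comap ψ).comap φ) = res _ (x : F) := h1
  rw [h1, h2, rmap_res, rmap_res, rmap_res]
  rfl

/-- A valuation ring which contains an element of order one of a larger discrete valuation ring. -/
theorem dvr_between (φ : F →+* K) (V : ValuationSubring K) (hV : IsDiscreteValuationRing V)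
    {π : F} (hπ : ord V (φ π) = 1) : IsDiscreteValuationRing (V.comap φ) ∧
      ∀ x : F, x ≠ 0 → ord V (φ x) = ord (V.comap φ) x := by
  have hπ0 : π ≠ 0 := by
    rintro rfl
    rw [map_zero] at hπ
    unfold ord at hπ
    split_ifs at hπ with h
    · exact hasOrd_ne h.choose_spec rfl
    · exact zero_ne_one hπ
  have hφ : ∀ {x : F}, x ≠ 0 → φ x ≠ 0 := fun hx => (map_ne_zero φ).mpr hx
  have hπV : π ∈ V.comap φ := by
    rw [ValuationSubring.mem_comap, mem_iff_ord (hφ hπ0), hπ]
    exact zero_le_one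
  have hunit : ∀ {x : F}, x ≠ 0 → V.valuation (φ (x / π ^ ord V (φ x))) = 1 := by
    intro x hx
    rw [← ord_eq_zero_iff (hφ (div_ne_zero hx (zpow_ne_zero _ hπ0))), map_div₀, map_zpow₀,
      ord_div (hφ hx) (zpow_ne_zero _ (hφ hπ0)), ord_zpow (hφ hπ0), hπ]
    ring
  have hunit' : ∀ {x : F}, x ≠ 0 → (V.comap φ).valuation (x / π ^ ord V (φ x)) = 1 := fun hx =>
    (comap_eq_one φ V _).mpr (hunit hx)
  have hirr : Irreducible (⟨π, hπV⟩ : V.comap φ) := by
    constructor
    · intro hu
      have h1 := (ValuationSubring.valuation_eq_one_iff _ _).mp hu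
      have h2 := (comap_eq_one φ V _).mp h1
      have h3 := (ord_eq_zero_iff (V := V) (hφ hπ0)).mpr h2
      omega
    · intro a b hab
      have hab' : π = (a : F) * (b : F) := congrArg (Subtype.val : V.comap φ → F) hab
      have ha0 : (a : F) ≠ 0 := by
        intro h0
        rw [h0, zero_mul] at hab'
        exact hπ0 hab'
      have hb0 : (b : F) ≠ 0 := by
        intro h0
        rw [h0, mul_zero] at hab'
        exact hπ0 hab'
      have h1 : ord V (φ a) + ord V (φ b) = 1 := by
        rw [← ord_mul (hφ ha0) (hφ hb0), ← map_mul, ← hab', hπ]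
      have h2 : 0 ≤ ord V (φ a) := (mem_iff_ord (hφ ha0)).mp a.2
      have h3 : 0 ≤ ord V (φ b) := (mem_iff_ord (hφ hb0)).mp b.2
      have h4 : ord V (φ a) = 0 ∨ ord V (φ b) = 0 := by omega
      rcases h4 with h4 | h4
      · left
        exact (ValuationSubring.valuation_eq_one_iff _ _).mpr
          ((comap_eq_one φ V _).mpr ((ord_eq_zero_iff (hφ ha0)).mp h4))
      · right
        exact (ValuationSubring.valuation_eq_one_iff _ _).mpr
          ((comap_eq_one φ V _).mpr ((ord_eq_zero_iff (hφ hb0)).mp h4))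
  have hdvr : IsDiscreteValuationRing (V.comap φ) := by
    apply IsDiscreteValuationRing.ofHasUnitMulPowIrreducibleFactorization
    refine ⟨⟨π, hπV⟩, hirr, ?_⟩
    intro x hx
    have hx0 : (x : F) ≠ 0 := fun h0 => hx (Subtype.ext h0)
    have h1 : 0 ≤ ord V (φ x) := (mem_iff_ord (hφ hx0)).mp x.2
    obtain ⟨n, hn⟩ := Int.eq_ofNat_of_zero_le h1
    have h2 := hunit' hx0
    rw [hn, zpow_natCast] at h2
    obtain ⟨u, hu⟩ := (ValuationSubring.valuation_eq_one_iff (V.comap φ)
      ⟨_, mem_of_val h2⟩).mpr h2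
    refine ⟨n, u, Subtype.ext ?_⟩
    push_cast
    rw [hu]
    change π ^ n * ((x : F) / π ^ n) = x
    field_simp
  refine ⟨hdvr, fun x hx => ?_⟩
  symm
  refine ord_of_val hirr ?_
  have h1 := hunit' hx
  rw [map_div₀, map_zpow₀] at h1
  exact eq_of_div_eq_one h1

/-- Tame symbols and homomorphisms which preserve orders. -/
theorem rmap_tame (φ : F →+* K) (V : ValuationSubring K)
    (h : ∀ x : F, x ≠ 0 → ord V (φ x) = ord (V.comap φ) x) {f g : F} (hf : f ≠ 0) (hg : g ≠ 0) :
    rmap φ V (tame (V.comap φ) f g) = tame V (φ f) (φ g) := by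
  unfold tame
  rw [rmap_res, ← h f hf, ← h g hg]
  congr 1
  rw [map_div₀, map_mul, map_zpow₀, map_zpow₀, map_zpow₀, map_neg, map_one]

end Pool.Agent.Lib.MP_b197b4_ntKD
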