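import Pool.Agent.Lib.MP_b197b4_ntKD.Up

/-!
# MP_b197b4_nt (K_1 of surfaces): cycles over a larger field of constants
-/

set_option autoImplicit false

namespace Pool.Agent.Lib.MP_b197b4_ntKD

open IsLocalRing Pool.Agent.Lib.MP_b197b4_ntK Pool.Agent.Lib.MP_b197b4_ntKR

variable {k k' F K : Type} [Field k] [Field k'] [Field F] [Field K] [Algebra k k'] [Algebra k F]
  [Algebra k' K] [Algebra F K]

theorem BC.adjoin (h : BC k k' F K) (S : Set F) :
    bc k' K (Algebra.adjoin k S) = Algebra.adjoin k' (algebraMap F K '' S) := by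
  apply le_antisymm
  · unfold bc
    rw [Algebra.adjoin_le_iff]
    rintro _ ⟨a, ha, rfl⟩
    induction ha using Algebra.adjoin_induction with
    | mem y hy => exact Algebra.subset_adjoin ⟨y, hy, rfl⟩
    | algebraMap c =>
      rw [← h.comm]
      exact Subalgebra.algebraMap_mem _ _
    | add a b _ _ ha hb =>
      rw [map_add]
      exact Subalgebra.add_mem _ ha hb
    | mul a b _ _ ha hb =>
      rw [map_mul]
      exact Subalgebra.mul_mem _ ha hb
  · rw [Algebra.adjoin_le_iff]
    rintro _ ⟨a, ha, rfl⟩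
    exact mem_bc (Algebra.subset_adjoin ha)

theorem BC.chart_eq (h : BC k k' F K) {n : ℕ} (x : Fin (n + 1) → F) (i : Fin (n + 1)) :
    Algebra.adjoin k' (Set.range fun j => algebraMap F K (x j) / algebraMap F K (x i)) =
      bc k' K (Algebra.adjoin k (Set.range fun j => x j / x i)) := by
  rw [h.adjoin]
  congr 1
  ext y
  constructor
  · rintro ⟨j, rfl⟩
    exact ⟨x j / x i, ⟨j, rfl⟩, map_div₀ _ _ _⟩
  · rintro ⟨_, ⟨j, rfl⟩, rfl⟩
    exact ⟨j, (map_div₀ _ _ _).symm⟩

theorem BC.mem_charts (h : BC k k' F K) {n : ℕ} (x : Fin (n + 1) → F) (B : Subalgebra k' K) :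
    B ∈ charts k' (fun i => algebraMap F K (x i)) ↔ ∃ A ∈ charts k x, B = bc k' K A := by
  constructor
  · rintro ⟨i, rfl⟩
    exact ⟨_, ⟨i, rfl⟩, h.chart_eq x i⟩
  · rintro ⟨_, ⟨i, rfl⟩, rfl⟩
    exact ⟨i, h.chart_eq x i⟩

theorem BC.surf (h : BC k k' F K) {n : ℕ} {x : Fin (n + 1) → F} (hx : Surf k x) :
    Surf k' (fun i => algebraMap F K (x i)) := by
  refine ⟨fun i => (map_ne_zero _).mpr (hx.ne i), fun i => ?_⟩
  rw [h.chart_eq]
  exact chart_bc h (hx.chart i)

variable {n : ℕ} {x : Fin (n + 1) → F}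

theorem Surf.chart' (hx : Surf k x) : ∀ A ∈ charts k x, Chart A := by
  rintro _ ⟨i, rfl⟩
  exact hx.chart i

theorem BC.curve_down' (h : BC k k' F K) (hx : Surf k x) {V' : ValuationSubring K}
    (hV' : V' ∈ Curves (charts k' fun i => algebraMap F K (x i))) :
    V'.comap (algebraMap F K) ∈ Curves (charts k x) := by
  obtain ⟨B, hB, hV⟩ := hV'
  obtain ⟨A, hA, rfl⟩ := (h.mem_charts x B).mp hB
  exact ⟨A, hA, h.curve_down (Surf.chart' hx A hA) hV⟩

theorem BC.curve_up' (h : BC k k' F K) (hx : Surf k x) {V' : ValuationSubring K}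
    (hV' : V'.comap (algebraMap F K) ∈ Curves (charts k x)) :
    V' ∈ Curves (charts k' fun i => algebraMap F K (x i)) := by
  obtain ⟨A, hA, hV⟩ := hV'
  exact ⟨bc k' K A, (h.mem_charts x _).mpr ⟨A, hA, rfl⟩, h.curve_up (Surf.chart' hx A hA) hV⟩

theorem BC.ord_curve (h : BC k k' F K) {V' : ValuationSubring K}
    (hV : V'.comap (algebraMap F K) ∈ Curves (charts k x)) {y : F} (hy : y ≠ 0) :
    ord V' (algebraMap F K y) = ord (V'.comap (algebraMap F K)) y :=
  (h.dvr V' (fun c => ValuationSubring.mem_comap.mp (over_of_curves hV c))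
    (disc_of_curves hV)).2 y hy

theorem BC.cyc (h : BC k k' F K) (hx : Surf k x) {a : ∀ V : ValuationSubring F, ResidueField V}
    (ha : Cyc (charts k x) a) : Cyc (charts k' fun i => algebraMap F K (x i))
      (fun V' => rmap (algebraMap F K) V' (a (V'.comap (algebraMap F K)))) := by
  have hx' := h.surf hx
  refine ⟨?_, ?_, ?_⟩
  · intro V' hV'
    exact (map_ne_zero _).mpr (ha.ne _ (h.curve_down' hx hV'))
  · have h1 : {V' | V' ∈ Curves (charts k' fun i => algebraMap F K (x i)) ∧
        rmap (algebraMap F K) V' (a (V'.comap (algebraMap F K))) ≠ 1} ⊆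
        ⋃ V ∈ {V | V ∈ Curves (charts k x) ∧ a V ≠ 1},
          {V' | V' ∈ Curves (charts k' fun i => algebraMap F K (x i)) ∧
            V'.comap (algebraMap F K) = V} := by
      rintro V' ⟨hV', hne⟩
      refine Set.mem_biUnion (x := V'.comap (algebraMap F K)) ⟨h.curve_down' hx hV', ?_⟩ ⟨hV', rfl⟩
      intro h2
      rw [h2, map_one] at hne
      exact hne rfl
    refine (ha.finite.biUnion ?_).subset h1
    rintro V ⟨hV, -⟩
    have := disc_of_curves hV
    obtain ⟨π, hπ⟩ := IsDiscreteValuationRing.exists_irreducible V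
    refine (curves_finite' (charts_finite _) (Surf.chart' hx') (algebraMap F K (π : F))
      ((map_ne_zero _).mpr (coe_ne hπ))).subset ?_
    rintro V' ⟨hV', rfl⟩
    refine ⟨hV', ?_⟩
    rw [h.ord_curve hV (coe_ne hπ), ord_irr hπ]
    exact one_ne_zero
  · intro O' hO'
    have hpt := hO'
    obtain ⟨B, hB, m', hm', hloc⟩ := hO'
    obtain ⟨A, hA, rfl⟩ := (h.mem_charts x B).mp hB
    have hAc := Surf.chart' hx A hA
    obtain ⟨hm, hO⟩ := h.point_down hAc hm' hloc
    have hO2 := hO.loc2 hAc hm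
    have hO2' := hloc.loc2 (chart_bc h hAc) hm'
    have hOp : O'.comap (algebraMap F K) ∈ Points (charts k x) := ⟨A, hA, _, hm, hO⟩
    have e1 : ∑ᶠ (V') (_ : V' ∈ Curves (charts k' fun i => algebraMap F K (x i)) ∧
        (O' : Set K) ⊆ V'), len (curveLoc O' V')
          (rmap (algebraMap F K) V' (a (V'.comap (algebraMap F K)))) =
        ∑ᶠ (V') (_ : V' ∈ CurvesAt O'), lenAt O' V'
          (rmap (algebraMap F K) V' (a (V'.comap (algebraMap F K)))) := by
      refine finsum_congr fun V' => ?_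
      refine finsum_congr_Prop (propext (curves_point hx'.sep hpt V')) fun hV' => ?_
      exact len_curveLoc hO2' hV' ((map_ne_zero _).mpr (ha.ne _ (h.curve_down' hx
        ((curves_point hx'.sep hpt V').mpr hV').1)))
    rw [e1]
    have e2 : ∑ᶠ (V) (_ : V ∈ CurvesAt (O'.comap (algebraMap F K))),
        lenAt (O'.comap (algebraMap F K)) V (a V) = 0 := by
      rw [← ha.div _ hOp]
      refine finsum_congr fun V => ?_
      refine finsum_congr_Prop (propext (curves_point hx.sep hOp V).symm) fun hV => ?_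
      exact (len_curveLoc hO2 ((curves_point hx.sep hOp V).mp hV) (ha.ne _ hV.1)).symm
    -- the curves with nontrivial functions
    obtain ⟨I, hI⟩ : ∃ I : Set (ValuationSubring F), I =
      {V | V ∈ CurvesAt (O'.comap (algebraMap F K)) ∧ a V ≠ 1} := ⟨_, rfl⟩
    have hIf : I.Finite := by
      refine ha.finite.subset ?_
      rw [hI]
      rintro V ⟨hV, hne⟩
      exact ⟨((curves_point hx.sep hOp V).mpr hV).1, hne⟩
    have e3 : ∑ᶠ (V') (_ : V' ∈ CurvesAt O'), lenAt O' V'
          (rmap (algebraMap F K) V' (a (V'.comap (algebraMap F K)))) =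
        ∑ᶠ (V') (_ : V' ∈ ⋃ V ∈ I, {V' | V' ∈ CurvesAt O' ∧ V'.comap (algebraMap F K) = V}),
          lenAt O' V' (rmap (algebraMap F K) V' (a (V'.comap (algebraMap F K)))) := by
      apply finsum_mem_inter_support_eq'
      intro V' hV'
      constructor
      · intro h1
        refine Set.mem_biUnion (x := V'.comap (algebraMap F K)) ?_ ⟨h1, rfl⟩
        rw [hI]
        refine ⟨h.curveAt_down hAc hm' hloc h1, fun h2 => hV' ?_⟩
        change lenAt O' V' (rmap (algebraMap F K) V' (a (V'.comap (algebraMap F K)))) = 0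
        rw [h2, map_one, lenAt_one hO2' h1]
      · intro h1
        obtain ⟨V, -, h2⟩ := Set.mem_iUnion₂.mp h1
        exact h2.1
    rw [e3, finsum_mem_biUnion _ hIf]
    · rw [← e2]
      have e4 : ∀ V ∈ I, ∑ᶠ (V') (_ : V' ∈ {V' | V' ∈ CurvesAt O' ∧
          V'.comap (algebraMap F K) = V}),
          lenAt O' V' (rmap (algebraMap F K) V' (a (V'.comap (algebraMap F K)))) =
          lenAt (O'.comap (algebraMap F K)) V (a V) := by
        intro V hV
        rw [hI] at hV
        exact h.lenAt_up hAc hm' hloc hV.1 a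
          (ha.ne _ ((curves_point hx.sep hOp V).mpr hV.1).1)
      rw [finsum_mem_congr rfl e4]
      apply finsum_mem_inter_support_eq'
      intro V hV
      rw [hI]
      constructor
      · exact fun h1 => h1.1
      · intro h1
        refine ⟨h1, fun h2 => hV ?_⟩
        change lenAt (O'.comap (algebraMap F K)) V (a V) = 0
        rw [h2, lenAt_one hO2 h1]
    · intro V hV
      rw [hI] at hV
      exact h.finite_over hAc hm' hloc hV.1
    · intro V _ W _ hVW
      change Disjoint {V' | V' ∈ CurvesAt O' ∧ V'.comap (algebraMap F K) = V}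
        {V' | V' ∈ CurvesAt O' ∧ V'.comap (algebraMap F K) = W}
      rw [Set.disjoint_left]
      rintro V' ⟨-, h1⟩ ⟨-, h2⟩
      exact hVW (h1.symm.trans h2)

end Pool.Agent.Lib.MP_b197b4_ntKD
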