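import Pool.Agent.Lib.MP_b197b4_ntKD.Val
import Pool.Agent.Lib.MP_b197b4_ntKD.Rm
import Pool.Agent.Lib.MP_b197b4_ntK.Gersten

/-!
# MP_b197b4_nt (K_1 of surfaces): Galois descent of a representation by tame symbols
-/

set_option autoImplicit false

namespace Pool.Agent.Lib.MP_b197b4_ntKD

open IsLocalRing Pool.Agent.Lib.MP_b197b4_ntK

section Tame

variable {K : Type} [Field K] {V : ValuationSubring K}

theorem tame_eq_one_of_ord {f g : K} (hf : ord V f = 0) (hg : ord V g = 0) : tame V f g = 1 := by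
  unfold tame
  rw [hf, hg]
  simp only [mul_zero, zpow_zero, mul_one, div_one]
  exact res_one

theorem tame_pow_left [IsDiscreteValuationRing V] {f g : K} (hf : f ≠ 0) (hg : g ≠ 0) (n : ℤ) :
    tame V (f ^ n) g = tame V f g ^ n := by
  have hV : IsDiscreteValuationRing V := inferInstance
  have h1 : tame V 1 g = 1 := by
    have h2 := tameG_mul_left hV (one_ne_zero (α := K)) (one_ne_zero (α := K)) hg
    rw [mul_one] at h2
    have h3 : tame V 1 g ≠ 0 := tame_ne one_ne_zero hg
    exact (mul_eq_left₀ h3).mp h2.symm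
  have hnat : ∀ m : ℕ, tame V (f ^ m) g = tame V f g ^ m := by
    intro m
    induction m with
    | zero => rw [pow_zero, pow_zero, h1]
    | succ m ih => rw [pow_succ, pow_succ, tameG_mul_left hV (pow_ne_zero _ hf) hf hg, ih]
  cases n with
  | ofNat m => simpa using hnat m
  | negSucc m =>
    rw [zpow_negSucc, zpow_negSucc]
    have h2 := tameG_mul_left hV (pow_ne_zero (m + 1) hf) (inv_ne_zero (pow_ne_zero (m + 1) hf)) hg
    rw [mul_inv_cancel₀ (pow_ne_zero _ hf), h1, hnat] at h2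
    exact (inv_eq_of_mul_eq_one_right h2.symm).symm

end Tame

variable {F E : Type} [Field F] [Field E] [Algebra F E]

theorem ext_comap (V : ValuationSubring F) :
    ∃ W : ValuationSubring E, W.comap (algebraMap F E) = V := by
  obtain ⟨W, hW⟩ := exists_ext (E := E) V
  exact ⟨W, by ext x; exact hW x⟩

/-- Descent of a list of symbols. -/
theorem desc_list [FiniteDimensional F E] [IsGalois F E] (s : List (E × E))
    (hs : ∀ q ∈ s, q.1 ≠ 0 ∧ q.2 ≠ 0) :
    ∃ l : List (F × F × ℤ), (∀ p ∈ l, p.1 ≠ 0 ∧ p.2.1 ≠ 0) ∧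
      ∀ W : ValuationSubring E, IsDiscreteValuationRing W → ∃ M : ℕ, 0 < M ∧
        (s.map fun q => ∏ σ : E ≃ₐ[F] E, tame W (σ q.1) (σ q.2)).prod ^ M =
          ((l.map fun p => tame W (algebraMap F E p.1) (algebraMap F E p.2.1) ^ p.2.2).prod) ^ M := by
  induction s with
  | nil => exact ⟨[], by simp, fun W _ => ⟨1, one_pos, by simp⟩⟩
  | cons q s ih =>
    obtain ⟨l, hl, h⟩ := ih fun p hp => hs p (List.mem_cons_of_mem _ hp)
    obtain ⟨l', hl', h'⟩ := desc_gal (F := F) (hs q List.mem_cons_self).1 (hs q List.mem_cons_self).2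
    refine ⟨l' ++ l, ?_, fun W hW => ?_⟩
    · intro p hp
      rcases List.mem_append.mp hp with hp | hp
      · exact hl' p hp
      · exact hl p hp
    · obtain ⟨M, hM, h1⟩ := h W hW
      obtain ⟨M', hM', h2⟩ := h' W hW
      refine ⟨M * M', Nat.mul_pos hM hM', ?_⟩
      rw [List.map_cons, List.prod_cons, List.map_append, List.prod_append, mul_pow, mul_pow,
        mul_comm M M', pow_mul, h2, mul_comm M' M, pow_mul _ M M', h1, ← pow_mul, ← pow_mul,
        mul_comm M' M]

theorem prod_list_comm {ι α M : Type*} [Fintype ι] [CommMonoid M] (s : List α) (f : ι → α → M) :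
    ∏ i, (s.map fun q => f i q).prod = (s.map fun q => ∏ i, f i q).prod := by
  induction s with
  | nil => simp
  | cons q s ih => simp only [List.map_cons, List.prod_cons, Finset.prod_mul_distrib, ih]

theorem prod_list_pow {α M : Type*} [CommMonoid M] (s : List α) (f : α → M) (n : ℕ) :
    (s.map fun q => f q ^ n).prod = (s.map f).prod ^ n := by
  induction s with
  | nil => simp
  | cons q s ih => rw [List.map_cons, List.prod_cons, List.map_cons, List.prod_cons, ih, mul_pow]

/-- **Galois descent.** -/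
theorem desc_core [FiniteDimensional F E] [IsGalois F E] {D : Set (ValuationSubring F)}
    (hdisc : ∀ V ∈ D, IsDiscreteValuationRing V)
    (hfin : ∀ f : F, f ≠ 0 → {V | V ∈ D ∧ ord V f ≠ 0}.Finite)
    {a : ∀ V : ValuationSubring F, ResidueField V}
    (haf : {V | V ∈ D ∧ a V ≠ 1}.Finite) {N : ℕ} (hN : 0 < N) {s : List (E × E)}
    (hs : ∀ q ∈ s, q.1 ≠ 0 ∧ q.2 ≠ 0)
    (h : ∀ W : ValuationSubring E, W.comap (algebraMap F E) ∈ D → IsDiscreteValuationRing W ∧
      (∀ x : F, x ≠ 0 → ord W (algebraMap F E x) = ord (W.comap (algebraMap F E)) x) ∧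
      rmap (algebraMap F E) W (a (W.comap (algebraMap F E))) ^ N =
        (s.map fun q => tame W q.1 q.2).prod) :
    ∃ N : ℕ, 0 < N ∧ ∃ s : List (F × F), (∀ q ∈ s, q.1 ≠ 0 ∧ q.2 ≠ 0) ∧
      ∀ V ∈ D, a V ^ N = (s.map fun q => tame V q.1 q.2).prod := by
  classical
  obtain ⟨l, hl, hlW⟩ := desc_list (F := F) s hs
  obtain ⟨c, hc⟩ : ∃ c : ℕ, c = Fintype.card (E ≃ₐ[F] E) := ⟨_, rfl⟩
  have hc0 : 0 < c := hc ▸ Fintype.card_pos
  -- the identity at every curve
  have key : ∀ V ∈ D, ∃ M : ℕ, 0 < M ∧ a V ^ (N * c * M) =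
      ((l.map fun p => tame V p.1 p.2.1 ^ p.2.2).prod) ^ M := by
    intro V hV
    obtain ⟨W, hWV⟩ := ext_comap (E := E) V
    have hWD : W.comap (algebraMap F E) ∈ D := by rw [hWV]; exact hV
    obtain ⟨hWd, hWo, -⟩ := h W hWD
    obtain ⟨M, hM, hM1⟩ := hlW W hWd
    refine ⟨M, hM, ?_⟩
    subst hWV
    have := hdisc _ hWD
    obtain ⟨π, hπ⟩ := IsDiscreteValuationRing.exists_irreducible (W.comap (algebraMap F E))
    -- the conjugates
    have hσ : ∀ σ : E ≃ₐ[F] E, rmap (algebraMap F E) W (a (W.comap (algebraMap F E))) ^ N =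
        (s.map fun q => tame W (σ q.1) (σ q.2)).prod := by
      intro σ
      obtain ⟨φ, hφ⟩ : ∃ φ : E →+* E, ∀ y, φ y = σ y := ⟨(σ : E →+* E), fun _ => rfl⟩
      have hcomp : φ.comp (algebraMap F E) = algebraMap F E := by
        ext y
        rw [RingHom.comp_apply, hφ, AlgEquiv.commutes]
      have hcc : (W.comap φ).comap (algebraMap F E) = W.comap (algebraMap F E) := by
        have h0 : (W.comap φ).comap (algebraMap F E) = W.comap (φ.comp (algebraMap F E)) := rfl
        rw [h0, hcomp]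
      have h1 := h (W.comap φ) (by rw [hcc]; exact hWD)
      have h2 : ord W (φ (algebraMap F E (π : F))) = 1 := by
        rw [hφ, AlgEquiv.commutes, hWo _ (coe_ne hπ), ord_irr hπ]
      have h3 := (dvr_between φ W hWd h2).2
      have h4 := congrArg (rmap φ W) h1.2.2
      rw [map_pow, rmap_comp, hcomp, map_list_prod, List.map_map] at h4
      rw [h4]
      congr 1
      refine List.map_congr_left fun q hq => ?_
      rw [Function.comp_apply, rmap_tame φ W h3 (hs q hq).1 (hs q hq).2, hφ, hφ]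
    have hprod : rmap (algebraMap F E) W (a (W.comap (algebraMap F E))) ^ (N * c) =
        (s.map fun q => ∏ σ : E ≃ₐ[F] E, tame W (σ q.1) (σ q.2)).prod := by
      rw [pow_mul, hc, ← Finset.card_univ, ← Finset.prod_const]
      rw [Finset.prod_congr rfl fun σ _ => hσ σ]
      exact prod_list_comm s _
    apply (rmap (algebraMap F E) W).injective
    rw [map_pow, pow_mul, hprod, hM1, map_pow, map_list_prod, List.map_map]
    congr 2
    refine List.map_congr_left fun p hp => ?_
    rw [Function.comp_apply, map_zpow₀, rmap_tame _ W hWo (hl p hp).1 (hl p hp).2]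
  -- the exceptional curves
  obtain ⟨X, hX⟩ : ∃ X : Set (ValuationSubring F), X = {V | V ∈ D ∧ a V ≠ 1} ∪
      ⋃ p ∈ {p | p ∈ l}, ({V | V ∈ D ∧ ord V p.1 ≠ 0} ∪ {V | V ∈ D ∧ ord V p.2.1 ≠ 0}) := ⟨_, rfl⟩
  have hXf : X.Finite := by
    rw [hX]
    refine haf.union ((List.finite_toSet l).biUnion fun p hp => ?_)
    exact (hfin _ (hl p hp).1).union (hfin _ (hl p hp).2)
  choose! M hM0 hM using key
  obtain ⟨M0, hM0'⟩ : ∃ M0 : ℕ, M0 = ∏ V ∈ hXf.toFinset, M V := ⟨_, rfl⟩
  have hXD : ∀ V ∈ X, V ∈ D := by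
    rw [hX]
    rintro V (hV | hV)
    · exact hV.1
    · obtain ⟨p, -, hp⟩ := Set.mem_iUnion₂.mp hV
      rcases hp with hp | hp
      · exact hp.1
      · exact hp.1
  have hM0pos : 0 < M0 := by
    rw [hM0']
    exact Finset.prod_pos fun V hV => hM0 V (hXD V (hXf.mem_toFinset.mp hV))
  refine ⟨N * c * M0, Nat.mul_pos (Nat.mul_pos hN hc0) hM0pos,
    l.map fun p => (p.1 ^ (p.2.2 * (M0 : ℤ)), p.2.1), ?_, ?_⟩
  · intro q hq
    obtain ⟨p, hp, rfl⟩ := List.mem_map.mp hq
    exact ⟨zpow_ne_zero _ (hl p hp).1, (hl p hp).2⟩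
  · intro V hV
    have := hdisc V hV
    have h1 : ((l.map fun p => (p.1 ^ (p.2.2 * (M0 : ℤ)), p.2.1)).map
        fun q : F × F => tame V q.1 q.2).prod =
        ((l.map fun p => tame V p.1 p.2.1 ^ p.2.2).prod) ^ M0 := by
      rw [List.map_map, ← prod_list_pow]
      congr 1
      refine List.map_congr_left fun p hp => ?_
      rw [Function.comp_apply, tame_pow_left (hl p hp).1 (hl p hp).2, zpow_mul, zpow_natCast]
    rw [h1]
    by_cases hVX : V ∈ X
    · obtain ⟨e, he⟩ : M V ∣ M0 := by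
        rw [hM0']
        exact Finset.dvd_prod_of_mem _ (hXf.mem_toFinset.mpr hVX)
      rw [he, ← mul_assoc, pow_mul, hM V hV, ← pow_mul]
    · rw [hX] at hVX
      have h2 : a V = 1 := by
        by_contra h3
        exact hVX (Or.inl ⟨hV, h3⟩)
      have h3 : ∀ p ∈ l, tame V p.1 p.2.1 = 1 := by
        intro p hp
        apply tame_eq_one_of_ord
        · by_contra h4
          exact hVX (Or.inr (Set.mem_biUnion (x := p) hp (Or.inl ⟨hV, h4⟩)))
        · by_contra h4
          exact hVX (Or.inr (Set.mem_biUnion (x := p) hp (Or.inr ⟨hV, h4⟩)))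
      have h4 : (l.map fun p => tame V p.1 p.2.1 ^ p.2.2) = l.map fun _ => 1 :=
        List.map_congr_left fun p hp => by rw [h3 p hp, one_zpow]
      rw [h2, h4, one_pow]
      simp

end Pool.Agent.Lib.MP_b197b4_ntKD
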