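import Pool.Agent.Lib.MP_b197b4_ntKD.Cor3
import Pool.Agent.Lib.MP_b197b4_ntKR.Chart
import Pool.Agent.Lib.MP_b197b4_ntK.Curve

/-!
# MP_b197b4_nt (K_1 of surfaces): curves and closed points over a larger field of constants
-/

set_option autoImplicit false

namespace Pool.Agent.Lib.MP_b197b4_ntKD

open Polynomial IsLocalRing Pool.Agent.Lib.MP_b197b4_ntK Pool.Agent.Lib.MP_b197b4_ntKR

attribute [local instance] bcAlg

variable {k k' F K : Type} [Field k] [Field k'] [Field F] [Field K] [Algebra k k'] [Algebra k F]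
  [Algebra k' K] [Algebra F K]

theorem BC.cg (h : BC k k' F K) [Algebra k K] [IsScalarTower k k' K] [IsScalarTower k F K] :
    CG k F K := by
  intro x
  have := h.sep
  have hx : x ∈ Algebra.adjoin k' (Set.range (algebraMap F K)) := by
    have h1 := h.gen x
    induction h1 using Algebra.adjoin_induction with
    | mem y hy =>
      obtain ⟨c, rfl⟩ := hy
      exact Subalgebra.algebraMap_mem _ c
    | algebraMap r => exact Algebra.subset_adjoin ⟨r, rfl⟩
    | add a b _ _ ha hb => exact Subalgebra.add_mem _ ha hb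
    | mul a b _ _ ha hb => exact Subalgebra.mul_mem _ ha hb
  obtain ⟨θ, p, hp⟩ := exists_form (A := F) (S := K) k x hx
  refine ⟨algebraMap k' K θ, minpoly k θ, minpoly.monic (Algebra.IsIntegral.isIntegral θ),
    Algebra.IsSeparable.isSeparable k θ, ?_, ?_⟩
  · rw [aeval_algebraMap_apply, minpoly.aeval, map_zero]
  · rw [← hp]
    exact aeval_mem_adjoin_singleton F _

/-- Constants are in every valuation ring which contains the constants of `k`. -/
theorem BC.const_mem (h : BC k k' F K) (V' : ValuationSubring K)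
    (hk : ∀ c : k, algebraMap F K (algebraMap k F c) ∈ V') (c : k') : algebraMap k' K c ∈ V' := by
  have := h.sep
  let _ : Algebra k K := ((algebraMap k' K).comp (algebraMap k k')).toAlgebra
  have : IsScalarTower k k' K := IsScalarTower.of_algebraMap_eq fun _ => rfl
  have h1 : IsIntegral k c := Algebra.IsIntegral.isIntegral c
  exact mem_of_integral (k := k) V' (fun a => by
    change algebraMap k' K (algebraMap k k' a) ∈ V'
    rw [h.comm]
    exact hk a) h1.algebraMap

theorem BC.bc_mem (h : BC k k' F K) {A : Subalgebra k F} (V' : ValuationSubring K)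
    (hA : ∀ a ∈ A, algebraMap F K a ∈ V') : ∀ a ∈ bc k' K A, a ∈ V' := by
  intro a ha
  have hc := h.const_mem V' fun c => hA _ (A.algebraMap_mem c)
  unfold bc at ha
  induction ha using Algebra.adjoin_induction with
  | mem y hy =>
    obtain ⟨b, hb, rfl⟩ := hy
    exact hA b hb
  | algebraMap r => exact hc r
  | add a b _ _ ha hb => exact V'.add_mem _ _ ha hb
  | mul a b _ _ ha hb => exact V'.mul_mem _ _ ha hb

/-- **Orders do not change.** -/
theorem BC.dvr (h : BC k k' F K) (V' : ValuationSubring K)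
    (hk : ∀ c : k, algebraMap F K (algebraMap k F c) ∈ V')
    (hV : IsDiscreteValuationRing (V'.comap (algebraMap F K))) :
    IsDiscreteValuationRing V' ∧
      ∀ x : F, x ≠ 0 → ord V' (algebraMap F K x) = ord (V'.comap (algebraMap F K)) x := by
  let _ : Algebra k K := ((algebraMap k' K).comp (algebraMap k k')).toAlgebra
  have : IsScalarTower k k' K := IsScalarTower.of_algebraMap_eq fun _ => rfl
  have : IsScalarTower k F K := IsScalarTower.of_algebraMap_eq fun c => h.comm c
  exact core_dvr (k := k) h.cg V' _ (fun x => ValuationSubring.mem_comap)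
    (fun c => ValuationSubring.mem_comap.mpr (hk c)) hV

/-- A finite set of fractions has a common denominator. -/
theorem common_denom (A : Subalgebra k F) (V : ValuationSubring F) (hV : ∀ x ∈ V, x ∈ locAt A V)
    (p : (V : Type)[X]) : ∃ s ∈ A, V.valuation s = 1 ∧ ∀ i, s * (p.coeff i : F) ∈ A := by
  classical
  have : ∀ t : Finset ℕ, ∃ s ∈ A, V.valuation s = 1 ∧ ∀ i ∈ t, s * (p.coeff i : F) ∈ A := by
    intro t
    induction t using Finset.induction_on with
    | empty => exact ⟨1, A.one_mem, map_one _, by simp⟩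
    | insert i t _ ih =>
      obtain ⟨s, hs, hs1, hst⟩ := ih
      obtain ⟨a, r, ha, hr, hr1, har⟩ := hV _ (p.coeff i).2
      have hr0 : r ≠ 0 := by
        rintro rfl
        rw [map_zero] at hr1
        exact zero_ne_one hr1
      refine ⟨r * s, A.mul_mem hr hs, by rw [map_mul, hr1, hs1, one_mul], fun j hj => ?_⟩
      rcases Finset.mem_insert.mp hj with rfl | hj
      · rw [har]
        have : r * s * (a / r) = s * a := by field_simp
        rw [this]
        exact A.mul_mem hs ha
      · rw [mul_assoc]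
        exact A.mul_mem hr (hst j hj)
  obtain ⟨s, hs, hs1, hst⟩ := this p.support
  refine ⟨s, hs, hs1, fun i => ?_⟩
  by_cases hi : i ∈ p.support
  · exact hst i hi
  · rw [notMem_support_iff.mp hi]
    simp

theorem integral_mem (h : BC k k' F K) {A : Subalgebra k F} (hA : Chart A) {θ : K}
    {g : k[X]} (hg : g.Monic) (hθ : eval₂ ((algebraMap F K).comp (algebraMap k F)) θ g = 0) :
    θ ∈ bc k' K A := by
  have hch := chart_bc h hA
  have hic := isIntegrallyClosed_chart hch
  have hfr := hch.frac
  have h1 : IsIntegral (bc k' K A) θ := by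
    refine ⟨g.map ((bcMap k' K A).comp (algebraMap k A)), hg.map _, ?_⟩
    rw [eval₂_map, ← hθ]
    congr 1
  obtain ⟨y, hy⟩ := IsIntegrallyClosed.isIntegral_iff.mp h1
  rw [← hy]
  exact y.2

/-- A valuation ring above a curve is a curve over the larger field of constants. -/
theorem BC.curve_up (h : BC k k' F K) {A : Subalgebra k F} (hA : Chart A) {V' : ValuationSubring K}
    (hV : IsCurve A (V'.comap (algebraMap F K))) : IsCurve (bc k' K A) V' := by
  have hmem : ∀ a ∈ A, algebraMap F K a ∈ V' := fun a ha => ValuationSubring.mem_comap.mp (hV.2.1 a ha)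
  refine ⟨(h.dvr V' (fun c => hmem _ (A.algebraMap_mem c)) hV.1).1, h.bc_mem V' hmem, ?_⟩
  intro x hx
  let _ : Algebra k K := ((algebraMap k' K).comp (algebraMap k k')).toAlgebra
  have : IsScalarTower k k' K := IsScalarTower.of_algebraMap_eq fun _ => rfl
  have : IsScalarTower k F K := IsScalarTower.of_algebraMap_eq fun c => h.comm c
  obtain ⟨θ, g, Y, Z, hg, -, hg0, hY, hZ⟩ := core_frac (k := k) h.cg V'
    (V'.comap (algebraMap F K)) (fun x => ValuationSubring.mem_comap)
    (fun c => ValuationSubring.mem_comap.mpr (hmem _ (A.algebraMap_mem c))) hx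
  have hθ : θ ∈ bc k' K A := by
    refine integral_mem h hA hg ?_
    rw [← hg0, aeval_def]
    congr 1
    exact RingHom.ext fun c => (h.comm c).symm
  have hpoly : ∀ (s : F) (P : (V'.comap (algebraMap F K) : Type)[X]),
      (∀ i, s * (P.coeff i : F) ∈ A) → algebraMap F K s * aeval θ P ∈ bc k' K A := by
    intro s P hP
    rw [aeval_eq_sum_range, Finset.mul_sum]
    refine (bc k' K A).sum_mem fun i _ => ?_
    rw [Algebra.smul_def, ← mul_assoc]
    refine (bc k' K A).mul_mem ?_ ((bc k' K A).pow_mem hθ _)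
    have : algebraMap F K s * algebraMap (V'.comap (algebraMap F K)) K (P.coeff i) =
        algebraMap F K (s * (P.coeff i : F)) := by
      rw [map_mul]
      rfl
    rw [this]
    exact mem_bc (hP i)
  obtain ⟨s, hs, hs1, hsY⟩ := common_denom A _ hV.2.2 Y
  obtain ⟨t, ht, ht1, htZ⟩ := common_denom A _ hV.2.2 Z
  have hs1' : V'.valuation (algebraMap F K s) = 1 :=
    (val_comp V' _ (fun x => ValuationSubring.mem_comap) (ne_zero_of_val_one hs1)).mp hs1
  have ht1' : V'.valuation (algebraMap F K t) = 1 :=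
    (val_comp V' _ (fun x => ValuationSubring.mem_comap) (ne_zero_of_val_one ht1)).mp ht1
  have hY0 : aeval θ Y ≠ 0 := ne_zero_of_val_one hY
  have hs0 : algebraMap F K s ≠ 0 := ne_zero_of_val_one hs1'
  have ht0 : algebraMap F K t ≠ 0 := ne_zero_of_val_one ht1'
  refine ⟨algebraMap F K s * (algebraMap F K t * aeval θ Z),
    algebraMap F K t * (algebraMap F K s * aeval θ Y), ?_, ?_, ?_, ?_⟩
  · exact (bc k' K A).mul_mem (mem_bc hs) (hpoly t Z htZ)
  · exact (bc k' K A).mul_mem (mem_bc ht) (hpoly s Y hsY)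
  · rw [map_mul, map_mul, ht1', hs1', hY, one_mul, one_mul]
  · rw [← hZ]
    field_simp

/-- A curve over the larger field of constants lies above a curve. -/
theorem BC.curve_down (h : BC k k' F K) {A : Subalgebra k F} (hA : Chart A)
    {V' : ValuationSubring K} (hV' : IsCurve (bc k' K A) V') :
    IsCurve A (V'.comap (algebraMap F K)) := by
  obtain ⟨P', hP', hPV⟩ := exists_primeOf hV'.2.1
  have hht := hV'.height hPV
  obtain ⟨P, hP⟩ : ∃ P, P = P'.comap (bcMap k' K A) := ⟨_, rfl⟩
  have hPp : P.IsPrime := hP ▸ Ideal.comap_isPrime _ _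
  have hPh : P.height = 1 := by
    rw [hP, ← height_bc h hA P' hP', hht]
  obtain ⟨V1, hV1, hPV1⟩ := exists_curve hA P hPh
  have hle : V1 ≤ V'.comap (algebraMap F K) := by
    intro x hx
    obtain ⟨a, s, ha, hs, hs1, rfl⟩ := hV1.2.2 x hx
    rw [ValuationSubring.mem_comap, map_div₀]
    have h1 : (⟨s, hs⟩ : A) ∉ P := (hPV1.val_one hV1.2.1 ⟨s, hs⟩).mpr hs1
    have h2 : bcMap k' K A ⟨s, hs⟩ ∉ P' := by
      rw [hP] at h1
      exact h1
    have h3 : V'.valuation (algebraMap F K s) = 1 :=
      (hPV.val_one hV'.2.1 (bcMap k' K A ⟨s, hs⟩)).mp h2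
    rw [← V'.valuation_le_one_iff, map_div₀, h3, div_one, V'.valuation_le_one_iff]
    exact hV'.2.1 _ (mem_bc ha)
  have htop : V'.comap (algebraMap F K) ≠ ⊤ := by
    intro h0
    have h1 : P ≠ ⊥ := hV1.ne_bot hPV1
    obtain ⟨a, haP, ha0⟩ := Submodule.exists_mem_ne_zero_of_ne_bot h1
    have h2 : bcMap k' K A a ∈ P' := by
      rw [hP] at haP
      exact haP
    have h3 : V'.valuation (algebraMap F K (a : F)) < 1 := (hPV _).mp h2
    have ha0' : (a : F) ≠ 0 := fun h4 => ha0 (Subtype.ext h4)
    have h4 : (a : F)⁻¹ ∈ V'.comap (algebraMap F K) := by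
      rw [h0]
      exact ValuationSubring.mem_top _
    rw [ValuationSubring.mem_comap, ← V'.valuation_le_one_iff, map_inv₀, map_inv₀] at h4
    have h5 : 0 < V'.valuation (algebraMap F K (a : F)) := by
      rw [zero_lt_iff, ne_eq, map_eq_zero, map_eq_zero]
      exact ha0'
    exact absurd ((inv_le_one₀ h5).mp h4) (not_le.mpr h3)
  have := hV1.1
  have hdim : Ring.KrullDimLE 1 V1 := inferInstance
  have heq : V1 = V'.comap (algebraMap F K) := V1.eq_of_le_of_ne_top hle htop
  exact heq ▸ hV1

end Pool.Agent.Lib.MP_b197b4_ntKD
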