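import Pool.Agent.Lib.MP_b197b4_ntK.Defs

/-!
# MP_b197b4_nt (K_1 of surfaces): rules for the order and the residue class at a discrete valuation ring
-/

set_option autoImplicit false

namespace Pool.Agent.Lib.MP_b197b4_ntKD

open IsLocalRing Pool.Agent.Lib.MP_b197b4_ntK

variable {K : Type} [Field K] {V : ValuationSubring K}

theorem coe_ne {π : V} (h : Irreducible π) : (π : K) ≠ 0 := by
  intro h0
  exact h.ne_zero (Subtype.ext h0)

theorem val_irr {π : V} (h : Irreducible π) : V.valuation (π : K) < 1 := by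
  rw [← V.valuation_lt_one_iff, mem_maximalIdeal, mem_nonunits_iff]
  exact h.not_isUnit

theorem val_unit (u : Vˣ) : V.valuation ((u : V) : K) = 1 := V.valuation_unit u

theorem hasOrd_val {x : K} {n : ℤ} (h : HasOrd V x n) :
    ∃ π : V, Irreducible π ∧ V.valuation x = V.valuation (π : K) ^ n := by
  obtain ⟨π, u, h1, rfl⟩ := h
  exact ⟨π, h1, by rw [map_mul, map_zpow₀, val_unit, mul_one]⟩

theorem hasOrd_ne {x : K} {n : ℤ} (h : HasOrd V x n) : x ≠ 0 := by
  obtain ⟨π, u, h1, rfl⟩ := h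
  refine mul_ne_zero (zpow_ne_zero _ (coe_ne h1)) ?_
  intro h0
  exact u.ne_zero (Subtype.ext h0)

theorem irr_val_eq [IsDiscreteValuationRing V] {π π' : V} (h : Irreducible π) (h' : Irreducible π') :
    V.valuation (π : K) = V.valuation (π' : K) := by
  obtain ⟨u, hu⟩ := IsDiscreteValuationRing.associated_of_irreducible V h h'
  rw [← hu]
  change _ = V.valuation (((π : V) : K) * ((u : V) : K))
  rw [map_mul, val_unit, mul_one]

theorem hasOrd_uniq [IsDiscreteValuationRing V] {x : K} {n m : ℤ} (h : HasOrd V x n)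
    (h' : HasOrd V x m) : n = m := by
  obtain ⟨π, h1, h2⟩ := hasOrd_val h
  obtain ⟨π', h1', h2'⟩ := hasOrd_val h'
  rw [h2, irr_val_eq h1 h1'] at h2'
  have a1 : V.valuation (π' : K) < 1 := val_irr h1'
  have a0 : V.valuation (π' : K) ≠ 0 := by
    rw [ne_eq, map_eq_zero]
    exact coe_ne h1'
  have a2 : 0 < V.valuation (π' : K) := zero_lt_iff.mpr a0
  exact (zpow_right_strictAnti₀ a2 a1).injective h2'

theorem exists_hasOrd [IsDiscreteValuationRing V] {x : K} (hx : x ≠ 0) : ∃ n, HasOrd V x n := by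
  obtain ⟨π, hπ⟩ := IsDiscreteValuationRing.exists_irreducible V
  have main : ∀ y : K, y ≠ 0 → y ∈ V → ∃ (n : ℕ) (u : Vˣ), y = (π : K) ^ n * ((u : V) : K) := by
    intro y hy hyV
    have h1 : (⟨y, hyV⟩ : V) ≠ 0 := fun h => hy (congrArg Subtype.val h)
    obtain ⟨n, u, hu⟩ := IsDiscreteValuationRing.eq_unit_mul_pow_irreducible h1 hπ
    refine ⟨n, u, ?_⟩
    have h2 := congrArg Subtype.val hu
    change y = ((u : V) : K) * (π : K) ^ n at h2
    rw [h2, mul_comm]
  rcases V.mem_or_inv_mem x with h | h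
  · obtain ⟨n, u, hu⟩ := main x hx h
    exact ⟨n, π, u, hπ, by rw [hu, zpow_natCast]⟩
  · obtain ⟨n, u, hu⟩ := main x⁻¹ (inv_ne_zero hx) h
    refine ⟨-n, π, u⁻¹, hπ, ?_⟩
    have h3 : (((u⁻¹ : Vˣ) : V) : K) = (((u : Vˣ) : V) : K)⁻¹ := by
      have h4 : (((u⁻¹ : Vˣ) : V) : K) * (((u : Vˣ) : V) : K) = 1 := by
        have := congrArg Subtype.val (u.inv_mul)
        exact this
      exact eq_inv_of_mul_eq_one_left h4
    rw [h3, zpow_neg, zpow_natCast, ← mul_inv, ← hu, inv_inv]

theorem hasOrd_ord [IsDiscreteValuationRing V] {x : K} (hx : x ≠ 0) : HasOrd V x (ord V x) := by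
  have h := exists_hasOrd (V := V) hx
  unfold ord
  rw [dif_pos h]
  exact h.choose_spec

theorem ord_eq [IsDiscreteValuationRing V] {x : K} {n : ℤ} (h : HasOrd V x n) : ord V x = n :=
  hasOrd_uniq (hasOrd_ord (hasOrd_ne h)) h

theorem val_ord [IsDiscreteValuationRing V] {π : V} (hπ : Irreducible π) {x : K} (hx : x ≠ 0) :
    V.valuation x = V.valuation (π : K) ^ ord V x := by
  obtain ⟨π', h1, h2⟩ := hasOrd_val (hasOrd_ord (V := V) hx)
  rw [h2, irr_val_eq h1 hπ]

theorem val_pos {π : V} (hπ : Irreducible π) : 0 < V.valuation (π : K) := by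
  refine zero_lt_iff.mpr ?_
  rw [ne_eq, map_eq_zero]
  exact coe_ne hπ

theorem ord_of_val [IsDiscreteValuationRing V] {π : V} (hπ : Irreducible π) {x : K} {n : ℤ}
    (h : V.valuation x = V.valuation (π : K) ^ n) : ord V x = n := by
  have hx : x ≠ 0 := by
    rintro rfl
    rw [map_zero] at h
    exact (zpow_ne_zero _ (val_pos hπ).ne') h.symm
  rw [val_ord hπ hx] at h
  exact (zpow_right_strictAnti₀ (val_pos hπ) (val_irr hπ)).injective h

theorem ord_mul [IsDiscreteValuationRing V] {x y : K} (hx : x ≠ 0) (hy : y ≠ 0) :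
    ord V (x * y) = ord V x + ord V y := by
  obtain ⟨π, hπ⟩ := IsDiscreteValuationRing.exists_irreducible V
  refine ord_of_val hπ ?_
  rw [map_mul, val_ord hπ hx, val_ord hπ hy, zpow_add₀ (val_pos hπ).ne']

theorem ord_eq_zero_iff [IsDiscreteValuationRing V] {x : K} (hx : x ≠ 0) :
    ord V x = 0 ↔ V.valuation x = 1 := by
  obtain ⟨π, hπ⟩ := IsDiscreteValuationRing.exists_irreducible V
  constructor
  · intro h
    rw [val_ord hπ hx, h, zpow_zero]
  · intro h
    exact ord_of_val hπ (by rw [h, zpow_zero])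

theorem ord_one [IsDiscreteValuationRing V] : ord V (1 : K) = 0 :=
  (ord_eq_zero_iff one_ne_zero).mpr (map_one _)

theorem ord_inv [IsDiscreteValuationRing V] {x : K} (hx : x ≠ 0) : ord V x⁻¹ = - ord V x := by
  have h := ord_mul (V := V) hx (inv_ne_zero hx)
  rw [mul_inv_cancel₀ hx, ord_one] at h
  omega

theorem ord_neg [IsDiscreteValuationRing V] {x : K} (hx : x ≠ 0) : ord V (-x) = ord V x := by
  obtain ⟨π, hπ⟩ := IsDiscreteValuationRing.exists_irreducible V
  refine ord_of_val hπ ?_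
  rw [Valuation.map_neg, val_ord hπ hx]

theorem ord_zpow [IsDiscreteValuationRing V] {x : K} (hx : x ≠ 0) (n : ℤ) :
    ord V (x ^ n) = n * ord V x := by
  obtain ⟨π, hπ⟩ := IsDiscreteValuationRing.exists_irreducible V
  refine ord_of_val hπ ?_
  rw [map_zpow₀, val_ord hπ hx, ← zpow_mul, mul_comm]

theorem ord_div [IsDiscreteValuationRing V] {x y : K} (hx : x ≠ 0) (hy : y ≠ 0) :
    ord V (x / y) = ord V x - ord V y := by
  rw [div_eq_mul_inv, ord_mul hx (inv_ne_zero hy), ord_inv hy]
  ring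

theorem ord_irr [IsDiscreteValuationRing V] {π : V} (hπ : Irreducible π) : ord V (π : K) = 1 :=
  ord_of_val hπ (zpow_one _).symm

theorem mem_iff_ord [IsDiscreteValuationRing V] {x : K} (hx : x ≠ 0) : x ∈ V ↔ 0 ≤ ord V x := by
  obtain ⟨π, hπ⟩ := IsDiscreteValuationRing.exists_irreducible V
  rw [← V.valuation_le_one_iff, val_ord hπ hx]
  constructor
  · intro h
    by_contra h1
    have h2 := (zpow_right_strictAnti₀ (val_pos hπ) (val_irr hπ)) (not_le.mp h1)
    simp only [zpow_zero] at h2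
    exact absurd h (not_le.mpr h2)
  · intro h
    have h2 := (zpow_right_strictAnti₀ (val_pos hπ) (val_irr hπ)).antitone h
    rwa [zpow_zero] at h2

/-! ### residue classes -/

theorem res_of_mem {x : K} (hx : x ∈ V) : res V x = residue V ⟨x, hx⟩ := by
  unfold res
  rw [dif_pos hx]

theorem res_mul {x y : K} (hx : x ∈ V) (hy : y ∈ V) : res V (x * y) = res V x * res V y := by
  rw [res_of_mem hx, res_of_mem hy, res_of_mem (V.mul_mem _ _ hx hy), ← map_mul]
  rfl

theorem res_add {x y : K} (hx : x ∈ V) (hy : y ∈ V) : res V (x + y) = res V x + res V y := by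
  rw [res_of_mem hx, res_of_mem hy, res_of_mem (V.add_mem _ _ hx hy), ← map_add]
  rfl

theorem res_one : res V (1 : K) = 1 := by
  rw [res_of_mem V.one_mem, ← map_one (residue V)]
  rfl

theorem res_zero : res V (0 : K) = 0 := by
  rw [res_of_mem V.zero_mem, ← map_zero (residue V)]
  rfl

theorem res_neg {x : K} (hx : x ∈ V) : res V (-x) = - res V x := by
  rw [res_of_mem hx, res_of_mem (V.neg_mem _ hx), ← map_neg]
  rfl

theorem mem_of_val {x : K} (h : V.valuation x = 1) : x ∈ V :=
  (V.valuation_le_one_iff x).mp h.le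

theorem res_ne_zero_iff {x : K} (hx : x ∈ V) : res V x ≠ 0 ↔ V.valuation x = 1 := by
  rw [res_of_mem hx, residue_ne_zero_iff_isUnit]
  exact V.valuation_eq_one_iff ⟨x, hx⟩

theorem res_eq_zero_iff {x : K} (hx : x ∈ V) : res V x = 0 ↔ V.valuation x < 1 := by
  rw [← not_iff_not, ← ne_eq, res_ne_zero_iff hx, not_lt]
  constructor
  · intro h
    exact h.ge
  · intro h
    exact le_antisymm ((V.valuation_le_one_iff x).mpr hx) h

theorem res_eq_iff {x y : K} (hx : x ∈ V) (hy : y ∈ V) :
    res V x = res V y ↔ V.valuation (x - y) < 1 := by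
  have h1 : x - y ∈ V := by
    rw [sub_eq_add_neg]
    exact V.add_mem _ _ hx (V.neg_mem _ hy)
  rw [← res_eq_zero_iff h1, sub_eq_add_neg, res_add hx (V.neg_mem _ hy), res_neg hy,
    ← sub_eq_add_neg, sub_eq_zero]

theorem res_surj (c : ResidueField V) : ∃ x : K, x ∈ V ∧ res V x = c := by
  obtain ⟨⟨x, hx⟩, rfl⟩ := residue_surjective c
  exact ⟨x, hx, res_of_mem hx⟩

theorem val_inv {x : K} (h : V.valuation x = 1) : V.valuation x⁻¹ = 1 := by
  rw [map_inv₀, h, inv_one]

theorem ne_of_val {x : K} (h : V.valuation x = 1) : x ≠ 0 := by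
  rintro rfl
  rw [map_zero] at h
  exact zero_ne_one h

theorem res_inv {x : K} (h : V.valuation x = 1) : res V x⁻¹ = (res V x)⁻¹ := by
  have h1 := res_mul (mem_of_val h) (mem_of_val (val_inv h))
  rw [mul_inv_cancel₀ (ne_of_val h), res_one] at h1
  exact eq_inv_of_mul_eq_one_right h1.symm

theorem res_div {x y : K} (h : V.valuation x = 1) (h' : V.valuation y = 1) :
    res V (x / y) = res V x / res V y := by
  rw [div_eq_mul_inv, res_mul (mem_of_val h) (mem_of_val (val_inv h')), res_inv h', div_eq_mul_inv]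

theorem val_zpow {x : K} (h : V.valuation x = 1) (n : ℤ) : V.valuation (x ^ n) = 1 := by
  rw [map_zpow₀, h, one_zpow]

theorem res_pow {x : K} (h : V.valuation x = 1) (n : ℕ) : res V (x ^ n) = res V x ^ n := by
  induction n with
  | zero => rw [pow_zero, pow_zero, res_one]
  | succ n ih =>
    rw [pow_succ, pow_succ, res_mul (mem_of_val (by rw [map_pow, h, one_pow])) (mem_of_val h), ih]

theorem res_zpow {x : K} (h : V.valuation x = 1) (n : ℤ) : res V (x ^ n) = res V x ^ n := by
  cases n with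
  | ofNat n => rw [Int.ofNat_eq_natCast, zpow_natCast, zpow_natCast, res_pow h]
  | negSucc n =>
    rw [zpow_negSucc, zpow_negSucc, res_inv (by rw [map_pow, h, one_pow]), res_pow h]

/-- The argument of the residue class in the tame symbol is a unit. -/
theorem tame_arg [IsDiscreteValuationRing V] {f g : K} (hf : f ≠ 0) (hg : g ≠ 0) :
    V.valuation ((-1) ^ (ord V f * ord V g) * f ^ ord V g / g ^ ord V f) = 1 := by
  obtain ⟨π, hπ⟩ := IsDiscreteValuationRing.exists_irreducible V
  have h1 : V.valuation (-1 : K) = 1 := by rw [Valuation.map_neg, map_one]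
  rw [map_div₀, map_mul, map_zpow₀, h1, one_zpow, one_mul, map_zpow₀, map_zpow₀, val_ord hπ hf,
    val_ord hπ hg, ← zpow_mul, ← zpow_mul, mul_comm]
  exact div_self (zpow_ne_zero _ (val_pos hπ).ne')

theorem tame_ne [IsDiscreteValuationRing V] {f g : K} (hf : f ≠ 0) (hg : g ≠ 0) :
    tame V f g ≠ 0 := by
  unfold tame
  rw [res_ne_zero_iff (mem_of_val (tame_arg hf hg))]
  exact tame_arg hf hg

/-- The tame symbol through a uniformiser: a form with values in a group without two-torsion. -/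
theorem form_tame [IsDiscreteValuationRing V] (l : ResidueField V → ℚ)
    (hl : ∀ a b : ResidueField V, a ≠ 0 → b ≠ 0 → l (a * b) = l a + l b) {π : V}
    (hπ : Irreducible π) {f g : K} (hf : f ≠ 0) (hg : g ≠ 0) :
    l (tame V f g) = ord V g * l (res V (f / (π : K) ^ ord V f)) -
      ord V f * l (res V (g / (π : K) ^ ord V g)) := by
  have hp := coe_ne hπ
  have hu : ∀ {x : K}, x ≠ 0 → V.valuation (x / (π : K) ^ ord V x) = 1 := by
    intro x hx
    rw [map_div₀, map_zpow₀, val_ord hπ hx]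
    exact div_self (zpow_ne_zero _ (val_pos hπ).ne')
  have l1 : l 1 = 0 := by
    have := hl 1 1 one_ne_zero one_ne_zero
    rw [mul_one] at this
    linarith
  have lneg : l (-1) = 0 := by
    have h1 : (-1 : ResidueField V) ≠ 0 := neg_ne_zero.mpr one_ne_zero
    have := hl (-1) (-1) h1 h1
    rw [neg_mul_neg, mul_one, l1] at this
    linarith
  have linv : ∀ a : ResidueField V, a ≠ 0 → l a⁻¹ = - l a := by
    intro a ha
    have := hl a a⁻¹ ha (inv_ne_zero ha)
    rw [mul_inv_cancel₀ ha, l1] at this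
    linarith
  have lpow : ∀ (a : ResidueField V), a ≠ 0 → ∀ n : ℕ, l (a ^ n) = n * l a := by
    intro a ha n
    induction n with
    | zero => rw [pow_zero, l1]; simp
    | succ n ih =>
      rw [pow_succ, hl _ _ (pow_ne_zero _ ha) ha, ih]
      push_cast
      ring
  have lzpow : ∀ (a : ResidueField V), a ≠ 0 → ∀ n : ℤ, l (a ^ n) = n * l a := by
    intro a ha n
    cases n with
    | ofNat n =>
      rw [Int.ofNat_eq_natCast, zpow_natCast, lpow a ha]
      simp
    | negSucc n =>
      rw [zpow_negSucc, linv _ (pow_ne_zero _ ha), lpow a ha]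
      push_cast
      ring
  have e1 : (-1) ^ (ord V f * ord V g) * f ^ ord V g / g ^ ord V f =
      (-1) ^ (ord V f * ord V g) * ((f / (π : K) ^ ord V f) ^ ord V g /
        (g / (π : K) ^ ord V g) ^ ord V f) := by
    rw [div_zpow, div_zpow, ← zpow_mul, ← zpow_mul, mul_comm (ord V g) (ord V f)]
    have h1 : (π : K) ^ (ord V f * ord V g) ≠ 0 := zpow_ne_zero _ hp
    have h2 : g ^ ord V f ≠ 0 := zpow_ne_zero _ hg
    field_simp
  have h1 : V.valuation (-1 : K) = 1 := by rw [Valuation.map_neg, map_one]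
  have h3 : ∀ {x : K}, V.valuation x = 1 → res V x ≠ 0 := fun hx =>
    (res_ne_zero_iff (mem_of_val hx)).mpr hx
  have hd : V.valuation ((f / (π : K) ^ ord V f) ^ ord V g /
      (g / (π : K) ^ ord V g) ^ ord V f) = 1 := by
    rw [map_div₀, val_zpow (hu hf), val_zpow (hu hg), div_one]
  unfold tame
  rw [e1, res_mul (mem_of_val (val_zpow h1 _)) (mem_of_val hd), res_zpow h1,
    res_div (val_zpow (hu hf) _) (val_zpow (hu hg) _), res_zpow (hu hf), res_zpow (hu hg),
    res_neg V.one_mem, res_one, div_eq_mul_inv,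
    hl _ _ (zpow_ne_zero _ (neg_ne_zero.mpr one_ne_zero))
      (mul_ne_zero (zpow_ne_zero _ (h3 (hu hf))) (inv_ne_zero (zpow_ne_zero _ (h3 (hu hg))))),
    hl _ _ (zpow_ne_zero _ (h3 (hu hf))) (inv_ne_zero (zpow_ne_zero _ (h3 (hu hg)))),
    linv _ (zpow_ne_zero _ (h3 (hu hg))), lzpow _ (neg_ne_zero.mpr one_ne_zero), lneg,
    lzpow _ (h3 (hu hf)), lzpow _ (h3 (hu hg))]
  ring

end Pool.Agent.Lib.MP_b197b4_ntKD
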