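import Pool.Agent.Lib.MP_b197b4_ntKD.Cor2
import Pool.Agent.Lib.MP_b197b4_ntKD.Ord

/-!
# MP_b197b4_nt (K_1 of surfaces): valuation rings in extensions by constants, the core
-/

set_option autoImplicit false

namespace Pool.Agent.Lib.MP_b197b4_ntKD

open Polynomial IsLocalRing Pool.Agent.Lib.MP_b197b4_ntK

/-- Every element of `L` is in `ℓ(θ)` for some `θ` which is separable over the constants `k`. -/
def CG (k ℓ L : Type*) [Field k] [Field ℓ] [Field L] [Algebra ℓ L] [Algebra k L] : Prop :=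
  ∀ x : L, ∃ (θ : L) (g : k[X]), g.Monic ∧ g.Separable ∧ aeval θ g = 0 ∧ x ∈ Algebra.adjoin ℓ {θ}

section

variable {k ℓ L : Type*} [Field k] [Field ℓ] [Field L] [Algebra k ℓ] [Algebra ℓ L] [Algebra k L]
  [IsScalarTower k ℓ L]

theorem CG.alg (h : CG k ℓ L) (x : L) : IsAlgebraic ℓ x := by
  obtain ⟨θ, g, hg, -, hg0, hx⟩ := h x
  have h1 : IsIntegral ℓ θ := by
    have : IsIntegral k θ := ⟨g, hg, hg0⟩
    exact this.tower_top
  have h2 : IsIntegral ℓ x := by
    have h3 : Algebra.adjoin ℓ {θ} ≤ integralClosure ℓ L := by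
      rw [Algebra.adjoin_le_iff, Set.singleton_subset_iff]
      exact h1
    exact h3 hx
  exact h2.isAlgebraic

theorem sep_of {θ : L} {g : k[X]} (hs : g.Separable) (h0 : aeval θ g = 0) :
    IsSeparable ℓ θ := by
  have h1 : (g.map (algebraMap k ℓ)).Separable := hs.map
  refine h1.of_dvd (minpoly.dvd ℓ θ ?_)
  rw [aeval_map_algebraMap]
  exact h0

/-- Elements of `W'` are quotients of polynomials in a constant over `W`, the denominator a unit. -/
theorem core_frac (h : CG k ℓ L) (W' : ValuationSubring L) (W : ValuationSubring ℓ)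
    (hWW : ∀ x : ℓ, x ∈ W ↔ algebraMap ℓ L x ∈ W') (hk : ∀ c : k, algebraMap k ℓ c ∈ W) {x : L}
    (hx : x ∈ W') : ∃ (θ : L) (g : k[X]) (Y Z : W[X]), g.Monic ∧ g.Separable ∧ aeval θ g = 0 ∧
      W'.valuation (aeval θ Y) = 1 ∧ x * aeval θ Y = aeval θ Z := by
  obtain ⟨θ, g, hg, hgs, hg0, hxa⟩ := h x
  by_cases hx0 : x = 0
  · refine ⟨θ, g, 1, 0, hg, hgs, hg0, ?_, ?_⟩
    · rw [map_one, map_one]
    · rw [hx0, zero_mul, map_zero]
  obtain ⟨y, hy, hy1, hyi, hxyi⟩ := ep (ℓ := ℓ) W' hx hx0 (h.alg x)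
  have hWc : W'.comap (algebraMap ℓ L) = W := by
    ext a
    rw [ValuationSubring.mem_comap]
    exact (hWW a).symm
  rw [hWc] at hyi hxyi
  have hle : Algebra.adjoin ℓ {x} ≤ Algebra.adjoin ℓ {θ} := by
    rw [Algebra.adjoin_le_iff, Set.singleton_subset_iff]
    exact hxa
  have hθ : IsIntegral k θ := ⟨g, hg, hg0⟩
  obtain ⟨Y, hY⟩ := disc_lemma W hk hθ (sep_of hgs hg0) (hle hy) hyi
  obtain ⟨Z, hZ⟩ := disc_lemma W hk hθ (sep_of hgs hg0)
    ((Algebra.adjoin ℓ {θ}).mul_mem hxa (hle hy)) hxyi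
  exact ⟨θ, g, Y, Z, hg, hgs, hg0, by rw [hY]; exact hy1, by rw [hY, hZ]⟩

theorem val_poly_le (W' : ValuationSubring L) (W : ValuationSubring ℓ)
    (hWW : ∀ x : ℓ, x ∈ W ↔ algebraMap ℓ L x ∈ W') (hk : ∀ c : k, algebraMap k ℓ c ∈ W)
    {θ : L} {g : k[X]} (hg : g.Monic) (h0 : aeval θ g = 0) (P : W[X]) :
    aeval θ P ∈ W' := by
  have hθW : θ ∈ W' := by
    have h1 : IsIntegral k θ := ⟨g, hg, by rw [← h0]; rfl⟩
    exact mem_of_integral (k := k) W' (fun c => by
      rw [IsScalarTower.algebraMap_apply k ℓ L]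
      exact (hWW _).mp (hk c)) h1
  rw [aeval_eq_sum_range]
  refine W'.toSubring.sum_mem fun i _ => ?_
  rw [Algebra.smul_def]
  exact W'.mul_mem _ _ ((hWW _).mp (P.coeff i).2) (W'.toSubring.pow_mem hθW _)

end

section

variable {k ℓ L : Type} [Field k] [Field ℓ] [Field L] [Algebra k ℓ] [Algebra ℓ L] [Algebra k L]
  [IsScalarTower k ℓ L]

/-- The maximal ideal of `W'` is generated by a uniformiser of `W`. -/
theorem core_max (h : CG k ℓ L) (W' : ValuationSubring L) (W : ValuationSubring ℓ)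
    (hWW : ∀ x : ℓ, x ∈ W ↔ algebraMap ℓ L x ∈ W') (hk : ∀ c : k, algebraMap k ℓ c ∈ W)
    [IsDiscreteValuationRing W] {π : W} (hπ : Irreducible π) {x : L} (hx : W'.valuation x < 1) :
    ∃ y ∈ W', x = algebraMap ℓ L (π : ℓ) * y := by
  have hxW : x ∈ W' := (W'.valuation_le_one_iff x).mp hx.le
  obtain ⟨θ, g, Y, Z, hg, hgs, hg0, hY, hZ⟩ := core_frac h W' W hWW hk hxW
  have hZ1 : W'.valuation (aeval θ Z) < 1 := by
    rw [← hZ, map_mul, hY, mul_one]
    exact hx
  obtain ⟨H, R, hH, hR, hHR⟩ := loc_lemma W' W hWW hk hgs hg hg0 Z hZ1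
  -- divide `R` by `π`
  have hdiv : ∀ i, π ∣ R.coeff i := by
    intro i
    have h1 := hR i
    rw [← W.valuation_lt_one_iff] at h1
    rw [hπ.maximalIdeal_eq, Ideal.mem_span_singleton] at h1
    exact h1
  obtain ⟨R', hR'⟩ := (C_dvd_iff_dvd_coeff π R).mpr hdiv
  have hRe : aeval θ R = algebraMap ℓ L (π : ℓ) * aeval θ R' := by
    rw [hR', map_mul, aeval_C]
    rfl
  have hH0 : aeval θ H ≠ 0 := by
    intro h0
    rw [h0, map_zero] at hH
    exact zero_ne_one hH
  have hY0 : aeval θ Y ≠ 0 := by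
    intro h0
    rw [h0, map_zero] at hY
    exact zero_ne_one hY
  refine ⟨aeval θ R' * (aeval θ H * aeval θ Y)⁻¹, ?_, ?_⟩
  · refine W'.mul_mem _ _ (val_poly_le W' W hWW hk hg hg0 R') ?_
    rw [← W'.valuation_le_one_iff, map_inv₀, map_mul, hH, hY, mul_one, inv_one]
  · have h1 : x * (aeval θ H * aeval θ Y) = algebraMap ℓ L (π : ℓ) * aeval θ R' := by
      rw [← hRe, ← hHR, ← hZ]
      ring
    rw [← mul_assoc, ← h1, mul_assoc, mul_inv_cancel₀ (mul_ne_zero hH0 hY0), mul_one]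

theorem val_comp (W' : ValuationSubring L) (W : ValuationSubring ℓ)
    (hWW : ∀ x : ℓ, x ∈ W ↔ algebraMap ℓ L x ∈ W') {x : ℓ} (hx : x ≠ 0) :
    W.valuation x = 1 ↔ W'.valuation (algebraMap ℓ L x) = 1 := by
  have key : ∀ {E : Type} [Field E] (V : ValuationSubring E) {y : E}, y ≠ 0 →
      (V.valuation y = 1 ↔ y ∈ V ∧ y⁻¹ ∈ V) := by
    intro E _ V y hy
    rw [← V.valuation_le_one_iff, ← V.valuation_le_one_iff, map_inv₀]
    have h0 : 0 < V.valuation y := by
      rw [zero_lt_iff, ne_eq, map_eq_zero]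
      exact hy
    rw [inv_le_one₀ h0]
    exact le_antisymm_iff
  rw [key W hx, key W' (by rwa [ne_eq, map_eq_zero]), hWW, hWW, map_inv₀]

/-- **THE CORE.** A valuation ring above a discrete valuation ring, in an extension by constants, is
discrete with the same uniformiser. -/
theorem core_dvr (h : CG k ℓ L) (W' : ValuationSubring L) (W : ValuationSubring ℓ)
    (hWW : ∀ x : ℓ, x ∈ W ↔ algebraMap ℓ L x ∈ W') (hk : ∀ c : k, algebraMap k ℓ c ∈ W)
    (hW : IsDiscreteValuationRing W) :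
    IsDiscreteValuationRing W' ∧ ∀ x : ℓ, x ≠ 0 → ord W' (algebraMap ℓ L x) = ord W x := by
  obtain ⟨π, hπ⟩ := IsDiscreteValuationRing.exists_irreducible W
  have hp0 : (π : ℓ) ≠ 0 := coe_ne hπ
  have hp0' : algebraMap ℓ L (π : ℓ) ≠ 0 := by rwa [ne_eq, map_eq_zero]
  have hpW : algebraMap ℓ L (π : ℓ) ∈ W' := (hWW _).mp π.2
  have hpv : W'.valuation (algebraMap ℓ L (π : ℓ)) < 1 := by
    refine lt_of_le_of_ne ((W'.valuation_le_one_iff _).mpr hpW) fun h1 => ?_
    exact (val_irr hπ).ne ((val_comp W' W hWW hp0).mpr h1)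
  obtain ⟨ϖ, hϖ⟩ : ∃ ϖ : W', (ϖ : L) = algebraMap ℓ L (π : ℓ) := ⟨⟨_, hpW⟩, rfl⟩
  have hmax : ∀ x : W', x ∈ maximalIdeal W' ↔ ϖ ∣ x := by
    intro x
    rw [W'.valuation_lt_one_iff]
    constructor
    · intro hx
      obtain ⟨y, hy, hxy⟩ := core_max h W' W hWW hk hπ hx
      exact ⟨⟨y, hy⟩, Subtype.ext (by rw [hxy, ← hϖ]; rfl)⟩
    · rintro ⟨y, rfl⟩
      change W'.valuation ((ϖ : L) * (y : L)) < 1
      rw [map_mul, hϖ]
      calc W'.valuation (algebraMap ℓ L (π : ℓ)) * W'.valuation (y : L)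
          ≤ W'.valuation (algebraMap ℓ L (π : ℓ)) * 1 := mul_le_mul_right (W'.valuation_le_one y) _
        _ < 1 := by rw [mul_one]; exact hpv
  have hϖne : ϖ ≠ 0 := by
    intro h0
    rw [h0] at hϖ
    exact hp0' hϖ.symm
  have hmaxeq : maximalIdeal W' = Ideal.span {ϖ} := by
    ext x
    rw [hmax, Ideal.mem_span_singleton]
  have hirr : Irreducible ϖ := by
    have h1 : (Ideal.span {ϖ}).IsPrime := hmaxeq ▸ (maximalIdeal.isMaximal W').isPrime
    exact ((Ideal.span_singleton_prime hϖne).mp h1).irreducible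
  -- every nonzero element is a power of `ϖ` times a unit
  have hbound : ∀ x : W', x ≠ 0 → ∃ n : ℕ, ¬ ϖ ^ n ∣ x := by
    intro x hx
    by_contra hcon
    have hall : ∀ n : ℕ, ϖ ^ n ∣ x := fun n => by
      by_contra h1
      exact hcon ⟨n, h1⟩
    obtain ⟨p, hp, hpx⟩ := h.alg (x : L)
    have hxL : (x : L) ≠ 0 := fun h0 => hx (Subtype.ext h0)
    -- a polynomial over `ℓ` with nonzero constant term
    obtain ⟨q, hq, hq0⟩ : ∃ q : ℓ[X], aeval (x : L) q = 0 ∧ q.coeff 0 ≠ 0 := by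
      have hi : IsIntegral ℓ (x : L) := by
        rw [← isAlgebraic_iff_isIntegral]
        exact ⟨p, hp, hpx⟩
      refine ⟨minpoly ℓ (x : L), minpoly.aeval _ _, ?_⟩
      exact minpoly.coeff_zero_ne_zero hi hxL
    -- clear denominators
    obtain ⟨b, hb, hbq⟩ : ∃ b : ℓ, b ≠ 0 ∧ ∀ i, b * q.coeff i ∈ W := by
      classical
      have : ∀ s : Finset ℕ, ∃ b : ℓ, b ≠ 0 ∧ ∀ i ∈ s, b * q.coeff i ∈ W := by
        intro s
        induction s using Finset.induction_on with
        | empty => exact ⟨1, one_ne_zero, by simp⟩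
        | insert a s ha ih =>
          obtain ⟨b, hb, hbs⟩ := ih
          rcases W.mem_or_inv_mem (b * q.coeff a) with h1 | h1
          · refine ⟨b, hb, fun i hi => ?_⟩
            rcases Finset.mem_insert.mp hi with rfl | hi
            · exact h1
            · exact hbs i hi
          · by_cases h2 : b * q.coeff a = 0
            · refine ⟨b, hb, fun i hi => ?_⟩
              rcases Finset.mem_insert.mp hi with rfl | hi
              · rw [h2]
                exact W.zero_mem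
              · exact hbs i hi
            · refine ⟨(b * q.coeff a)⁻¹ * b, mul_ne_zero (inv_ne_zero h2) hb, fun i hi => ?_⟩
              rcases Finset.mem_insert.mp hi with rfl | hi
              · rw [mul_assoc, inv_mul_cancel₀ h2]
                exact W.one_mem
              · rw [mul_assoc]
                exact W.mul_mem _ _ h1 (hbs i hi)
      obtain ⟨b, hb, hbs⟩ := this q.support
      refine ⟨b, hb, fun i => ?_⟩
      by_cases hi : i ∈ q.support
      · exact hbs i hi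
      · rw [notMem_support_iff.mp hi, mul_zero]
        exact W.zero_mem
    -- the constant term is divisible by `x` in `W'`
    obtain ⟨a0, ha0⟩ : ∃ a0 : W, (a0 : ℓ) = b * q.coeff 0 := ⟨⟨_, hbq 0⟩, rfl⟩
    have ha00 : (a0 : ℓ) ≠ 0 := by
      rw [ha0]
      exact mul_ne_zero hb hq0
    have hrel : ∃ w ∈ W', algebraMap ℓ L (a0 : ℓ) = (x : L) * w := by
      refine ⟨- ∑ i ∈ Finset.range q.natDegree,
        algebraMap ℓ L (b * q.coeff (i + 1)) * (x : L) ^ i, ?_, ?_⟩
      · refine W'.neg_mem _ (W'.toSubring.sum_mem fun i _ => ?_)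
        exact W'.mul_mem _ _ ((hWW _).mp (hbq _)) (W'.toSubring.pow_mem x.2 _)
      · have h1 := hq
        rw [aeval_eq_sum_range, Finset.sum_range_succ'] at h1
        have h2 := congrArg (fun t => algebraMap ℓ L b * t) h1
        simp only [mul_zero] at h2
        rw [mul_add, Finset.mul_sum] at h2
        rw [ha0, mul_neg, Finset.mul_sum, eq_neg_iff_add_eq_zero, ← h2, add_comm]
        congr 1
        · refine Finset.sum_congr rfl fun i _ => ?_
          rw [Algebra.smul_def, map_mul]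
          ring
        · rw [Algebra.smul_def, pow_zero, mul_one, map_mul]
    obtain ⟨w, hw, hw1⟩ := hrel
    have hn : ∀ n : ℕ, (n : ℤ) ≤ ord W (a0 : ℓ) := by
      intro n
      obtain ⟨t, ht⟩ := hall n
      have h1 : algebraMap ℓ L ((a0 : ℓ) / (π : ℓ) ^ n) = (t : L) * w := by
        have h2 : (x : L) = (algebraMap ℓ L (π : ℓ)) ^ n * (t : L) := by
          rw [ht, ← hϖ]
          rfl
        rw [map_div₀, hw1, h2, map_pow]
        field_simp
      have h3 : (a0 : ℓ) / (π : ℓ) ^ n ∈ W := by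
        rw [hWW, h1]
        exact W'.mul_mem _ _ t.2 hw
      have h4 := (mem_iff_ord (div_ne_zero ha00 (pow_ne_zero n hp0))).mp h3
      rw [ord_div ha00 (pow_ne_zero n hp0), ← zpow_natCast, ord_zpow hp0, ord_irr hπ] at h4
      omega
    have h5 := hn ((ord W (a0 : ℓ)).toNat + 1)
    push_cast at h5
    omega
  have hdvr : IsDiscreteValuationRing W' := by
    refine IsDiscreteValuationRing.ofHasUnitMulPowIrreducibleFactorization ⟨ϖ, hirr, ?_⟩
    intro x hx
    classical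
    have hb := hbound x hx
    obtain ⟨m, hm, hm'⟩ : ∃ m : ℕ, ϖ ^ m ∣ x ∧ ¬ ϖ ^ (m + 1) ∣ x := by
      have h1 := Nat.find_spec hb
      have h2 : Nat.find hb ≠ 0 := by
        intro h0
        rw [h0] at h1
        exact h1 (by rw [pow_zero]; exact one_dvd x)
      obtain ⟨m, hm⟩ := Nat.exists_eq_succ_of_ne_zero h2
      refine ⟨m, ?_, ?_⟩
      · by_contra h3
        exact Nat.find_min hb (by omega) h3
      · have h4 : m + 1 = Nat.find hb := by omega
        rw [h4]
        exact h1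
    obtain ⟨t, ht⟩ := hm
    refine ⟨m, ?_⟩
    have htu : IsUnit t := by
      by_contra h1
      have h2 : t ∈ maximalIdeal W' := (mem_maximalIdeal t).mpr h1
      obtain ⟨s, hs⟩ := (hmax t).mp h2
      exact hm' ⟨s, by rw [ht, hs, pow_succ]; ring⟩
    obtain ⟨u, hu⟩ := htu
    exact ⟨u, by rw [hu, ht]⟩
  refine ⟨hdvr, fun x hx => ?_⟩
  -- the orders
  have hx' : algebraMap ℓ L x ≠ 0 := by rwa [ne_eq, map_eq_zero]
  refine ord_of_val hirr ?_
  have h1 : x = (π : ℓ) ^ ord W x * (x / (π : ℓ) ^ ord W x) := by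
    rw [mul_div_cancel₀ _ (zpow_ne_zero _ hp0)]
  have hu : W.valuation (x / (π : ℓ) ^ ord W x) = 1 := by
    rw [map_div₀, map_zpow₀, val_ord hπ hx]
    exact div_self (zpow_ne_zero _ (val_pos hπ).ne')
  have hu' : W'.valuation (algebraMap ℓ L (x / (π : ℓ) ^ ord W x)) = 1 :=
    (val_comp W' W hWW (div_ne_zero hx (zpow_ne_zero _ hp0))).mp hu
  conv_lhs => rw [h1]
  rw [map_mul, map_mul, hu', mul_one, map_zpow₀, map_zpow₀, hϖ]

end

end Pool.Agent.Lib.MP_b197b4_ntKD
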