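import Pool.Agent.Lib.MP_b197b4_ntKD.Md
import Pool.Agent.Lib.MP_b197b4_ntKD.Dc
import Pool.Agent.Lib.MP_b197b4_ntKD.Big

/-!
# MP_b197b4_nt (K_1 of surfaces): descent from the algebraic closure of the field of constants
-/

set_option autoImplicit false

namespace Pool.Agent.Lib.MP_b197b4_ntKD

open IsLocalRing Pool.Agent.Lib.MP_b197b4_ntK Pool.Agent.Lib.MP_b197b4_ntKR

theorem exists_list {F K : Type} [Field F] [Field K] [Algebra F K] (E : IntermediateField F K)
    (s : List (K × K)) (hs : ∀ q ∈ s, q.1 ∈ E ∧ q.2 ∈ E) :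
    ∃ t : List (E × E), s = t.map fun q => (algebraMap E K q.1, algebraMap E K q.2) := by
  induction s with
  | nil => exact ⟨[], rfl⟩
  | cons q s ih =>
    obtain ⟨t, ht⟩ := ih fun p hp => hs p (List.mem_cons_of_mem _ hp)
    obtain ⟨h1, h2⟩ := hs q List.mem_cons_self
    exact ⟨(⟨q.1, h1⟩, ⟨q.2, h2⟩) :: t, by rw [List.map_cons, ← ht]; rfl⟩

/-- **K1-DESC.** The statement over the algebraic closure implies the statement over a perfect
field. -/
theorem k1Proj_descent (k k' : Type) [Field k] [Field k'] [Algebra k k'] [PerfectField k]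
    [IsAlgClosed k'] [Algebra.IsAlgebraic k k'] (hk : K1Proj k') : K1Proj k := by
  intro F _ _ n x hx a ha
  obtain ⟨K, iK, iFK, ikK, h, hgal⟩ := exists_big k k' F
  have hx' := h.surf hx
  obtain ⟨N, hN, s, hs, hsV⟩ := hk K n _ hx' _ (h.cyc hx ha)
  -- the finite Galois extension of the ground field
  obtain ⟨S, hS⟩ : ∃ S : Set K, S = {y | ∃ q ∈ s, y = q.1 ∨ y = q.2} := ⟨_, rfl⟩
  have hSf : S.Finite := by
    have h1 : S = ⋃ q ∈ {q | q ∈ s}, {q.1, q.2} := by
      rw [hS]
      ext y
      simp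
    rw [h1]
    exact (List.finite_toSet s).biUnion fun q _ => Set.toFinite _
  have : Finite S := hSf
  obtain ⟨E, hE⟩ : ∃ E : FiniteGaloisIntermediateField F K,
      S ⊆ E.toIntermediateField := ⟨_, FiniteGaloisIntermediateField.subset_adjoin F S⟩
  have hfd : FiniteDimensional F E.toIntermediateField := E.finiteDimensional
  have hg : IsGalois F E.toIntermediateField := E.isGalois
  obtain ⟨E', hE'⟩ : ∃ E' : IntermediateField F K, E' = E.toIntermediateField := ⟨_, rfl⟩
  rw [← hE'] at hE hfd hg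
  clear hE'
  obtain ⟨t, ht⟩ := exists_list E' s fun q hq => by
    constructor
    · exact hE (by rw [hS]; exact ⟨q, hq, Or.inl rfl⟩)
    · exact hE (by rw [hS]; exact ⟨q, hq, Or.inr rfl⟩)
  have ht0 : ∀ q ∈ t, q.1 ≠ 0 ∧ q.2 ≠ 0 := by
    intro q hq
    have h1 := hs (algebraMap E' K q.1, algebraMap E' K q.2) (by
      rw [ht]
      exact List.mem_map.mpr ⟨q, hq, rfl⟩)
    exact ⟨fun h0 => h1.1 (by rw [h0, map_zero]), fun h0 => h1.2 (by rw [h0, map_zero])⟩
  refine desc_core (E := E') (fun V hV => disc_of_curves hV)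
    (fun f hf => curves_finite' (charts_finite x) (Surf.chart' hx) f hf) ha.finite hN ht0 ?_
  intro W hW
  obtain ⟨V', hV'⟩ := ext_comap (E := K) W
  subst hV'
  have htower : (algebraMap E' K).comp (algebraMap F E') = algebraMap F K := rfl
  have hW' : V'.comap (algebraMap F K) ∈ Curves (charts k x) := hW
  have hV'c := h.curve_up' hx hW'
  have hd := disc_of_curves hV'c
  have hdF := disc_of_curves hW'
  obtain ⟨π, hπ⟩ := IsDiscreteValuationRing.exists_irreducible (V'.comap (algebraMap F K))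
  have hπ1 : ord V' (algebraMap E' K (algebraMap F E' (π : F))) = 1 := by
    have h1 : algebraMap E' K (algebraMap F E' (π : F)) = algebraMap F K (π : F) := rfl
    rw [h1, h.ord_curve hW' (coe_ne hπ), ord_irr hπ]
  obtain ⟨hWd, hWo⟩ := dvr_between (algebraMap E' K) V' hd hπ1
  refine ⟨hWd, ?_, ?_⟩
  · intro y hy
    rw [← hWo _ ((map_ne_zero _).mpr hy)]
    exact h.ord_curve hW' hy
  · apply (rmap (algebraMap E' K) V').injective
    have h1 := hsV V' hV'c
    rw [ht, List.map_map] at h1
    rw [map_pow, rmap_comp, htower, h1, map_list_prod, List.map_map]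
    congr 1
    refine List.map_congr_left fun q hq => ?_
    rw [Function.comp_apply, Function.comp_apply, rmap_tame _ V' hWo (ht0 q hq).1 (ht0 q hq).2]

end Pool.Agent.Lib.MP_b197b4_ntKD
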