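import Mathlib

/-!
# MP_b197b4_nt (K_1 of surfaces): valuation rings in algebraic extensions
-/

set_option autoImplicit false

namespace Pool.Agent.Lib.MP_b197b4_ntKD

open Polynomial

variable {ℓ L : Type*} [Field ℓ] [Field L] [Algebra ℓ L]

/-- An element of all valuation rings above `W` is integral over `W`. -/
theorem integral_of_all (W : ValuationSubring ℓ) {z : L}
    (h : ∀ O : ValuationSubring L, (∀ x ∈ W, algebraMap ℓ L x ∈ O) → z ∈ O) :
    IsIntegral W z := by
  obtain ⟨s, hs⟩ : ∃ s : Subring L, s = W.toSubring.map (algebraMap ℓ L) := ⟨_, rfl⟩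
  have hcl : Subring.closure (s : Set L) = s := Subring.closure_eq s
  have h1 : z ∈ (⨅ V : {V : ValuationSubring L // (s : Set L) ⊆ V.toSubring}, V.1.toSubring) := by
    rw [Subring.mem_iInf]
    rintro ⟨V, hV⟩
    refine h V fun x hx => hV ?_
    rw [hs]
    exact ⟨x, hx, rfl⟩
  rw [iInf_valuationSubring_superset] at h1
  have h2 : IsIntegral (Subring.closure (s : Set L)) z := h1
  obtain ⟨p, hp, hp0⟩ := h2
  -- the surjection of `W` onto the closure
  have hmem : ∀ x : W, algebraMap W L x ∈ Subring.closure (s : Set L) := by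
    intro x
    rw [hcl, hs]
    exact ⟨x, x.2, rfl⟩
  obtain ⟨φ, hφ⟩ : ∃ φ : W →+* Subring.closure (s : Set L), ∀ x, (φ x : L) = algebraMap W L x :=
    ⟨(algebraMap W L).codRestrict _ hmem, fun x => rfl⟩
  have hsurj : Function.Surjective φ := by
    rintro ⟨y, hy⟩
    have hy' := hy
    rw [hcl, hs] at hy'
    obtain ⟨x, hx, hxy⟩ := hy'
    exact ⟨⟨x, hx⟩, Subtype.ext ((hφ _).trans hxy)⟩
  obtain ⟨q, hq1, -, hq3⟩ := Polynomial.lifts_and_natDegree_eq_and_monic
    ((Polynomial.mem_lifts p).mpr (Polynomial.map_surjective φ hsurj p)) hp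
  refine ⟨q, hq3, ?_⟩
  rw [← hp0, ← hq1, eval₂_map]
  have h3 : algebraMap W L = (algebraMap (Subring.closure (s : Set L)) L).comp φ :=
    RingHom.ext fun x => (hφ x).symm
  rw [← h3]

/-- The lemma of Endler: elements of a valuation ring are quotients of integral elements. -/
theorem ep (W' : ValuationSubring L) {x : L} (hx : x ∈ W') (hx0 : x ≠ 0) (halg : IsAlgebraic ℓ x) :
    ∃ y ∈ Algebra.adjoin ℓ {x}, W'.valuation y = 1 ∧
      IsIntegral (W'.comap (algebraMap ℓ L)) y ∧ IsIntegral (W'.comap (algebraMap ℓ L)) (x * y) := by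
  classical
  obtain ⟨p, hp0, hpx⟩ := halg
  obtain ⟨μ, hμ⟩ : ∃ μ : ℓ → W'.ValueGroup, ∀ a, μ a = W'.valuation (algebraMap ℓ L a) :=
    ⟨_, fun a => rfl⟩
  have hne : p.support.Nonempty := by
    rw [Finset.nonempty_iff_ne_empty, ne_eq, support_eq_empty]
    exact hp0
  obtain ⟨t, ht, htm⟩ := Finset.exists_max_image p.support (fun i => μ (p.coeff i)) hne
  obtain ⟨S, hS⟩ : ∃ S, S = p.support.filter fun i => μ (p.coeff i) = μ (p.coeff t) := ⟨_, rfl⟩
  have hSne : S.Nonempty := ⟨t, by rw [hS, Finset.mem_filter]; exact ⟨ht, rfl⟩⟩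
  obtain ⟨s, hs⟩ : ∃ s, s = S.max' hSne := ⟨_, rfl⟩
  have hsS : s ∈ S := hs ▸ S.max'_mem hSne
  rw [hS, Finset.mem_filter] at hsS
  have has : p.coeff s ≠ 0 := mem_support_iff.mp hsS.1
  have has' : algebraMap ℓ L (p.coeff s) ≠ 0 := by rwa [ne_eq, map_eq_zero]
  have hle : ∀ i, μ (p.coeff i) ≤ μ (p.coeff s) := by
    intro i
    rw [hsS.2]
    by_cases hi : i ∈ p.support
    · exact htm i hi
    · rw [notMem_support_iff.mp hi, hμ, map_zero, map_zero]
      exact zero_le
  have hlt : ∀ i, s < i → μ (p.coeff i) < μ (p.coeff s) := by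
    intro i hi
    refine lt_of_le_of_ne (hle i) fun h => ?_
    have h1 : i ∈ S := by
      rw [hS, Finset.mem_filter, mem_support_iff]
      refine ⟨?_, h.trans hsS.2⟩
      intro h0
      rw [h0, hμ, hμ, map_zero, map_zero] at h
      exact has' ((map_eq_zero _).mp h.symm)
    have h2 := S.le_max' i h1
    rw [← hs] at h2
    exact absurd hi (not_lt.mpr h2)
  obtain ⟨b, hb⟩ : ∃ b : ℕ → ℓ, ∀ i, b i = p.coeff i / p.coeff s := ⟨_, fun i => rfl⟩
  have hbW : ∀ i, W'.valuation (algebraMap ℓ L (b i)) ≤ 1 := by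
    intro i
    rw [hb, map_div₀, map_div₀, ← hμ, ← hμ]
    have h0 : 0 < μ (p.coeff s) := by
      rw [zero_lt_iff, hμ, ne_eq, map_eq_zero]
      exact has'
    exact (div_le_one₀ h0).mpr (hle i)
  have hbW' : ∀ i, s < i → W'.valuation (algebraMap ℓ L (b i)) < 1 := by
    intro i hi
    rw [hb, map_div₀, map_div₀, ← hμ, ← hμ]
    have h0 : 0 < μ (p.coeff s) := by
      rw [zero_lt_iff, hμ, ne_eq, map_eq_zero]
      exact has'
    exact (div_lt_one₀ h0).mpr (hlt i hi)
  have hbs : b s = 1 := by rw [hb, div_self has]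
  obtain ⟨n, hn⟩ : ∃ n, n = p.natDegree + 1 := ⟨_, rfl⟩
  have hsn : s < n := by
    have := le_natDegree_of_mem_supp s hsS.1
    omega
  have hsum : ∑ i ∈ Finset.range n, algebraMap ℓ L (b i) * x ^ i = 0 := by
    have h1 : aeval x p = ∑ i ∈ Finset.range n, algebraMap ℓ L (p.coeff i) * x ^ i := by
      rw [aeval_eq_sum_range, ← hn]
      refine Finset.sum_congr rfl fun i _ => ?_
      rw [Algebra.smul_def]
    rw [hpx] at h1
    have h2 : ∑ i ∈ Finset.range n, algebraMap ℓ L (b i) * x ^ i =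
        (algebraMap ℓ L (p.coeff s))⁻¹ *
          ∑ i ∈ Finset.range n, algebraMap ℓ L (p.coeff i) * x ^ i := by
      rw [Finset.mul_sum]
      refine Finset.sum_congr rfl fun i _ => ?_
      rw [hb, map_div₀]
      ring
    rw [h2, ← h1, mul_zero]
  -- the element
  obtain ⟨y, hy⟩ : ∃ y : L, y = ∑ i ∈ Finset.range (n - s), algebraMap ℓ L (b (s + i)) * x ^ i :=
    ⟨_, rfl⟩
  have hrel : x ^ s * y + ∑ i ∈ Finset.range s, algebraMap ℓ L (b i) * x ^ i = 0 := by
    rw [← hsum, hy, Finset.mul_sum]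
    conv_rhs => rw [show n = s + (n - s) by omega, Finset.sum_range_add]
    rw [add_comm]
    congr 1
    refine Finset.sum_congr rfl fun i _ => ?_
    rw [pow_add]
    ring
  have hya : y ∈ Algebra.adjoin ℓ {x} := by
    rw [hy]
    have hxa : x ∈ Algebra.adjoin ℓ {x} := Algebra.self_mem_adjoin_singleton ℓ x
    refine (Algebra.adjoin ℓ {x}).sum_mem fun i _ => ?_
    exact (Algebra.adjoin ℓ {x}).mul_mem ((Algebra.adjoin ℓ {x}).algebraMap_mem _)
      ((Algebra.adjoin ℓ {x}).pow_mem hxa _)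
  -- membership in the valuation rings
  have hOy : ∀ O : ValuationSubring L, (∀ a ∈ W'.comap (algebraMap ℓ L), algebraMap ℓ L a ∈ O) →
      y ∈ O ∧ x * y ∈ O := by
    intro O hO
    have hbO : ∀ i, algebraMap ℓ L (b i) ∈ O := fun i =>
      hO _ ((W'.valuation_le_one_iff _).mp (hbW i))
    rcases O.mem_or_inv_mem x with h | h
    · have h1 : y ∈ O := by
        rw [hy]
        exact O.toSubring.sum_mem fun i _ => O.mul_mem _ _ (hbO _) (O.toSubring.pow_mem h _)
      exact ⟨h1, O.mul_mem _ _ h h1⟩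
    · have hxy : x * y = - ∑ i ∈ Finset.range s, algebraMap ℓ L (b i) * x⁻¹ ^ (s - 1 - i) := by
        have h1 : x ^ s * (x * y) = x ^ s *
            (- ∑ i ∈ Finset.range s, algebraMap ℓ L (b i) * x⁻¹ ^ (s - 1 - i)) := by
          have h2 : x ^ s * (x * y) = x * (x ^ s * y) := by ring
          rw [h2, eq_neg_of_add_eq_zero_left hrel, mul_neg, mul_neg, Finset.mul_sum,
            Finset.mul_sum]
          congr 1
          refine Finset.sum_congr rfl fun i hi => ?_
          have hi' := Finset.mem_range.mp hi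
          have h3 : x ^ s * x⁻¹ ^ (s - 1 - i) = x ^ (i + 1) := by
            have h4 : x ^ s = x ^ (i + 1) * x ^ (s - 1 - i) := by
              rw [← pow_add]
              congr 1
              omega
            rw [h4, mul_assoc, ← mul_pow, mul_inv_cancel₀ hx0, one_pow, mul_one]
          rw [show x ^ s * (algebraMap ℓ L (b i) * x⁻¹ ^ (s - 1 - i)) =
            algebraMap ℓ L (b i) * (x ^ s * x⁻¹ ^ (s - 1 - i)) by ring, h3]
          ring
        exact mul_left_cancel₀ (pow_ne_zero _ hx0) h1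
      have h1 : x * y ∈ O := by
        rw [hxy]
        exact O.neg_mem _ (O.toSubring.sum_mem fun i _ =>
          O.mul_mem _ _ (hbO _) (O.toSubring.pow_mem h _))
      refine ⟨?_, h1⟩
      have h2 : y = x⁻¹ * (x * y) := by
        rw [← mul_assoc, inv_mul_cancel₀ hx0, one_mul]
      rw [h2]
      exact O.mul_mem _ _ h h1
  refine ⟨y, hya, ?_, integral_of_all _ fun O hO => (hOy O hO).1,
    integral_of_all _ fun O hO => (hOy O hO).2⟩
  -- the value of `y`
  have hy2 : y = 1 + ∑ i ∈ Finset.range (n - s - 1), algebraMap ℓ L (b (s + (i + 1))) * x ^ (i + 1) := by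
    rw [hy]
    conv_lhs => rw [show n - s = (n - s - 1) + 1 by omega, Finset.sum_range_succ']
    rw [add_zero, hbs, map_one, pow_zero, one_mul, add_comm]
  rw [hy2]
  refine W'.valuation.map_one_add_of_lt ?_
  refine Valuation.map_sum_lt _ one_ne_zero fun i _ => ?_
  rw [map_mul]
  have h1 : W'.valuation (x ^ (i + 1)) ≤ 1 :=
    (W'.valuation_le_one_iff _).mpr (W'.toSubring.pow_mem hx _)
  calc W'.valuation (algebraMap ℓ L (b (s + (i + 1)))) * W'.valuation (x ^ (i + 1))
      ≤ W'.valuation (algebraMap ℓ L (b (s + (i + 1)))) * 1 := mul_le_mul_right h1 _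
    _ < 1 := by rw [mul_one]; exact hbW' _ (by omega)

end Pool.Agent.Lib.MP_b197b4_ntKD
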