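import Pool.Agent.Lib.MP_b197b4_ntKD.Ros

/-!
# MP_b197b4_nt (K_1 of surfaces): the sum of the conjugates of a symbol comes from below
-/

set_option autoImplicit false

namespace Pool.Agent.Lib.MP_b197b4_ntKD

open Polynomial

/-- The sum of the conjugates of a symbol over a finite Galois extension comes from the ground field. -/
theorem rep_gal (F F' E : Type*) [Field F] [Field F'] [Field E] [Algebra F F'] [Algebra F' E]
    [Algebra F E] [IsScalarTower F F' E] [IsAlgClosed E] [FiniteDimensional F F'] [IsGalois F F']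
    {f g : F'} (hf : f ≠ 0) (hg : g ≠ 0) :
    Rep F E (fun T => ∑ σ : F' ≃ₐ[F] F', T (algebraMap F' E (σ f)) (algebraMap F' E (σ g))) := by
  classical
  obtain ⟨pb, -⟩ : ∃ pb : PowerBasis F F', pb = Field.powerBasisOfFiniteOfSeparable F F' := ⟨_, rfl⟩
  obtain ⟨b, hb⟩ := pb.exists_eq_aeval' f
  obtain ⟨c, hc⟩ := pb.exists_eq_aeval' g
  have hint := pb.isIntegral_gen
  have hirr := minpoly.irreducible hint
  have cop : ∀ {d : F[X]}, aeval pb.gen d ≠ 0 → IsCoprime (minpoly F pb.gen) d := by
    intro d hd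
    rw [hirr.coprime_iff_not_dvd]
    rintro ⟨e, he⟩
    apply hd
    rw [he, map_mul, minpoly.aeval, zero_mul]
  have h1 := rosset_tate (E := E) _ (minpoly F pb.gen) hirr.ne_zero rfl b c (cop (hb ▸ hf))
    (cop (hc ▸ hg))
  refine h1.congr fun T hT => ?_
  -- to the embeddings
  have e1 : ∑ σ : F' ≃ₐ[F] F', T (algebraMap F' E (σ f)) (algebraMap F' E (σ g)) =
      ∑ φ : F' →ₐ[F] E, T (φ f) (φ g) := by
    refine (Fintype.sum_equiv (Normal.algHomEquivAut F E F') _ _ fun φ => ?_).symm
    simp only [Normal.algHomEquivAut, AlgHom.restrictNormal', Equiv.coe_fn_mk,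
      AlgEquiv.coe_ofBijective, AlgHom.restrictNormal_commutes, Algebra.algebraMap_self,
      RingHom.id_apply]
  have hsep : IsSeparable F pb.gen := Algebra.IsSeparable.isSeparable F pb.gen
  have hnd : ((minpoly F pb.gen).aroots E).Nodup := nodup_roots (Separable.map hsep)
  have e2 : ∑ φ : F' →ₐ[F] E, T (φ f) (φ g) =
      ∑ y : { y : E // y ∈ (minpoly F pb.gen).aroots E }, T (aeval (y : E) b) (aeval (y : E) c) := by
    refine Fintype.sum_equiv pb.liftEquiv' _ _ fun φ => ?_
    rw [PowerBasis.liftEquiv'_apply_coe, hb, hc, aeval_algHom_apply, aeval_algHom_apply]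
  rw [e1, e2]
  unfold RR
  rw [Finset.sum_mem_multiset _ _ (fun x => T (aeval x b) (aeval x c)) fun x => rfl,
    Finset.sum_eq_multiset_sum, Multiset.toFinset_val, Multiset.dedup_eq_self.mpr hnd]

end Pool.Agent.Lib.MP_b197b4_ntKD
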