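import Pool.Agent.Lib.MP_b197b4_ntKD.Fib
import Pool.Agent.Lib.MP_b197b4_ntK.Pts

/-!
# MP_b197b4_nt (K_1 of surfaces): closed points over a larger field of constants
-/

set_option autoImplicit false

namespace Pool.Agent.Lib.MP_b197b4_ntKD

open IsLocalRing Pool.Agent.Lib.MP_b197b4_ntK Pool.Agent.Lib.MP_b197b4_ntKR

attribute [local instance] bcAlg

variable {k k' F K : Type} [Field k] [Field k'] [Field F] [Field K] [Algebra k k'] [Algebra k F]
  [Algebra k' K] [Algebra F K]

/-- The inclusion of the local ring below. -/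
def lm (F : Type) {K : Type} [Field F] [Field K] [Algebra F K] (O' : Subring K) :
    O'.comap (algebraMap F K) →+* O' :=
  ((algebraMap F K).comp (O'.comap (algebraMap F K)).subtype).codRestrict O' fun x => x.2

theorem lm_coe (O' : Subring K) (a : O'.comap (algebraMap F K)) :
    (lm F O' a : K) = algebraMap F K (a : F) := rfl

theorem flat_two {R M : Type} [CommRing R] [AddCommGroup M] [Module R M] [Module.Flat R M]
    (c d : R) (s b : M) (h : c • s = d • b) : ∃ (n : ℕ) (u v : Fin n → R) (y : Fin n → M),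
      s = ∑ j, u j • y j ∧ ∀ j, c * u j = d * v j := by
  have hsum : ∑ i : Fin 2, (![c, -d] i) • (![s, b] i) = 0 := by
    rw [Fin.sum_univ_two]
    simp only [Matrix.cons_val_zero, Matrix.cons_val_one]
    rw [neg_smul, h, add_neg_cancel]
  obtain ⟨n, u, y, hu, hy⟩ := Module.Flat.isTrivialRelation_of_sum_smul_eq_zero hsum
  refine ⟨n, u 0, u 1, y, hu 0, fun j => ?_⟩
  have h1 := hy j
  rw [Fin.sum_univ_two] at h1
  simp only [Matrix.cons_val_zero, Matrix.cons_val_one] at h1
  linear_combination h1

/-- The local ring below a closed point is the local ring of a closed point. -/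
theorem BC.point_down (h : BC k k' F K) {A : Subalgebra k F} (hA : Chart A)
    {m' : Ideal (bc k' K A)} (hm' : m'.IsMaximal) {O' : Subring K}
    (hO' : IsLoc (bc k' K A) m' O') : (m'.comap (bcMap k' K A)).IsMaximal ∧
      IsLoc A (m'.comap (bcMap k' K A)) (O'.comap (algebraMap F K)) := by
  have := h.isIntegral A
  have := h.flat hA
  refine ⟨Ideal.isMaximal_comap_of_isIntegral_of_isMaximal (R := A) m', fun x => ?_⟩
  rw [Subring.mem_comap]
  constructor
  · intro hx
    obtain ⟨b', s', hs', hxb⟩ := (hO' _).1 hx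
    have := hA.frac
    obtain ⟨c, d, hd, hcd⟩ := IsFractionRing.div_surjective (A := A) x
    have hs0 : (s' : K) ≠ 0 := coe_ne_zero_of_notMem hs'
    have hd0 : (d : F) ≠ 0 := by
      intro h0
      exact (nonZeroDivisors.ne_zero hd) (Subtype.ext h0)
    have hxcd : x = (c : F) / (d : F) := hcd.symm
    have hrel : bcMap k' K A c * s' = bcMap k' K A d * b' := by
      apply Subtype.ext
      push_cast
      rw [bcMap_coe, bcMap_coe]
      have h1 : algebraMap F K (c : F) / algebraMap F K (d : F) = (b' : K) / (s' : K) := by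
        rw [← map_div₀, ← hxcd, hxb]
      rw [div_eq_div_iff ((map_ne_zero _).mpr hd0) hs0] at h1
      rw [h1, mul_comm]
    obtain ⟨n, u, v, y, h0, huv⟩ := flat_two c d s' b' (by
      rw [Algebra.smul_def, Algebra.smul_def]
      exact hrel)
    have hex : ∃ j, u j ∉ m'.comap (bcMap k' K A) := by
      by_contra hcon
      push Not at hcon
      apply hs'
      rw [h0]
      refine Ideal.sum_mem _ fun j _ => ?_
      rw [Algebra.smul_def]
      exact Ideal.mul_mem_right _ _ (hcon j)
    obtain ⟨j, hj⟩ := hex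
    refine ⟨v j, u j, hj, ?_⟩
    have hj0 : ((u j : A) : F) ≠ 0 := coe_ne_zero_of_notMem hj
    rw [hxcd, div_eq_div_iff hd0 hj0]
    have h3 : ((c * u j : A) : F) = ((d * v j : A) : F) := by rw [huv j]
    push_cast at h3
    rw [h3, mul_comm]
  · rintro ⟨a, s, hs, rfl⟩
    rw [hO']
    exact ⟨bcMap k' K A a, bcMap k' K A s, hs, by rw [map_div₀]; rfl⟩

section

variable {A : Subalgebra k F} {m' : Ideal (bc k' K A)} {O' : Subring K}

omit [Algebra k k'] in
/-- The square of the inclusions. -/
theorem lm_comp (hO' : IsLoc (bc k' K A) m' O') (hm' : m' ≠ ⊤)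
    (hO : IsLoc A (m'.comap (bcMap k' K A)) (O'.comap (algebraMap F K)))
    (hm : m'.comap (bcMap k' K A) ≠ ⊤) (a : A) :
    lm F O' (hO.incl hm a) = hO'.incl hm' (bcMap k' K A a) := rfl

theorem BC.flat_loc (h : BC k k' F K) (hA : Chart A) (hm' : m'.IsMaximal)
    (hO' : IsLoc (bc k' K A) m' O') :
    @Module.Flat (O'.comap (algebraMap F K)) O' _ _ (lm F O').toAlgebra.toModule := by
  obtain ⟨hm, hO⟩ := h.point_down hA hm' hO'
  have hmp := hm.isPrime
  have hmp' := hm'.isPrime
  let : Algebra A (O'.comap (algebraMap F K)) := (hO.incl hm.isPrime.ne_top).toAlgebra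
  let : Algebra (bc k' K A) O' := (hO'.incl hm'.isPrime.ne_top).toAlgebra
  let : Algebra A O' := ((hO'.incl hm'.isPrime.ne_top).comp (bcMap k' K A)).toAlgebra
  let : Algebra (O'.comap (algebraMap F K)) O' := (lm F O').toAlgebra
  have : IsScalarTower A (bc k' K A) O' := IsScalarTower.of_algebraMap_eq fun _ => rfl
  have : IsScalarTower A (O'.comap (algebraMap F K)) O' :=
    IsScalarTower.of_algebraMap_eq fun _ => rfl
  have hl := hO.isLocalization
  have hl' := hO'.isLocalization
  have hf := h.flat hA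
  have hf' : Module.Flat (bc k' K A) O' := IsLocalization.flat O' m'.primeCompl
  have hf2 : Module.Flat A O' := Module.Flat.trans A (bc k' K A) O'
  exact (Module.flat_iff_of_isLocalization (O'.comap (algebraMap F K))
    (m'.comap (bcMap k' K A)).primeCompl O').mpr hf2

/-- The maximal ideal above is generated by the maximal ideal below. -/
theorem BC.map_max (h : BC k k' F K) (hA : Chart A) (hm' : m'.IsMaximal)
    (hO' : IsLoc (bc k' K A) m' O') [IsLocalRing O'] [IsLocalRing (O'.comap (algebraMap F K))] :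
    (maximalIdeal (O'.comap (algebraMap F K))).map (lm F O') = maximalIdeal O' := by
  obtain ⟨hm, hO⟩ := h.point_down hA hm' hO'
  have hmt := hm.isPrime.ne_top
  have hmt' := hm'.isPrime.ne_top
  have hcoe : ∀ s : bc k' K A, s ∉ m' → IsUnit (hO'.incl hmt' s) := fun s hs => hO'.isUnit hs hmt'
  apply le_antisymm
  · rw [Ideal.map_le_iff_le_comap]
    intro x hx
    rw [Ideal.mem_comap, mem_maximalIdeal, mem_nonunits_iff]
    intro hu
    rw [mem_maximalIdeal, mem_nonunits_iff] at hx
    apply hx
    obtain ⟨y, hy⟩ := hu.exists_right_inv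
    have hy' : algebraMap F K (x : F) * (y : K) = 1 := congrArg (Subtype.val : O' → K) hy
    have hxF : algebraMap F K (x : F) ≠ 0 := left_ne_zero_of_mul_eq_one hy'
    have hx0 : (x : F) ≠ 0 := fun h0 => hxF (by rw [h0, map_zero])
    have hyx : (y : K) = algebraMap F K (x : F)⁻¹ := by
      rw [map_inv₀]
      exact eq_inv_of_mul_eq_one_right hy'
    have hmem : (x : F)⁻¹ ∈ O'.comap (algebraMap F K) := by
      rw [Subring.mem_comap, ← hyx]
      exact y.2
    exact IsUnit.of_mul_eq_one (⟨_, hmem⟩ : O'.comap (algebraMap F K))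
      (Subtype.ext (mul_inv_cancel₀ hx0))
  · intro x hx
    obtain ⟨a, s, hs, hxa⟩ := (hO' x).1 x.2
    have hs0 : (s : K) ≠ 0 := coe_ne_zero_of_notMem hs
    have hxs : x * hO'.incl hmt' s = hO'.incl hmt' a := by
      apply Subtype.ext
      change (x : K) * (s : K) = (a : K)
      rw [hxa]
      field_simp
    have ham : a ∈ m' := by
      by_contra hcon
      have h1 := hcoe a hcon
      rw [← hxs] at h1
      exact (mem_nonunits_iff.mp ((mem_maximalIdeal _).mp hx)) (isUnit_of_mul_isUnit_left h1)
    obtain ⟨t, ht, hta⟩ := h.unramified A m' hm'.isPrime a ham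
    have h2 : hO'.incl hmt' (t * a) ∈
        (maximalIdeal (O'.comap (algebraMap F K))).map (lm F O') := by
      have h3 := Ideal.mem_map_of_mem (hO'.incl hmt') hta
      rw [Ideal.map_map] at h3
      have h4 : (hO'.incl hmt').comp (bcMap k' K A) = (lm F O').comp (hO.incl hmt) := rfl
      rw [h4, ← Ideal.map_map] at h3
      refine Ideal.map_mono ?_ h3
      rw [Ideal.map_le_iff_le_comap]
      intro b hb
      rw [Ideal.mem_comap, mem_maximalIdeal, mem_nonunits_iff]
      intro hu
      have h5 := hu.map (lm F O')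
      have h6 : IsUnit (hO'.incl hmt' (bcMap k' K A b)) := h5
      obtain ⟨y, hy⟩ := h6.exists_right_inv
      obtain ⟨c, r, hr, hyc⟩ := (hO' y).1 y.2
      have hr0 : (r : K) ≠ 0 := coe_ne_zero_of_notMem hr
      have hy' : ((bcMap k' K A b : bc k' K A) : K) * (y : K) = 1 :=
        congrArg (Subtype.val : O' → K) hy
      have h7 : bcMap k' K A b * c = r := by
        apply Subtype.ext
        push_cast
        rw [hyc] at hy'
        field_simp at hy'
        exact hy'
      exact hr (h7 ▸ Ideal.mul_mem_right _ _ hb)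
    have h8 : (hO'.incl hmt' t) * ((hO'.incl hmt' s) * x) = hO'.incl hmt' (t * a) := by
      rw [mul_comm (hO'.incl hmt' s) x, hxs, map_mul]
    rw [← h8] at h2
    have h9 := (Ideal.unit_mul_mem_iff_mem _ (hcoe t ht)).mp h2
    exact (Ideal.unit_mul_mem_iff_mem _ (hcoe s hs)).mp h9

theorem BC.local_hom (h : BC k k' F K) (hA : Chart A) (hm' : m'.IsMaximal)
    (hO' : IsLoc (bc k' K A) m' O') [IsLocalRing O'] [IsLocalRing (O'.comap (algebraMap F K))] :
    IsLocalHom (lm F O') := by
  constructor
  intro a ha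
  by_contra hcon
  have h1 : a ∈ maximalIdeal (O'.comap (algebraMap F K)) :=
    (mem_maximalIdeal _).mpr (mem_nonunits_iff.mpr hcon)
  have h2 := Ideal.mem_map_of_mem (lm F O') h1
  rw [h.map_max hA hm' hO'] at h2
  exact (mem_nonunits_iff.mp ((mem_maximalIdeal _).mp h2)) ha

/-- Lengths do not change. -/
theorem BC.len2_loc (h : BC k k' F K) (hA : Chart A) (hm' : m'.IsMaximal)
    (hO' : IsLoc (bc k' K A) m' O') (p a : O'.comap (algebraMap F K)) :
    Pool.Agent.K1.len2 (lm F O' p) (lm F O' a) = Pool.Agent.K1.len2 p a := by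
  obtain ⟨hm, hO⟩ := h.point_down hA hm' hO'
  have hloc' := (hO'.regular (chart_bc h hA) hm').1
  have hloc := (hO.regular hA hm).1
  have hl' : IsLocalRing O' := inferInstance
  have hl : IsLocalRing (O'.comap (algebraMap F K)) := inferInstance
  have hmax := h.map_max hA hm' hO'
  have hlh := h.local_hom hA hm' hO'
  have hflat := h.flat_loc hA hm' hO'
  let : Algebra (O'.comap (algebraMap F K)) O' := (lm F O').toAlgebra
  have hlh' : IsLocalHom (algebraMap (O'.comap (algebraMap F K)) O') := hlh
  have h1 := IsLocalRing.length_baseChange (O'.comap (algebraMap F K)) O'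
    (O'.comap (algebraMap F K) ⧸ Ideal.span {p, a})
  have h2 : (maximalIdeal (O'.comap (algebraMap F K))).map
    (algebraMap (O'.comap (algebraMap F K)) O') = maximalIdeal O' := hmax
  rw [h2] at h1
  have h3 : Module.length O' (O' ⧸ maximalIdeal O') = 1 := by
    rw [Module.length_eq_one_iff]
    exact isSimpleModule_iff_quot_maximal.mpr ⟨_, maximalIdeal.isMaximal O', ⟨LinearEquiv.refl _ _⟩⟩
  rw [h3, mul_one] at h1
  unfold Pool.Agent.K1.len2
  rw [← h1, ← (Algebra.TensorProduct.quotIdealMapEquivTensorQuot O'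
    (Ideal.span {p, a})).toLinearEquiv.length_eq, Ideal.map_span, Set.image_pair]
  rfl

end

end Pool.Agent.Lib.MP_b197b4_ntKD
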