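import Pool.Agent.Lib.MP_b197b4_ntKD.Ste

/-!
# MP_b197b4_nt (K_1 of surfaces): the rational form of the theorem of Rosset and Tate
-/

set_option autoImplicit false

namespace Pool.Agent.Lib.MP_b197b4_ntKD

open Polynomial

variable (F E : Type*) [Field F] [Field E] [Algebra F E]

/-- A function of the Steinberg symbols on `E` which comes from `F`. -/
def Rep (Φ : (E → E → ℚ) → ℚ) : Prop :=
  ∃ l : List (F × F × ℤ), (∀ p ∈ l, p.1 ≠ 0 ∧ p.2.1 ≠ 0) ∧ ∀ T, IsSt T →
    Φ T = (l.map fun p => (p.2.2 : ℚ) * T (algebraMap F E p.1) (algebraMap F E p.2.1)).sum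

variable {F E}

theorem Rep.congr {Φ Ψ : (E → E → ℚ) → ℚ} (h : Rep F E Φ) (e : ∀ T, IsSt T → Ψ T = Φ T) :
    Rep F E Ψ := by
  obtain ⟨l, h1, h2⟩ := h
  exact ⟨l, h1, fun T hT => by rw [e T hT, h2 T hT]⟩

theorem Rep.zero : Rep F E (fun _ => 0) := ⟨[], by simp, fun T _ => by simp⟩

theorem Rep.single {x y : F} (hx : x ≠ 0) (hy : y ≠ 0) :
    Rep F E (fun T => T (algebraMap F E x) (algebraMap F E y)) :=
  ⟨[(x, y, 1)], by simp [hx, hy], fun T _ => by simp⟩

theorem Rep.add {Φ Ψ : (E → E → ℚ) → ℚ} (h : Rep F E Φ) (h' : Rep F E Ψ) :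
    Rep F E (fun T => Φ T + Ψ T) := by
  obtain ⟨l, h1, h2⟩ := h
  obtain ⟨l', h1', h2'⟩ := h'
  refine ⟨l ++ l', ?_, fun T hT => ?_⟩
  · intro p hp
    rcases List.mem_append.mp hp with hp | hp
    · exact h1 p hp
    · exact h1' p hp
  · change Φ T + Ψ T = _
    rw [List.map_append, List.sum_append, h2 T hT, h2' T hT]

theorem Rep.neg {Φ : (E → E → ℚ) → ℚ} (h : Rep F E Φ) : Rep F E (fun T => - Φ T) := by
  obtain ⟨l, h1, h2⟩ := h
  refine ⟨l.map fun p => (p.1, p.2.1, - p.2.2), ?_, fun T hT => ?_⟩
  · intro p hp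
    obtain ⟨q, hq, rfl⟩ := List.mem_map.mp hp
    exact h1 q hq
  · change - Φ T = _
    rw [h2 T hT, List.map_map]
    have : ((fun p : F × F × ℤ => (p.2.2 : ℚ) * T (algebraMap F E p.1) (algebraMap F E p.2.1)) ∘
        fun p : F × F × ℤ => (p.1, p.2.1, - p.2.2)) =
        fun p => - ((p.2.2 : ℚ) * T (algebraMap F E p.1) (algebraMap F E p.2.1)) := by
      funext p
      simp
    rw [this]
    have h3 : ∀ (g : F × F × ℤ → ℚ) (l : List (F × F × ℤ)),
        - (l.map g).sum = (l.map fun p => - g p).sum := by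
      intro g l
      induction l with
      | nil => simp
      | cons a l ih =>
        rw [List.map_cons, List.sum_cons, List.map_cons, List.sum_cons, ← ih]
        ring
    exact h3 _ l

theorem Rep.sub {Φ Ψ : (E → E → ℚ) → ℚ} (h : Rep F E Φ) (h' : Rep F E Ψ) :
    Rep F E (fun T => Φ T - Ψ T) := by
  refine (h.add h'.neg).congr fun T _ => ?_
  ring

variable (E) in
/-- The symbol of Rosset and Tate. -/
noncomputable def RR (T : E → E → ℚ) (a b c : F[X]) : ℚ :=
  ((a.aroots E).map fun x => T (aeval x b) (aeval x c)).sum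

theorem ev_ne {a b : F[X]} (h : IsCoprime a b) {x : E} (hx : x ∈ a.aroots E) : aeval x b ≠ 0 := by
  obtain ⟨u, v, huv⟩ := h
  intro h0
  have h1 : aeval x a = 0 := (mem_aroots'.mp hx).2
  have h2 := congrArg (aeval x) huv
  rw [map_add, map_mul, map_mul, h0, h1] at h2
  simp at h2

theorem RR_mod (T : E → E → ℚ) (a b c : F[X]) : RR E T a (b % a) (c % a) = RR E T a b c := by
  unfold RR
  refine congrArg _ (Multiset.map_congr rfl fun x hx => ?_)
  have h1 : aeval x a = 0 := (mem_aroots'.mp hx).2
  have h2 : ∀ d : F[X], aeval x (d % a) = aeval x d := by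
    intro d
    conv_rhs => rw [← EuclideanDomain.div_add_mod d a]
    rw [map_add, map_mul, h1]
    ring
  rw [h2, h2]

theorem RR_mul_l {T : E → E → ℚ} (hT : IsSt T) {a b b' c : F[X]} (h : IsCoprime a b)
    (h' : IsCoprime a b') (hc : IsCoprime a c) :
    RR E T a (b * b') c = RR E T a b c + RR E T a b' c := by
  unfold RR
  rw [← Multiset.sum_map_add]
  refine congrArg _ (Multiset.map_congr rfl fun x hx => ?_)
  rw [map_mul]
  exact hT.ml _ _ _ (ev_ne h hx) (ev_ne h' hx) (ev_ne hc hx)

theorem RR_mul_r {T : E → E → ℚ} (hT : IsSt T) {a b c c' : F[X]} (h : IsCoprime a b)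
    (hc : IsCoprime a c) (hc' : IsCoprime a c') :
    RR E T a b (c * c') = RR E T a b c + RR E T a b c' := by
  unfold RR
  rw [← Multiset.sum_map_add]
  refine congrArg _ (Multiset.map_congr rfl fun x hx => ?_)
  rw [map_mul]
  exact hT.mr _ _ _ (ev_ne h hx) (ev_ne hc hx) (ev_ne hc' hx)

theorem RR_self {T : E → E → ℚ} (hT : IsSt T) {a b : F[X]} (h : IsCoprime a b) :
    RR E T a b b = 0 := by
  unfold RR
  refine Multiset.sum_eq_zero ?_
  intro q hq
  obtain ⟨x, hx, rfl⟩ := Multiset.mem_map.mp hq
  exact hT.self (ev_ne h hx)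

theorem RR_swap {T : E → E → ℚ} (hT : IsSt T) {a b c : F[X]} (h : IsCoprime a b)
    (hc : IsCoprime a c) : RR E T a b c = - RR E T a c b := by
  unfold RR
  rw [← Multiset.sum_map_neg]
  refine congrArg _ (Multiset.map_congr rfl fun x hx => ?_)
  exact hT.swap (ev_ne h hx) (ev_ne hc hx)

variable [IsAlgClosed E]

/-- The product of the values at the roots is in `F`. -/
theorem prod_ev {a c : F[X]} (ha : a ≠ 0) (h : IsCoprime a c) :
    ∃ r : F, r ≠ 0 ∧ algebraMap F E r = ((a.aroots E).map fun x => aeval x c).prod := by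
  have hl : a.leadingCoeff ≠ 0 := leadingCoeff_ne_zero.mpr ha
  have h1 := resultant_eq_prod_eval (a.map (algebraMap F E)) (c.map (algebraMap F E)) c.natDegree
    natDegree_map_le (IsAlgClosed.splits _)
  rw [resultant_map_map, natDegree_map, leadingCoeff_map] at h1
  refine ⟨resultant a c / a.leadingCoeff ^ c.natDegree, ?_, ?_⟩
  · exact div_ne_zero (resultant_ne_zero a c h) (pow_ne_zero _ hl)
  · have h2 : ((a.aroots E).map fun x => aeval x c) =
        (a.map (algebraMap F E)).roots.map (c.map (algebraMap F E)).eval := by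
      refine Multiset.map_congr rfl fun x _ => ?_
      rw [eval_map_algebraMap]
    rw [h2, map_div₀, h1, map_pow]
    have h3 : (algebraMap F E a.leadingCoeff) ≠ 0 := by
      simpa using hl
    field_simp

theorem rep_const_l {a c : F[X]} (ha : a ≠ 0) (h : IsCoprime a c) {w : F} (hw : w ≠ 0) :
    Rep F E (fun T => RR E T a (C w) c) := by
  obtain ⟨r, hr, h1⟩ := prod_ev (E := E) ha h
  refine (Rep.single (E := E) hw hr).congr fun T hT => ?_
  rw [h1]
  unfold RR
  rw [hT.prod_r _ _ (fun x hx => ev_ne h hx) (by simpa using hw)]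
  refine congrArg _ (Multiset.map_congr rfl fun x hx => ?_)
  rw [aeval_C]

/-- `C w` is prime to everything. -/
theorem cop_C (a : F[X]) {w : F} (hw : w ≠ 0) : IsCoprime a (C w) := by
  refine ⟨0, C w⁻¹, ?_⟩
  rw [zero_mul, zero_add, ← C_mul, inv_mul_cancel₀ hw, C_1]

theorem rep_const_r {a c : F[X]} (ha : a ≠ 0) (h : IsCoprime a c) {w : F} (hw : w ≠ 0) :
    Rep F E (fun T => RR E T a c (C w)) :=
  (rep_const_l (E := E) ha h hw).neg.congr fun _ hT => RR_swap hT h (cop_C a hw)

/-- The reciprocity law for monic polynomials. -/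
theorem RR_recip {T : E → E → ℚ} (hT : IsSt T) {a b c : F[X]} (ha : a.Monic) (hb : b.Monic)
    (hc : c.Monic) (hab : IsCoprime a b) (hac : IsCoprime a c) (hbc : IsCoprime b c) :
    RR E T a b c = RR E T b a c - RR E T c a b := by
  have hp : ∀ {d : F[X]}, d.Monic → ∀ x : E, aeval x d = ((d.aroots E).map fun y => x - y).prod := by
    intro d hd x
    have h1 := (IsAlgClosed.splits (d.map (algebraMap F E))).eq_prod_roots_of_monic (hd.map _)
    rw [← eval_map_algebraMap]
    conv_lhs => rw [h1]
    rw [eval_multiset_prod, Multiset.map_map]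
    refine congrArg _ (Multiset.map_congr rfl fun y _ => ?_)
    simp
  have hne : ∀ {d e : F[X]}, IsCoprime d e → ∀ x ∈ d.aroots E, ∀ y ∈ e.aroots E, x ≠ y := by
    rintro d e h x hx y hy rfl
    exact ev_ne h hx (mem_aroots'.mp hy).2
  have h1 := recip hT (a.aroots E) (b.aroots E) (c.aroots E) (hne hab) (hne hac) (hne hbc)
  have e1 : RR E T a b c = ((a.aroots E).map fun x => T ((b.aroots E).map fun y => x - y).prod
      ((c.aroots E).map fun z => x - z).prod).sum := by
    unfold RR
    refine congrArg _ (Multiset.map_congr rfl fun x _ => ?_)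
    rw [hp hb, hp hc]
  have e2 : RR E T b a c = ((b.aroots E).map fun x => T ((a.aroots E).map fun y => x - y).prod
      ((c.aroots E).map fun z => x - z).prod).sum := by
    unfold RR
    refine congrArg _ (Multiset.map_congr rfl fun x _ => ?_)
    rw [hp ha, hp hc]
  have e3 : RR E T c a b = ((c.aroots E).map fun x => T ((a.aroots E).map fun y => x - y).prod
      ((b.aroots E).map fun z => x - z).prod).sum := by
    unfold RR
    refine congrArg _ (Multiset.map_congr rfl fun x _ => ?_)
    rw [hp ha, hp hb]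
  rw [e1, e2, e3]
  exact h1

omit [IsAlgClosed E] in
theorem RR_scale {T : E → E → ℚ} {a b c : F[X]} {w : F} (hw : w ≠ 0) :
    RR E T (C w * a) b c = RR E T a b c := by
  unfold RR
  rw [aroots_C_mul _ hw]

omit [IsAlgClosed E] in
theorem RR_C_mul_l {T : E → E → ℚ} (hT : IsSt T) {a b c : F[X]} {w : F} (hw : w ≠ 0)
    (hab : IsCoprime a b) (hac : IsCoprime a c) :
    RR E T a (C w * b) c = RR E T a (C w) c + RR E T a b c :=
  RR_mul_l hT (cop_C a hw) hab hac

/-- **The rational theorem of Rosset and Tate.** -/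
theorem rosset_tate : ∀ (n : ℕ) (a : F[X]), a ≠ 0 → a.natDegree = n → ∀ b c : F[X],
    IsCoprime a b → IsCoprime a c → Rep F E (fun T => RR E T a b c) := by
  intro n
  induction n using Nat.strong_induction_on with
  | _ n ih =>
  intro a ha hn b c hb hc
  by_cases hn0 : n = 0
  · refine Rep.zero.congr fun T hT => ?_
    unfold RR
    rw [hn0] at hn
    have : a.aroots E = 0 := by
      rw [aroots_def, eq_C_of_natDegree_eq_zero hn, map_C, roots_C]
    rw [this]
    simp
  -- the inner induction
  have main : ∀ (k : ℕ) (b c : F[X]), b.natDegree < n → c.natDegree < n →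
      b.natDegree + c.natDegree = k → IsCoprime a b → IsCoprime a c →
      Rep F E (fun T => RR E T a b c) := by
    intro k
    induction k using Nat.strong_induction_on with
    | _ k ih2 =>
    intro b c hbn hcn hk hb hc
    have hne : ∀ {d : F[X]}, IsCoprime a d → d ≠ 0 := by
      rintro d hd rfl
      rw [isCoprime_zero_right] at hd
      exact hn0 (hn ▸ natDegree_eq_zero_of_isUnit hd)
    have hb0 := hne hb
    have hc0 := hne hc
    by_cases hbc : IsCoprime b c
    · -- reciprocity
      have hlb : b.leadingCoeff ≠ 0 := leadingCoeff_ne_zero.mpr hb0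
      have hlc : c.leadingCoeff ≠ 0 := leadingCoeff_ne_zero.mpr hc0
      have hla : a.leadingCoeff ≠ 0 := leadingCoeff_ne_zero.mpr ha
      obtain ⟨a', ha'⟩ : ∃ a', a' = C a.leadingCoeff⁻¹ * a := ⟨_, rfl⟩
      obtain ⟨b', hb'⟩ : ∃ b', b' = C b.leadingCoeff⁻¹ * b := ⟨_, rfl⟩
      obtain ⟨c', hc'⟩ : ∃ c', c' = C c.leadingCoeff⁻¹ * c := ⟨_, rfl⟩
      have ma : a'.Monic := by
        rw [ha', mul_comm]
        exact monic_mul_leadingCoeff_inv ha
      have mb : b'.Monic := by
        rw [hb', mul_comm]
        exact monic_mul_leadingCoeff_inv hb0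
      have mc : c'.Monic := by
        rw [hc', mul_comm]
        exact monic_mul_leadingCoeff_inv hc0
      have eb : b = C b.leadingCoeff * b' := by
        rw [hb', ← mul_assoc, ← C_mul, mul_inv_cancel₀ hlb, C_1, one_mul]
      have ec : c = C c.leadingCoeff * c' := by
        rw [hc', ← mul_assoc, ← C_mul, mul_inv_cancel₀ hlc, C_1, one_mul]
      have cu : ∀ {w : F}, w ≠ 0 → IsUnit (C w : F[X]) := fun hw =>
        isUnit_C.mpr (isUnit_iff_ne_zero.mpr hw)
      have cab : IsCoprime a' b' := by
        rw [ha', hb']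
        exact (isCoprime_mul_unit_left_left (cu (inv_ne_zero hla)) _ _).mpr
          ((isCoprime_mul_unit_left_right (cu (inv_ne_zero hlb)) _ _).mpr hb)
      have cac : IsCoprime a' c' := by
        rw [ha', hc']
        exact (isCoprime_mul_unit_left_left (cu (inv_ne_zero hla)) _ _).mpr
          ((isCoprime_mul_unit_left_right (cu (inv_ne_zero hlc)) _ _).mpr hc)
      have cbc : IsCoprime b' c' := by
        rw [hb', hc']
        exact (isCoprime_mul_unit_left_left (cu (inv_ne_zero hlb)) _ _).mpr
          ((isCoprime_mul_unit_left_right (cu (inv_ne_zero hlc)) _ _).mpr hbc)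
      have cab' : IsCoprime a b' := by
        rw [hb']
        exact (isCoprime_mul_unit_left_right (cu (inv_ne_zero hlb)) _ _).mpr hb
      have cac' : IsCoprime a c' := by
        rw [hc']
        exact (isCoprime_mul_unit_left_right (cu (inv_ne_zero hlc)) _ _).mpr hc
      have r1 : Rep F E (fun T => RR E T a (C b.leadingCoeff) c) := rep_const_l ha hc hlb
      have r2 : Rep F E (fun T => RR E T a b' (C c.leadingCoeff)) := rep_const_r ha cab' hlc
      have r3 : Rep F E (fun T => RR E T b a' c') :=
        ih b.natDegree hbn b hb0 rfl a' c'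
          (by
            rw [ha']
            exact (isCoprime_mul_unit_left_right (cu (inv_ne_zero hla)) _ _).mpr hb.symm)
          (by
            rw [hc']
            exact (isCoprime_mul_unit_left_right (cu (inv_ne_zero hlc)) _ _).mpr hbc)
      have r4 : Rep F E (fun T => RR E T c a' b') :=
        ih c.natDegree hcn c hc0 rfl a' b'
          (by
            rw [ha']
            exact (isCoprime_mul_unit_left_right (cu (inv_ne_zero hla)) _ _).mpr hc.symm)
          (by
            rw [hb']
            exact (isCoprime_mul_unit_left_right (cu (inv_ne_zero hlb)) _ _).mpr hbc.symm)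
      refine ((r1.add r2).add (r3.sub r4)).congr fun T hT => ?_
      have s1 : RR E T a b c = RR E T a (C b.leadingCoeff) c + RR E T a b' c := by
        conv_lhs => rw [eb]
        exact RR_mul_l hT (cop_C a hlb) cab' hc
      have s2 : RR E T a b' c = RR E T a b' (C c.leadingCoeff) + RR E T a b' c' := by
        conv_lhs => rw [ec]
        exact RR_mul_r hT cab' (cop_C a hlc) cac'
      have s3 : RR E T a b' c' = RR E T a' b' c' := by
        rw [ha', RR_scale (inv_ne_zero hla)]
      have s4 : RR E T b a' c' = RR E T b' a' c' := by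
        rw [hb', RR_scale (inv_ne_zero hlb)]
      have s5 : RR E T c a' b' = RR E T c' a' b' := by
        rw [hc', RR_scale (inv_ne_zero hlc)]
      rw [s1, s2, s3, s4, s5, RR_recip hT ma mb mc cab cac cbc]
      ring
    · -- a common factor
      classical
      obtain ⟨d, hd⟩ : ∃ d, d = EuclideanDomain.gcd b c := ⟨_, rfl⟩
      obtain ⟨b1, hb1⟩ : d ∣ b := hd ▸ EuclideanDomain.gcd_dvd_left b c
      obtain ⟨c1, hc1⟩ : d ∣ c := hd ▸ EuclideanDomain.gcd_dvd_right b c
      have hd0 : d ≠ 0 := by
        rintro rfl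
        rw [zero_mul] at hb1
        exact hb0 hb1
      have hb10 : b1 ≠ 0 := by
        rintro rfl
        rw [mul_zero] at hb1
        exact hb0 hb1
      have hc10 : c1 ≠ 0 := by
        rintro rfl
        rw [mul_zero] at hc1
        exact hc0 hc1
      have hdd : 0 < d.natDegree := by
        rw [Nat.pos_iff_ne_zero]
        intro h0
        apply hbc
        have h1 : IsUnit d := by
          rw [eq_C_of_natDegree_eq_zero h0]
          refine isUnit_C.mpr (isUnit_iff_ne_zero.mpr ?_)
          intro h2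
          apply hd0
          rw [eq_C_of_natDegree_eq_zero h0, h2, C_0]
        rw [hd] at h1
        exact EuclideanDomain.gcd_isUnit_iff.mp h1
      have db : b.natDegree = d.natDegree + b1.natDegree := by
        rw [hb1, natDegree_mul hd0 hb10]
      have dc : c.natDegree = d.natDegree + c1.natDegree := by
        rw [hc1, natDegree_mul hd0 hc10]
      have cad : IsCoprime a d := IsCoprime.of_mul_right_left (hb1 ▸ hb)
      have cab1 : IsCoprime a b1 := IsCoprime.of_mul_right_right (hb1 ▸ hb)
      have cac1 : IsCoprime a c1 := IsCoprime.of_mul_right_right (hc1 ▸ hc)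
      have r1 := ih2 (d.natDegree + c1.natDegree) (by omega) d c1 (by omega) (by omega) rfl cad cac1
      have r2 := ih2 (b1.natDegree + d.natDegree) (by omega) b1 d (by omega) (by omega) rfl cab1 cad
      have r3 := ih2 (b1.natDegree + c1.natDegree) (by omega) b1 c1 (by omega) (by omega) rfl
        cab1 cac1
      refine ((r1.add r2).add r3).congr fun T hT => ?_
      have s1 : RR E T a b c = RR E T a d c + RR E T a b1 c := by
        conv_lhs => rw [hb1]
        exact RR_mul_l hT cad cab1 hc
      have s2 : RR E T a d c = RR E T a d d + RR E T a d c1 := by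
        conv_lhs => rw [hc1]
        exact RR_mul_r hT cad cad cac1
      have s3 : RR E T a b1 c = RR E T a b1 d + RR E T a b1 c1 := by
        conv_lhs => rw [hc1]
        exact RR_mul_r hT cab1 cad cac1
      rw [s1, s2, s3, RR_self hT cad]
      ring
  have hmod : ∀ {d : F[X]}, IsCoprime a d → IsCoprime a (d % a) := by
    rintro d ⟨u, v, huv⟩
    refine ⟨u + v * (d / a), v, ?_⟩
    rw [← huv]
    conv_rhs => rw [← EuclideanDomain.div_add_mod d a]
    ring
  have hdeg : ∀ d : F[X], (d % a).natDegree < n := by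
    intro d
    rw [← hn]
    exact natDegree_mod_lt d (by omega)
  refine (main _ (b % a) (c % a) (hdeg b) (hdeg c) rfl (hmod hb) (hmod hc)).congr fun T _ => ?_
  rw [RR_mod]

end Pool.Agent.Lib.MP_b197b4_ntKD
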