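import Mathlib

/-!
# MP_b197b4_nt (K_1 of surfaces): rational Steinberg symbols
-/

set_option autoImplicit false

namespace Pool.Agent.Lib.MP_b197b4_ntKD

/-- A rational Steinberg symbol on a field. -/
structure IsSt {E : Type*} [Field E] (T : E → E → ℚ) : Prop where
  ml : ∀ a b c, a ≠ 0 → b ≠ 0 → c ≠ 0 → T (a * b) c = T a c + T b c
  mr : ∀ a b c, a ≠ 0 → b ≠ 0 → c ≠ 0 → T a (b * c) = T a b + T a c
  st : ∀ a, a ≠ 0 → a ≠ 1 → T a (1 - a) = 0

namespace IsSt

variable {E : Type*} [Field E] {T : E → E → ℚ} (h : IsSt T)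

include h

theorem one_l {c : E} (hc : c ≠ 0) : T 1 c = 0 := by
  have := h.ml 1 1 c one_ne_zero one_ne_zero hc
  rw [mul_one] at this
  linarith

theorem one_r {c : E} (hc : c ≠ 0) : T c 1 = 0 := by
  have := h.mr c 1 1 hc one_ne_zero one_ne_zero
  rw [mul_one] at this
  linarith

theorem neg_one_l {c : E} (hc : c ≠ 0) : T (-1) c = 0 := by
  have h1 : (-1 : E) ≠ 0 := neg_ne_zero.mpr one_ne_zero
  have := h.ml (-1) (-1) c h1 h1 hc
  rw [neg_mul_neg, mul_one, h.one_l hc] at this
  linarith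

theorem neg_one_r {c : E} (hc : c ≠ 0) : T c (-1) = 0 := by
  have h1 : (-1 : E) ≠ 0 := neg_ne_zero.mpr one_ne_zero
  have := h.mr c (-1) (-1) hc h1 h1
  rw [neg_mul_neg, mul_one, h.one_r hc] at this
  linarith

theorem neg_l {a c : E} (ha : a ≠ 0) (hc : c ≠ 0) : T (-a) c = T a c := by
  have h1 : (-1 : E) ≠ 0 := neg_ne_zero.mpr one_ne_zero
  have := h.ml (-1) a c h1 ha hc
  rw [neg_one_mul, h.neg_one_l hc] at this
  linarith

theorem neg_r {a c : E} (ha : a ≠ 0) (hc : c ≠ 0) : T c (-a) = T c a := by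
  have h1 : (-1 : E) ≠ 0 := neg_ne_zero.mpr one_ne_zero
  have := h.mr c (-1) a hc h1 ha
  rw [neg_one_mul, h.neg_one_r hc] at this
  linarith

theorem inv_l {a c : E} (ha : a ≠ 0) (hc : c ≠ 0) : T a⁻¹ c = - T a c := by
  have := h.ml a a⁻¹ c ha (inv_ne_zero ha) hc
  rw [mul_inv_cancel₀ ha, h.one_l hc] at this
  linarith

theorem inv_r {a c : E} (ha : a ≠ 0) (hc : c ≠ 0) : T c a⁻¹ = - T c a := by
  have := h.mr c a a⁻¹ hc ha (inv_ne_zero ha)
  rw [mul_inv_cancel₀ ha, h.one_r hc] at this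
  linarith

theorem div_l {a b c : E} (ha : a ≠ 0) (hb : b ≠ 0) (hc : c ≠ 0) :
    T (a / b) c = T a c - T b c := by
  rw [div_eq_mul_inv, h.ml a b⁻¹ c ha (inv_ne_zero hb) hc, h.inv_l hb hc]
  ring

theorem div_r {a b c : E} (ha : a ≠ 0) (hb : b ≠ 0) (hc : c ≠ 0) :
    T c (a / b) = T c a - T c b := by
  rw [div_eq_mul_inv, h.mr c a b⁻¹ hc ha (inv_ne_zero hb), h.inv_r hb hc]
  ring

theorem self {a : E} (ha : a ≠ 0) : T a a = 0 := by
  by_cases h1 : a = 1
  · subst h1
    exact h.one_l one_ne_zero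
  have h2 : 1 - a ≠ 0 := sub_ne_zero.mpr (Ne.symm h1)
  have h3 : a⁻¹ ≠ 1 := fun e => h1 (inv_eq_one.mp e)
  have h4 : 1 - a⁻¹ ≠ 0 := sub_ne_zero.mpr (Ne.symm h3)
  have e1 : -a = (1 - a) / (1 - a⁻¹) := by
    rw [eq_div_iff h4]
    field_simp
    ring
  have e2 : T a (-a) = T a (1 - a) - T a (1 - a⁻¹) := by
    rw [e1]
    exact h.div_r h2 h4 ha
  have e3 := h.st a⁻¹ (inv_ne_zero ha) h3
  rw [h.inv_l ha h4] at e3
  rw [h.st a ha h1] at e2
  rw [← h.neg_r ha ha]
  linarith

theorem swap {a b : E} (ha : a ≠ 0) (hb : b ≠ 0) : T a b = - T b a := by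
  have h1 := h.self (mul_ne_zero ha hb)
  rw [h.ml a b (a * b) ha hb (mul_ne_zero ha hb), h.mr a a b ha ha hb, h.mr b a b hb ha hb,
    h.self ha, h.self hb] at h1
  linarith

/-- The identity behind the reciprocity law of Rosset and Tate. -/
theorem key {x y z : E} (hxy : x ≠ y) (hxz : x ≠ z) (hyz : y ≠ z) :
    T (x - y) (x - z) = T (y - x) (y - z) - T (z - x) (z - y) := by
  have a1 : x - y ≠ 0 := sub_ne_zero.mpr hxy
  have a2 : x - z ≠ 0 := sub_ne_zero.mpr hxz
  have a3 : y - z ≠ 0 := sub_ne_zero.mpr hyz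
  have h0 : (x - y) / (x - z) ≠ 0 := div_ne_zero a1 a2
  have h1 : (x - y) / (x - z) ≠ 1 := by
    intro e
    rw [div_eq_one_iff_eq a2] at e
    exact hyz (by linear_combination -e)
  have h2 : 1 - (x - y) / (x - z) = (y - z) / (x - z) := by
    field_simp
    ring
  have h3 := h.st _ h0 h1
  rw [h2, h.div_l a1 a2 (div_ne_zero a3 a2), h.div_r a3 a2 a1, h.div_r a3 a2 a2, h.self a2] at h3
  have h4 : T (y - x) (y - z) = T (x - y) (y - z) := by
    rw [← neg_sub x y, h.neg_l a1 a3]
  have h5 : T (z - x) (z - y) = T (x - z) (y - z) := by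
    rw [← neg_sub x z, h.neg_l a2 (sub_ne_zero.mpr (Ne.symm hyz)), ← neg_sub y z, h.neg_r a3 a2]
  rw [h4, h5]
  linarith

theorem prod_l {ι : Type*} (s : Multiset ι) (f : ι → E) (hf : ∀ i ∈ s, f i ≠ 0) {c : E}
    (hc : c ≠ 0) : T (s.map f).prod c = (s.map fun i => T (f i) c).sum := by
  induction s using Multiset.induction_on with
  | empty => simpa using h.one_l hc
  | cons a s ih =>
    rw [Multiset.map_cons, Multiset.prod_cons, Multiset.map_cons, Multiset.sum_cons,
      h.ml _ _ c (hf a (Multiset.mem_cons_self a s)) ?_ hc,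
      ih fun i hi => hf i (Multiset.mem_cons_of_mem hi)]
    refine Multiset.prod_ne_zero ?_
    intro h0
    obtain ⟨i, hi, h0⟩ := Multiset.mem_map.mp h0
    exact hf i (Multiset.mem_cons_of_mem hi) h0

theorem prod_r {ι : Type*} (s : Multiset ι) (f : ι → E) (hf : ∀ i ∈ s, f i ≠ 0) {c : E}
    (hc : c ≠ 0) : T c (s.map f).prod = (s.map fun i => T c (f i)).sum := by
  induction s using Multiset.induction_on with
  | empty => simpa using h.one_r hc
  | cons a s ih =>
    rw [Multiset.map_cons, Multiset.prod_cons, Multiset.map_cons, Multiset.sum_cons,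
      h.mr c _ _ hc (hf a (Multiset.mem_cons_self a s)) ?_,
      ih fun i hi => hf i (Multiset.mem_cons_of_mem hi)]
    refine Multiset.prod_ne_zero ?_
    intro h0
    obtain ⟨i, hi, h0⟩ := Multiset.mem_map.mp h0
    exact hf i (Multiset.mem_cons_of_mem hi) h0

end IsSt

/-- The reciprocity law for three multisets of elements. -/
theorem recip {E : Type*} [Field E] {T : E → E → ℚ} (h : IsSt T) (s t u : Multiset E)
    (hst : ∀ x ∈ s, ∀ y ∈ t, x ≠ y) (hsu : ∀ x ∈ s, ∀ z ∈ u, x ≠ z)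
    (htu : ∀ y ∈ t, ∀ z ∈ u, y ≠ z) :
    (s.map fun x => T (t.map fun y => x - y).prod (u.map fun z => x - z).prod).sum =
      (t.map fun y => T (s.map fun x => y - x).prod (u.map fun z => y - z).prod).sum -
        (u.map fun z => T (s.map fun x => z - x).prod (t.map fun y => z - y).prod).sum := by
  have hne : ∀ (v : Multiset E) (f : E → E), (∀ i ∈ v, f i ≠ 0) → (v.map f).prod ≠ 0 := by
    intro v f hf
    refine Multiset.prod_ne_zero ?_
    intro h0
    obtain ⟨i, hi, h0⟩ := Multiset.mem_map.mp h0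
    exact hf i hi h0
  have e1 : (s.map fun x => T (t.map fun y => x - y).prod (u.map fun z => x - z).prod).sum =
      (s.map fun x => (t.map fun y => (u.map fun z => T (x - y) (x - z)).sum).sum).sum := by
    refine congrArg _ (Multiset.map_congr rfl fun x hx => ?_)
    rw [h.prod_l t _ (fun y hy => sub_ne_zero.mpr (hst x hx y hy))
      (hne u _ fun z hz => sub_ne_zero.mpr (hsu x hx z hz))]
    refine congrArg _ (Multiset.map_congr rfl fun y hy => ?_)
    exact h.prod_r u _ (fun z hz => sub_ne_zero.mpr (hsu x hx z hz))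
      (sub_ne_zero.mpr (hst x hx y hy))
  have e2 : (t.map fun y => T (s.map fun x => y - x).prod (u.map fun z => y - z).prod).sum =
      (s.map fun x => (t.map fun y => (u.map fun z => T (y - x) (y - z)).sum).sum).sum := by
    rw [Multiset.sum_map_sum_map]
    refine congrArg _ (Multiset.map_congr rfl fun y hy => ?_)
    rw [h.prod_l s _ (fun x hx => sub_ne_zero.mpr (Ne.symm (hst x hx y hy)))
      (hne u _ fun z hz => sub_ne_zero.mpr (htu y hy z hz))]
    refine congrArg _ (Multiset.map_congr rfl fun x hx => ?_)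
    exact h.prod_r u _ (fun z hz => sub_ne_zero.mpr (htu y hy z hz))
      (sub_ne_zero.mpr (Ne.symm (hst x hx y hy)))
  have e3 : (u.map fun z => T (s.map fun x => z - x).prod (t.map fun y => z - y).prod).sum =
      (s.map fun x => (t.map fun y => (u.map fun z => T (z - x) (z - y)).sum).sum).sum := by
    have e4 : (u.map fun z => T (s.map fun x => z - x).prod (t.map fun y => z - y).prod).sum =
        (u.map fun z => (s.map fun x => (t.map fun y => T (z - x) (z - y)).sum).sum).sum := by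
      refine congrArg _ (Multiset.map_congr rfl fun z hz => ?_)
      rw [h.prod_l s _ (fun x hx => sub_ne_zero.mpr (Ne.symm (hsu x hx z hz)))
        (hne t _ fun y hy => sub_ne_zero.mpr (Ne.symm (htu y hy z hz)))]
      refine congrArg _ (Multiset.map_congr rfl fun x hx => ?_)
      exact h.prod_r t _ (fun y hy => sub_ne_zero.mpr (Ne.symm (htu y hy z hz)))
        (sub_ne_zero.mpr (Ne.symm (hsu x hx z hz)))
    rw [e4, Multiset.sum_map_sum_map]
    refine congrArg _ (Multiset.map_congr rfl fun x hx => ?_)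
    rw [Multiset.sum_map_sum_map]
  rw [e1, e2, e3, ← Multiset.sum_map_sub]
  refine congrArg _ (Multiset.map_congr rfl fun x hx => ?_)
  rw [← Multiset.sum_map_sub]
  refine congrArg _ (Multiset.map_congr rfl fun y hy => ?_)
  rw [← Multiset.sum_map_sub]
  refine congrArg _ (Multiset.map_congr rfl fun z hz => ?_)
  exact h.key (hst x hx y hy) (hsu x hx z hz) (htu y hy z hz)

end Pool.Agent.Lib.MP_b197b4_ntKD
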