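import Pool.Agent.Lib.MP_b197b4_ntKD.Pt
import Pool.Agent.Lib.MP_b197b4_ntKD.Rm
import Pool.Agent.Lib.MP_b197b4_ntKR.LenSum

/-!
# MP_b197b4_nt (K_1 of surfaces): the length forms over a larger field of constants
-/

set_option autoImplicit false

namespace Pool.Agent.Lib.MP_b197b4_ntKD

open IsLocalRing Pool.Agent.Lib.MP_b197b4_ntK Pool.Agent.Lib.MP_b197b4_ntKR

variable {k k' F K : Type} [Field k] [Field k'] [Field F] [Field K] [Algebra k k'] [Algebra k F]
  [Algebra k' K] [Algebra F K] {A : Subalgebra k F} {m' : Ideal (bc k' K A)} {O' : Subring K}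

/-- A curve through the point above lies over a curve through the point below. -/
theorem BC.curveAt_down (h : BC k k' F K) (hA : Chart A) (hm' : m'.IsMaximal)
    (hO' : IsLoc (bc k' K A) m' O') {V' : ValuationSubring K} (hV' : V' ∈ CurvesAt O') :
    V'.comap (algebraMap F K) ∈ CurvesAt (O'.comap (algebraMap F K)) := by
  obtain ⟨hm, hO⟩ := h.point_down hA hm' hO'
  obtain ⟨h1, h2⟩ := (hO'.mem_curvesAt hm'.isPrime.ne_top V').mp hV'
  rw [hO.mem_curvesAt hm.isPrime.ne_top]
  exact ⟨h.curve_down hA h1, fun x hx => h2 hx⟩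

/-- Orders do not change. -/
theorem BC.ordAt (h : BC k k' F K) (hA : Chart A) (hm' : m'.IsMaximal)
    (hO' : IsLoc (bc k' K A) m' O') {V' : ValuationSubring K} (hV' : V' ∈ CurvesAt O') {x : F}
    (hx : x ≠ 0) : ord V' (algebraMap F K x) = ord (V'.comap (algebraMap F K)) x := by
  have h1 := h.curveAt_down hA hm' hO' hV'
  obtain ⟨hm, hO⟩ := h.point_down hA hm' hO'
  have h2 := ((hO.mem_curvesAt hm.isPrime.ne_top _).mp h1).1
  exact (h.dvr V' (fun c => ValuationSubring.mem_comap.mp (h2.2.1 _ (A.algebraMap_mem c)))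
    h2.1).2 x hx

theorem BC.lenO_up (h : BC k k' F K) (hA : Chart A) (hm' : m'.IsMaximal)
    (hO' : IsLoc (bc k' K A) m' O') {V : ValuationSubring F}
    (hV : V ∈ CurvesAt (O'.comap (algebraMap F K))) {a : O'.comap (algebraMap F K)}
    (ha : V.valuation (a : F) = 1) :
    ∑ᶠ (V') (_ : V' ∈ {V' | V' ∈ CurvesAt O' ∧ V'.comap (algebraMap F K) = V}),
      lenAt O' V' (res V' (algebraMap F K (a : F))) =
    lenAt (O'.comap (algebraMap F K)) V (res V (a : F)) := by
  obtain ⟨hm, hO⟩ := h.point_down hA hm' hO'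
  have hO2 := hO.loc2 hA hm
  have hO2' := hO'.loc2 (chart_bc h hA) hm'
  obtain ⟨p, hp, hpV⟩ := CurvesAt.exists_prime hO2 hV
  have hp0 : (p : F) ≠ 0 := fun h0 => hp.ne_zero (Subtype.ext h0)
  have huniq : ∀ V' ∈ CurvesAt O', V'.valuation (algebraMap F K (p : F)) < 1 →
      V'.comap (algebraMap F K) = V := by
    intro V' hV' hlt
    exact CurvesAt.unique (h.curveAt_down hA hm' hO' hV') hV hp
      ((comap_lt_one _ _ _).mpr hlt) hpV
  have h1 := len_sum' hO2' (x := lm F O' p) (y := lm F O' a) (fun h0 => hp0 (by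
      have h2 : algebraMap F K (p : F) = 0 := congrArg (Subtype.val : O' → K) h0
      exact (map_eq_zero _).mp h2)) (by
      intro V' hV' hlt
      have h2 := huniq V' hV' hlt
      rw [← h2] at ha
      exact (comap_eq_one _ _ _).mp ha)
  rw [h.len2_loc hA hm' hO'] at h1
  rw [lenAt_res hO2 hV ha, lenO_eq hV hp hpV, h1.2]
  have h3 : ∀ V' ∈ {V' | V' ∈ CurvesAt O' ∧ V'.comap (algebraMap F K) = V},
      lenAt O' V' (res V' (algebraMap F K (a : F))) =
      ord V' (lm F O' p : K) * lenAt O' V' (res V' (lm F O' a : K)) := by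
    rintro V' ⟨hV', hV'V⟩
    have h4 : ord V' (lm F O' p : K) = 1 := by
      rw [lm_coe, h.ordAt hA hm' hO' hV' hp0, hV'V]
      exact ord_prime hp hV hpV
    rw [h4, one_mul]
    rfl
  rw [finsum_mem_congr rfl h3]
  apply finsum_mem_inter_support_eq'
  intro V' hV'
  constructor
  · exact fun h5 => h5.1
  · intro h5
    refine ⟨h5, ?_⟩
    apply huniq V' h5
    by_contra hcon
    apply hV'
    have h6 : V'.valuation (algebraMap F K (p : F)) = 1 := by
      rcases CurvesAt.lt_or_eq h5 (lm F O' p) with h7 | h7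
      · exact absurd h7 hcon
      · exact h7
    have h8 : ord V' (lm F O' p : K) = 0 := by
      have := h5.1
      exact (ord_eq_zero_iff (V := V') ((map_ne_zero (algebraMap F K)).mpr hp0)).mpr h6
    change ord V' (lm F O' p : K) * lenAt O' V' (res V' (lm F O' a : K)) = 0
    rw [h8, zero_mul]

/-- Only finitely many curves through the point above lie over `V`. -/
theorem BC.finite_over (h : BC k k' F K) (hA : Chart A) (hm' : m'.IsMaximal)
    (hO' : IsLoc (bc k' K A) m' O') {V : ValuationSubring F}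
    (hV : V ∈ CurvesAt (O'.comap (algebraMap F K))) :
    {V' | V' ∈ CurvesAt O' ∧ V'.comap (algebraMap F K) = V}.Finite := by
  obtain ⟨hm, hO⟩ := h.point_down hA hm' hO'
  have hO2 := hO.loc2 hA hm
  have hO2' := hO'.loc2 (chart_bc h hA) hm'
  obtain ⟨p, hp, hpV⟩ := CurvesAt.exists_prime hO2 hV
  have hp0 : (p : F) ≠ 0 := fun h0 => hp.ne_zero (Subtype.ext h0)
  refine (finite_ord hO2' (f := algebraMap F K (p : F)) ((map_ne_zero _).mpr hp0)).subset ?_
  rintro V' ⟨hV', hV'V⟩
  refine ⟨hV', ?_⟩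
  rw [h.ordAt hA hm' hO' hV' hp0, hV'V, ord_prime hp hV hpV]
  exact one_ne_zero

/-- **The form of lengths over the larger field of constants.** -/
theorem BC.lenAt_up (h : BC k k' F K) (hA : Chart A) (hm' : m'.IsMaximal)
    (hO' : IsLoc (bc k' K A) m' O') {V : ValuationSubring F}
    (hV : V ∈ CurvesAt (O'.comap (algebraMap F K)))
    (a : ∀ V : ValuationSubring F, ResidueField V) (ha : a V ≠ 0) :
    ∑ᶠ (V') (_ : V' ∈ {V' | V' ∈ CurvesAt O' ∧ V'.comap (algebraMap F K) = V}),
      lenAt O' V' (rmap (algebraMap F K) V' (a (V'.comap (algebraMap F K)))) =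
    lenAt (O'.comap (algebraMap F K)) V (a V) := by
  obtain ⟨hm, hO⟩ := h.point_down hA hm' hO'
  have hO2 := hO.loc2 hA hm
  have hO2' := hO'.loc2 (chart_bc h hA) hm'
  obtain ⟨-, x, y, hx, hy, hxy, -⟩ := hasLenO_exists hV ha
  have hrx : res V (x : F) ≠ 0 := (res_ne_zero_iff (mem_of_val hx)).mpr hx
  have hry : res V (y : F) ≠ 0 := (res_ne_zero_iff (mem_of_val hy)).mpr hy
  have hdiv : ∀ {E : Type} [Field E] {O : Subring E} {V : ValuationSubring E} (_ : Loc2 O)
      (_ : V ∈ CurvesAt O) {c d : ResidueField V} (_ : c ≠ 0) (_ : d ≠ 0),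
      lenAt O V (c / d) = lenAt O V c - lenAt O V d := by
    intro E _ O V hO hV c d hc hd
    rw [div_eq_mul_inv, lenAt_mul hO hV hc (inv_ne_zero hd), lenAt_inv hO hV hd]
    ring
  rw [hxy, hdiv hO2 hV hrx hry, ← h.lenO_up hA hm' hO' hV hx, ← h.lenO_up hA hm' hO' hV hy,
    ← finsum_mem_sub_distrib _ _ (h.finite_over hA hm' hO' hV)]
  refine finsum_mem_congr rfl ?_
  rintro V' ⟨hV', rfl⟩
  have hx' : V'.valuation (algebraMap F K (x : F)) = 1 := (comap_eq_one _ _ _).mp hx
  have hy' : V'.valuation (algebraMap F K (y : F)) = 1 := (comap_eq_one _ _ _).mp hy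
  rw [hxy, map_div₀, rmap_res, rmap_res, hdiv hO2' hV'
    ((res_ne_zero_iff (mem_of_val hx')).mpr hx') ((res_ne_zero_iff (mem_of_val hy')).mpr hy')]

end Pool.Agent.Lib.MP_b197b4_ntKD
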