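import Pool.Agent.Lib.MP_b197b4_ntKD.Ord
import Pool.Agent.Lib.MP_b197b4_ntKD.Gal

/-!
# MP_b197b4_nt (K_1 of surfaces): every form of a tame symbol extends to a Steinberg symbol on the algebraic closure
-/

set_option autoImplicit false

namespace Pool.Agent.Lib.MP_b197b4_ntKD

open IsLocalRing Pool.Agent.Lib.MP_b197b4_ntK

/-- Extension of homomorphisms to the rational numbers. -/
theorem ext_hom {G H : Type*} [CommGroup G] [CommGroup H] (φ : G →* H) (P : Subgroup H)
    (L₀ : G → ℚ) (hL : ∀ x y, L₀ (x * y) = L₀ x + L₀ y) (h0 : ∀ g, φ g ∈ P → L₀ g = 0) :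
    ∃ L : H → ℚ, (∀ x y, L (x * y) = L x + L y) ∧ (∀ g, L (φ g) = L₀ g) ∧ ∀ p ∈ P, L p = 0 := by
  obtain ⟨ψ, hψ⟩ : ∃ ψ : G →* H ⧸ P, ψ = (QuotientGroup.mk' P).comp φ := ⟨_, rfl⟩
  have hone : L₀ 1 = 0 := by
    have := hL 1 1
    rw [mul_one] at this
    linarith
  obtain ⟨M₀, hM₀⟩ : ∃ M₀ : G →* Multiplicative ℚ, ∀ g, M₀ g = Multiplicative.ofAdd (L₀ g) :=
    ⟨{ toFun := fun g => Multiplicative.ofAdd (L₀ g)
       map_one' := by rw [hone]; rfl
       map_mul' := fun x y => by rw [hL]; rfl }, fun g => rfl⟩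
  have hker : ∀ g ∈ ψ.ker, M₀ g = 1 := by
    intro g hg
    rw [hM₀, h0 g ?_]
    · rfl
    · rw [MonoidHom.mem_ker, hψ] at hg
      exact (QuotientGroup.eq_one_iff _).mp hg
  obtain ⟨M1, hM1⟩ : ∃ M1 : G ⧸ ψ.ker →* Multiplicative ℚ,
      ∀ g : G, M1 (QuotientGroup.mk g) = Multiplicative.ofAdd (L₀ g) :=
    ⟨QuotientGroup.lift ψ.ker M₀ hker, fun g => by
      rw [QuotientGroup.lift_mk, hM₀]⟩
  have hinj : Function.Injective (MonoidHom.toAdditive (QuotientGroup.kerLift ψ)) :=
    QuotientGroup.kerLift_injective ψ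
  obtain ⟨h, hh⟩ := (Module.Baer.of_divisible ℚ).extension_property_addMonoidHom
    (MonoidHom.toAdditive (QuotientGroup.kerLift ψ)) hinj
    (MonoidHom.toAdditiveLeft M1)
  refine ⟨fun x => h (Additive.ofMul (QuotientGroup.mk x : H ⧸ P)), ?_, ?_, ?_⟩
  · intro x y
    change h (Additive.ofMul (QuotientGroup.mk (x * y) : H ⧸ P)) =
      h (Additive.ofMul (QuotientGroup.mk x : H ⧸ P)) +
        h (Additive.ofMul (QuotientGroup.mk y : H ⧸ P))
    rw [QuotientGroup.mk_mul, ofMul_mul, map_add]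
  · intro g
    have h1 := DFunLike.congr_fun hh (Additive.ofMul (QuotientGroup.mk g : G ⧸ ψ.ker))
    have h2 : (MonoidHom.toAdditive (QuotientGroup.kerLift ψ))
        (Additive.ofMul (QuotientGroup.mk g : G ⧸ ψ.ker)) = Additive.ofMul (ψ g) := rfl
    rw [AddMonoidHom.comp_apply, h2] at h1
    have h3 : (MonoidHom.toAdditiveLeft M1) (Additive.ofMul (QuotientGroup.mk g : G ⧸ ψ.ker)) =
        Multiplicative.toAdd (M1 (QuotientGroup.mk g)) := rfl
    rw [h3, hM1] at h1
    rw [hψ] at h1
    exact h1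
  · intro p hp
    have h1 : (QuotientGroup.mk p : H ⧸ P) = 1 := (QuotientGroup.eq_one_iff p).mpr hp
    change h (Additive.ofMul (QuotientGroup.mk p : H ⧸ P)) = 0
    rw [h1, ofMul_one, map_zero]

/-- Extension of additive functions on the nonzero elements of a field. -/
theorem ext_fun {K E : Type*} [Field K] [Field E] [Algebra K E] (P : Subgroup Eˣ)
    (L₀ : K → ℚ) (hL : ∀ x y, x ≠ 0 → y ≠ 0 → L₀ (x * y) = L₀ x + L₀ y)
    (h0 : ∀ x : Kˣ, Units.map (algebraMap K E).toMonoidHom x ∈ P → L₀ x = 0) :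
    ∃ L : E → ℚ, (∀ x y, x ≠ 0 → y ≠ 0 → L (x * y) = L x + L y) ∧
      (∀ x : K, x ≠ 0 → L (algebraMap K E x) = L₀ x) ∧ ∀ p ∈ P, L (p : E) = 0 := by
  classical
  obtain ⟨L, h1, h2, h3⟩ := ext_hom (Units.map (algebraMap K E).toMonoidHom) P
    (fun x => L₀ (x : K)) (fun x y => hL _ _ x.ne_zero y.ne_zero) h0
  refine ⟨fun x => if hx : x = 0 then 0 else L (Units.mk0 x hx), ?_, ?_, ?_⟩
  · intro x y hx hy
    simp only [dif_neg hx, dif_neg hy, dif_neg (mul_ne_zero hx hy)]
    rw [← h1]
    congr 1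
    ext
    rfl
  · intro x hx
    have hx' : algebraMap K E x ≠ 0 := by
      rwa [ne_eq, map_eq_zero]
    simp only [dif_neg hx']
    have h4 := h2 (Units.mk0 x hx)
    rw [Units.val_mk0] at h4
    rw [← h4]
    congr 1
    ext
    rfl
  · intro p hp
    simp only [dif_neg p.ne_zero]
    rw [← h3 p hp]
    congr 1
    ext
    rfl

/-- Every valuation ring extends to a larger field. -/
theorem exists_ext {K E : Type*} [Field K] [Field E] [Algebra K E] (V : ValuationSubring K) :
    ∃ W : ValuationSubring E, ∀ x : K, algebraMap K E x ∈ W ↔ x ∈ V := by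
  obtain ⟨W, hW⟩ := (LocalSubring.map (algebraMap K E) V.toLocalSubring).exists_le_valuationSubring
  obtain ⟨h1, h2⟩ := hW
  refine ⟨W, fun x => ?_⟩
  have hV : ∀ x : K, x ∈ V → algebraMap K E x ∈ W := by
    intro x hx
    exact h1 ⟨x, hx, rfl⟩
  refine ⟨fun hx => ?_, hV x⟩
  by_contra hxV
  have hx0 : x ≠ 0 := by
    rintro rfl
    exact hxV V.zero_mem
  have h3 : x⁻¹ ∈ V := (V.mem_or_inv_mem x).resolve_left hxV
  -- `x⁻¹` is a unit in `W`, so in `V`
  obtain ⟨y, hy⟩ : ∃ y : (LocalSubring.map (algebraMap K E) V.toLocalSubring).toSubring,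
      (y : E) = algebraMap K E x⁻¹ := ⟨⟨algebraMap K E x⁻¹, ⟨x⁻¹, h3, rfl⟩⟩, rfl⟩
  have h4 : IsUnit (Subring.inclusion h1 y) := by
    refine isUnit_iff_exists_inv.mpr ⟨⟨algebraMap K E x, hx⟩, ?_⟩
    apply Subtype.ext
    change (y : E) * algebraMap K E x = 1
    rw [hy, ← map_mul, inv_mul_cancel₀ hx0, map_one]
  have h5 := h2.map_nonunit y h4
  obtain ⟨z, hz⟩ := isUnit_iff_exists_inv.mp h5
  have h6 : (y : E) * (z : E) = 1 := congrArg Subtype.val hz
  obtain ⟨w, hw, hw'⟩ := z.2
  rw [hy, ← hw', ← map_mul, ← map_one (algebraMap K E)] at h6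
  have h7 : x⁻¹ * w = 1 := (algebraMap K E).injective h6
  have h8 : w = x := by
    have := congrArg (fun t => x * t) h7
    simpa [hx0] using this
  exact hxV (h8 ▸ hw)

/-- The Steinberg symbol of two additive functions which vanish on the principal units respectively on
the units of a valuation ring. -/
theorem isSt_of {E : Type*} [Field E] (W : ValuationSubring E) (L w : E → ℚ)
    (hL : ∀ x y, x ≠ 0 → y ≠ 0 → L (x * y) = L x + L y)
    (hw : ∀ x y, x ≠ 0 → y ≠ 0 → w (x * y) = w x + w y)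
    (hLP : ∀ p ∈ W.principalUnitGroup, L (p : E) = 0) (hwU : ∀ p ∈ W.unitGroup, w (p : E) = 0) :
    IsSt (fun f g => w g * L f - w f * L g) := by
  have hL1 : ∀ x : E, W.valuation (x - 1) < 1 → x ≠ 0 → L x = 0 := by
    intro x hx hx0
    exact hLP (Units.mk0 x hx0) hx
  have hw1 : ∀ x : E, W.valuation x = 1 → w x = 0 := by
    intro x hx
    have hx0 : x ≠ 0 := by
      rintro rfl
      rw [map_zero] at hx
      exact zero_ne_one hx
    exact hwU (Units.mk0 x hx0) hx
  have hneg : ∀ u : E → ℚ, (∀ x y, x ≠ 0 → y ≠ 0 → u (x * y) = u x + u y) → ∀ x, x ≠ 0 →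
      u (-x) = u x := by
    intro u hu x hx
    have h1 := hu 1 1 one_ne_zero one_ne_zero
    have h2 := hu (-1) (-1) (neg_ne_zero.mpr one_ne_zero) (neg_ne_zero.mpr one_ne_zero)
    have h3 := hu (-1) x (neg_ne_zero.mpr one_ne_zero) hx
    rw [mul_one] at h1
    rw [neg_mul_neg, mul_one] at h2
    rw [neg_one_mul] at h3
    linarith
  refine ⟨?_, ?_, ?_⟩
  · intro a b c ha hb hc
    simp only [hL a b ha hb, hw a b ha hb]
    ring
  · intro a b c ha hb hc
    simp only [hL b c hb hc, hw b c hb hc]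
    ring
  · intro a ha ha1
    have h1a : 1 - a ≠ 0 := sub_ne_zero.mpr (Ne.symm ha1)
    rcases lt_trichotomy (W.valuation a) 1 with h | h | h
    · -- `1 - a` is a principal unit
      have h1 : W.valuation (1 - a - 1) < 1 := by
        have : 1 - a - 1 = -a := by ring
        rw [this, Valuation.map_neg]
        exact h
      have h2 : W.valuation (1 - a) = 1 := by
        rw [sub_eq_add_neg]
        exact W.valuation.map_one_add_of_lt (by rwa [Valuation.map_neg])
      simp only [hL1 _ h1 h1a, hw1 _ h2]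
      ring
    · have h2 : W.valuation (1 - a) ≤ 1 := by
        refine (W.valuation.map_sub _ _).trans ?_
        rw [map_one, h, max_self]
      rcases h2.lt_or_eq with h2 | h2
      · have h3 : W.valuation (a - 1) < 1 := by
          rw [← neg_sub, Valuation.map_neg]
          exact h2
        simp only [hL1 _ h3 ha, hw1 _ h]
        ring
      · simp only [hw1 _ h, hw1 _ h2]
        ring
    · -- `1 - a = - a (1 - a⁻¹)`
      have h1 : W.valuation a⁻¹ < 1 := by
        rw [map_inv₀]
        exact inv_lt_one_of_one_lt₀ h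
      have h2 : 1 - a⁻¹ ≠ 0 := by
        intro h0
        have : a⁻¹ = 1 := (sub_eq_zero.mp h0).symm
        exact ha1 (inv_eq_one.mp this)
      have h3 : W.valuation (1 - a⁻¹ - 1) < 1 := by
        have : 1 - a⁻¹ - 1 = -a⁻¹ := by ring
        rw [this, Valuation.map_neg]
        exact h1
      have h4 : W.valuation (1 - a⁻¹) = 1 := by
        rw [sub_eq_add_neg]
        exact W.valuation.map_one_add_of_lt (by rwa [Valuation.map_neg])
      have h5 : 1 - a = -a * (1 - a⁻¹) := by
        field_simp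
        ring
      have h6 : L (1 - a) = L a := by
        rw [h5, hL _ _ (neg_ne_zero.mpr ha) h2, hneg L hL a ha, hL1 _ h3 h2, add_zero]
      have h7 : w (1 - a) = w a := by
        rw [h5, hw _ _ (neg_ne_zero.mpr ha) h2, hneg w hw a ha, hw1 _ h4, add_zero]
      simp only [h6, h7]
      ring

/-- **Every form of the tame symbol extends to a Steinberg symbol on a larger field.** -/
theorem exists_St {K : Type} [Field K] (V : ValuationSubring K) (hV : IsDiscreteValuationRing V)
    (l : ResidueField V → ℚ)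
    (hl : ∀ a b : ResidueField V, a ≠ 0 → b ≠ 0 → l (a * b) = l a + l b)
    (E : Type*) [Field E] [Algebra K E] :
    ∃ T : E → E → ℚ, IsSt T ∧ ∀ f g : K, f ≠ 0 → g ≠ 0 →
      T (algebraMap K E f) (algebraMap K E g) = l (tame V f g) := by
  obtain ⟨π, hπ⟩ := IsDiscreteValuationRing.exists_irreducible V
  obtain ⟨W, hW⟩ := exists_ext (E := E) V
  have hp := coe_ne hπ
  have hu : ∀ {x : K}, x ≠ 0 → V.valuation (x / (π : K) ^ ord V x) = 1 := by
    intro x hx
    rw [map_div₀, map_zpow₀, val_ord hπ hx]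
    exact div_self (zpow_ne_zero _ (val_pos hπ).ne')
  -- comparison of the valuations
  have hlt : ∀ x : K, W.valuation (algebraMap K E x) < 1 → V.valuation x < 1 := by
    intro x hx
    by_contra h
    have h1 : x ≠ 0 := by
      rintro rfl
      rw [map_zero] at h
      exact h zero_lt_one
    have h2 : V.valuation x⁻¹ ≤ 1 := by
      rw [map_inv₀]
      exact inv_le_one_of_one_le₀ (not_lt.mp h)
    have h3 : algebraMap K E x⁻¹ ∈ W := (hW _).mpr ((V.valuation_le_one_iff _).mp h2)
    have h4 := (W.valuation_le_one_iff _).mpr h3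
    rw [map_inv₀, map_inv₀] at h4
    have h5 : (1 : W.ValueGroup) < (W.valuation (algebraMap K E x))⁻¹ := by
      refine (one_lt_inv₀ ?_).mpr hx
      rw [zero_lt_iff, ne_eq, map_eq_zero, map_eq_zero]
      exact h1
    exact absurd h4 (not_le.mpr h5)
  have hone : ∀ x : K, W.valuation (algebraMap K E x) = 1 → V.valuation x = 1 := by
    intro x hx
    have h1 : x ∈ V := (hW x).mp ((W.valuation_le_one_iff _).mp hx.le)
    refine le_antisymm ((V.valuation_le_one_iff x).mpr h1) ?_
    have h2 : x⁻¹ ∈ V := by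
      refine (hW _).mp ((W.valuation_le_one_iff _).mp ?_)
      rw [map_inv₀, map_inv₀, hx, inv_one]
    have h3 := (V.valuation_le_one_iff _).mpr h2
    rw [map_inv₀] at h3
    have h4 : x ≠ 0 := by
      rintro rfl
      rw [map_zero, map_zero] at hx
      exact zero_ne_one hx
    have h5 : 0 < V.valuation x := by
      rw [zero_lt_iff, ne_eq, map_eq_zero]
      exact h4
    exact (inv_le_one₀ h5).mp h3
  -- the two functions
  have hL₀ : ∀ x y : K, x ≠ 0 → y ≠ 0 → l (res V (x * y / (π : K) ^ ord V (x * y))) =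
      l (res V (x / (π : K) ^ ord V x)) + l (res V (y / (π : K) ^ ord V y)) := by
    intro x y hx hy
    have e : x * y / (π : K) ^ ord V (x * y) =
        (x / (π : K) ^ ord V x) * (y / (π : K) ^ ord V y) := by
      rw [ord_mul hx hy, zpow_add₀ hp]
      have h1 : (π : K) ^ ord V x ≠ 0 := zpow_ne_zero _ hp
      have h2 : (π : K) ^ ord V y ≠ 0 := zpow_ne_zero _ hp
      field_simp
    rw [e, res_mul (mem_of_val (hu hx)) (mem_of_val (hu hy)),
      hl _ _ ((res_ne_zero_iff (mem_of_val (hu hx))).mpr (hu hx))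
        ((res_ne_zero_iff (mem_of_val (hu hy))).mpr (hu hy))]
  have l1 : l 1 = 0 := by
    have := hl 1 1 one_ne_zero one_ne_zero
    rw [mul_one] at this
    linarith
  obtain ⟨L, hL1, hL2, hL3⟩ := ext_fun (E := E) W.principalUnitGroup
    (fun x => l (res V (x / (π : K) ^ ord V x))) hL₀ (by
      intro x hx
      have h1 : V.valuation ((x : K) - 1) < 1 := by
        refine hlt _ ?_
        rw [map_sub, map_one]
        exact hx
      have h2 : V.valuation (x : K) = 1 := by
        have := V.valuation.map_one_add_of_lt h1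
        rwa [add_sub_cancel] at this
      have h3 : ord V (x : K) = 0 := (ord_eq_zero_iff x.ne_zero).mpr h2
      rw [h3, zpow_zero, div_one]
      have h4 : res V (x : K) = 1 := by
        rw [← res_one]
        exact (res_eq_iff (mem_of_val h2) V.one_mem).mpr h1
      rw [h4, l1])
  obtain ⟨w, hw1, hw2, hw3⟩ := ext_fun (E := E) W.unitGroup
    (fun x => ((ord V x : ℤ) : ℚ)) (fun x y hx hy => by
      rw [ord_mul hx hy]
      push_cast
      rfl) (by
      intro x hx
      have h1 : V.valuation (x : K) = 1 := hone _ hx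
      rw [(ord_eq_zero_iff x.ne_zero).mpr h1]
      simp)
  refine ⟨_, isSt_of W L w hL1 hw1 hL3 hw3, ?_⟩
  intro f g hf hg
  simp only [hL2 f hf, hL2 g hg, hw2 f hf, hw2 g hg]
  rw [form_tame l hl hπ hf hg]

/-- An element killed by all additive functions is a root of unity. -/
theorem torsion_of_forms {k : Type*} [Field k] {x : k} (hx : x ≠ 0)
    (h : ∀ l : k → ℚ, (∀ a b : k, a ≠ 0 → b ≠ 0 → l (a * b) = l a + l b) → l x = 0) :
    ∃ n : ℕ, 0 < n ∧ x ^ n = 1 := by
  by_contra hcon
  have hinf : ∀ n : ℕ, 0 < n → x ^ n ≠ 1 := fun n hn h1 => hcon ⟨n, hn, h1⟩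
  have hinfz : ∀ n : ℤ, x ^ n = 1 → n = 0 := by
    intro n hn
    by_contra h0
    rcases lt_or_gt_of_ne h0 with h1 | h1
    · refine hinf (-n).toNat (by omega) ?_
      rw [← zpow_natCast, Int.toNat_of_nonneg (by omega), zpow_neg, hn, inv_one]
    · refine hinf n.toNat (by omega) ?_
      rw [← zpow_natCast, Int.toNat_of_nonneg (by omega), hn]
  obtain ⟨φ, hφ⟩ : ∃ φ : Multiplicative ℤ →* kˣ, ∀ n, φ n = (Units.mk0 x hx) ^ (Multiplicative.toAdd n) :=
    ⟨zpowersHom kˣ (Units.mk0 x hx), fun n => rfl⟩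
  obtain ⟨L, h1, h2, -⟩ := ext_hom φ ⊥ (fun n => ((Multiplicative.toAdd n : ℤ) : ℚ))
    (fun a b => by rw [toAdd_mul]; push_cast; rfl) (by
      intro n hn
      rw [Subgroup.mem_bot, hφ] at hn
      have h3 := congrArg Units.val hn
      rw [Units.val_zpow_eq_zpow_val, Units.val_mk0, Units.val_one] at h3
      rw [hinfz _ h3]
      simp)
  classical
  have h3 := h (fun y => if hy : y = 0 then 0 else L (Units.mk0 y hy)) (by
    intro a b ha hb
    simp only [dif_neg ha, dif_neg hb, dif_neg (mul_ne_zero ha hb)]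
    rw [← h1]
    congr 1
    ext
    rfl)
  simp only [dif_neg hx] at h3
  have h4 := h2 (Multiplicative.ofAdd 1)
  rw [hφ] at h4
  simp only [toAdd_ofAdd, zpow_one, Int.cast_one] at h4
  rw [h3] at h4
  exact zero_ne_one h4

/-- **DESCENT OF SYMBOLS.** The product of the conjugates of a tame symbol comes from symbols of the
ground field, up to torsion, at every discrete valuation ring. -/
theorem desc_gal {F F' : Type} [Field F] [Field F'] [Algebra F F'] [FiniteDimensional F F']
    [IsGalois F F'] {f g : F'} (hf : f ≠ 0) (hg : g ≠ 0) :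
    ∃ l : List (F × F × ℤ), (∀ p ∈ l, p.1 ≠ 0 ∧ p.2.1 ≠ 0) ∧
      ∀ V : ValuationSubring F', IsDiscreteValuationRing V → ∃ M : ℕ, 0 < M ∧
        (∏ σ : F' ≃ₐ[F] F', tame V (σ f) (σ g)) ^ M =
          ((l.map fun p => tame V (algebraMap F F' p.1) (algebraMap F F' p.2.1) ^ p.2.2).prod) ^ M := by
  obtain ⟨l, h1, h2⟩ := rep_gal F F' (AlgebraicClosure F') hf hg
  refine ⟨l, h1, fun V hV => ?_⟩
  have hmap : ∀ {x : F}, x ≠ 0 → algebraMap F F' x ≠ 0 := by
    intro x hx
    rwa [ne_eq, map_eq_zero]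
  have hs : ∀ (σ : F' ≃ₐ[F] F') {x : F'}, x ≠ 0 → σ x ≠ 0 := by
    intro σ x hx
    rwa [ne_eq, map_eq_zero]
  have n1 : (∏ σ : F' ≃ₐ[F] F', tame V (σ f) (σ g)) ≠ 0 :=
    Finset.prod_ne_zero_iff.mpr fun σ _ => tame_ne (hs σ hf) (hs σ hg)
  have n2 : ((l.map fun p => tame V (algebraMap F F' p.1) (algebraMap F F' p.2.1) ^ p.2.2).prod) ≠ 0 := by
    refine List.prod_ne_zero ?_
    intro h0
    obtain ⟨p, hp, h0⟩ := List.mem_map.mp h0
    exact zpow_ne_zero _ (tame_ne (hmap (h1 p hp).1) (hmap (h1 p hp).2)) h0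
  obtain ⟨n, hn, hn1⟩ := torsion_of_forms (div_ne_zero n1 n2) (by
    intro L hL
    obtain ⟨T, hT, hT1⟩ := exists_St V hV L hL (AlgebraicClosure F')
    have h3 := h2 T hT
    have l1 : L 1 = 0 := by
      have := hL 1 1 one_ne_zero one_ne_zero
      rw [mul_one] at this
      linarith
    have linv : ∀ a : ResidueField V, a ≠ 0 → L a⁻¹ = - L a := by
      intro a ha
      have := hL a a⁻¹ ha (inv_ne_zero ha)
      rw [mul_inv_cancel₀ ha, l1] at this
      linarith
    have lpow : ∀ (a : ResidueField V), a ≠ 0 → ∀ n : ℕ, L (a ^ n) = n * L a := by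
      intro a ha n
      induction n with
      | zero => rw [pow_zero, l1]; simp
      | succ n ih =>
        rw [pow_succ, hL _ _ (pow_ne_zero _ ha) ha, ih]
        push_cast
        ring
    have lzpow : ∀ (a : ResidueField V), a ≠ 0 → ∀ n : ℤ, L (a ^ n) = n * L a := by
      intro a ha n
      cases n with
      | ofNat n =>
        rw [Int.ofNat_eq_natCast, zpow_natCast, lpow a ha]
        simp
      | negSucc n =>
        rw [zpow_negSucc, linv _ (pow_ne_zero _ ha), lpow a ha]
        push_cast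
        ring
    have lprod : ∀ (s : Finset (F' ≃ₐ[F] F')), L (∏ σ ∈ s, tame V (σ f) (σ g)) =
        ∑ σ ∈ s, L (tame V (σ f) (σ g)) := by
      intro s
      classical
      induction s using Finset.induction_on with
      | empty => simpa using l1
      | insert a s ha ih =>
        rw [Finset.prod_insert ha, Finset.sum_insert ha,
          hL _ _ (tame_ne (hs a hf) (hs a hg))
            (Finset.prod_ne_zero_iff.mpr fun σ _ => tame_ne (hs σ hf) (hs σ hg)), ih]
    have llist : ∀ (m : List (F × F × ℤ)), (∀ p ∈ m, p.1 ≠ 0 ∧ p.2.1 ≠ 0) →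
        (m.map fun p => tame V (algebraMap F F' p.1) (algebraMap F F' p.2.1) ^ p.2.2).prod ≠ 0 ∧
        L ((m.map fun p => tame V (algebraMap F F' p.1) (algebraMap F F' p.2.1) ^ p.2.2).prod) =
        (m.map fun p => (p.2.2 : ℚ) * L (tame V (algebraMap F F' p.1) (algebraMap F F' p.2.1))).sum := by
      intro m
      induction m with
      | nil =>
        intro _
        simpa using l1
      | cons p m ih =>
        intro hm
        obtain ⟨i1, i2⟩ := ih fun q hq => hm q (List.mem_cons_of_mem _ hq)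
        have hp := hm p List.mem_cons_self
        have h5 := tame_ne (V := V) (hmap hp.1) (hmap hp.2)
        rw [List.map_cons, List.prod_cons, List.map_cons, List.sum_cons]
        refine ⟨mul_ne_zero (zpow_ne_zero _ h5) i1, ?_⟩
        rw [hL _ _ (zpow_ne_zero _ h5) i1, i2, lzpow _ h5]
    rw [div_eq_mul_inv, hL _ _ n1 (inv_ne_zero n2), linv _ n2, lprod, (llist l h1).2]
    have h4 : ∑ σ : F' ≃ₐ[F] F', T (algebraMap F' (AlgebraicClosure F') (σ f))
        (algebraMap F' (AlgebraicClosure F') (σ g)) = ∑ σ : F' ≃ₐ[F] F', L (tame V (σ f) (σ g)) :=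
      Finset.sum_congr rfl fun σ _ => hT1 _ _ (hs σ hf) (hs σ hg)
    have h5 : (l.map fun p => (p.2.2 : ℚ) * T (algebraMap F (AlgebraicClosure F') p.1)
        (algebraMap F (AlgebraicClosure F') p.2.1)) =
        l.map fun p => (p.2.2 : ℚ) * L (tame V (algebraMap F F' p.1) (algebraMap F F' p.2.1)) := by
      refine List.map_congr_left fun p hp => ?_
      rw [IsScalarTower.algebraMap_apply F F' (AlgebraicClosure F') p.1,
        IsScalarTower.algebraMap_apply F F' (AlgebraicClosure F') p.2.1,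
        hT1 _ _ (hmap (h1 p hp).1) (hmap (h1 p hp).2)]
    beta_reduce at h3
    rw [h4, h5] at h3
    rw [h3]
    ring)
  refine ⟨n, hn, ?_⟩
  rw [div_pow, div_eq_one_iff_eq (pow_ne_zero _ n2)] at hn1
  exact hn1

end Pool.Agent.Lib.MP_b197b4_ntKD
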